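import Pool.Agent.Alm48.Defs

/-! # Alm48 task A1: elementary facts on bits, weights, moves -/

set_option autoImplicit false
namespace Pool.Alm48
open scoped BigOperators
open Finset

theorem bt_zero {n : ℕ} (x : V n) : bt x 0 = 1 / 2 := by simp [bt]

theorem bt_succ {n : ℕ} (x : V n) (i : Fin n) :
    bt x (i.val + 1) = if x i = true then 1 else 0 := by
  have h1 : i.val + 1 ≠ 0 := Nat.succ_ne_zero _
  have h2 : i.val + 1 - 1 < n := by simp
  rw [bt, if_neg h1, dif_pos h2]
  have h3 : (⟨i.val + 1 - 1, h2⟩ : Fin n) = i := by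
    apply Fin.ext; simp
  rw [h3]

theorem bt_big {n : ℕ} (x : V n) {j : ℕ} (h : n < j) : bt x j = 0 := by
  have h1 : j ≠ 0 := by omega
  have h2 : ¬ (j - 1 < n) := by omega
  rw [bt, if_neg h1, dif_neg h2]

theorem bt_nonneg {n : ℕ} (x : V n) (j : ℕ) : 0 ≤ bt x j := by
  unfold bt
  split_ifs <;> norm_num

theorem bt_le_one {n : ℕ} (x : V n) (j : ℕ) : bt x j ≤ 1 := by
  unfold bt
  split_ifs <;> norm_num

theorem bt_comp {n : ℕ} (x : V n) {j : ℕ} (h : j ≤ n) : bt (comp x) j = 1 - bt x j := by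
  rcases Nat.eq_zero_or_pos j with rfl | hj
  · rw [bt_zero, bt_zero]; norm_num
  · obtain ⟨k, rfl⟩ : ∃ k, j = k + 1 := ⟨j - 1, by omega⟩
    have hk : k < n := h
    have e1 := bt_succ (comp x) ⟨k, hk⟩
    have e2 := bt_succ x ⟨k, hk⟩
    simp only at e1 e2
    rw [e1, e2]
    unfold comp
    cases hx : x ⟨k, hk⟩ <;> simp

theorem w_nonneg {n i : ℕ} (h : i ≤ n) : 0 ≤ w n i := by
  unfold w
  have h1 : (i : ℝ) ≤ n := by exact_mod_cast h
  have h2 : (0 : ℝ) ≤ i := Nat.cast_nonneg i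
  have h3 : (0 : ℝ) ≤ n := Nat.cast_nonneg n
  apply mul_nonneg
  · linarith
  · linarith

theorem w_le {n i : ℕ} (h : i ≤ n) (hn : 1 ≤ n) : w n i ≤ 2 * (n : ℝ) ^ 2 := by
  unfold w
  have h1 : (i : ℝ) ≤ n := by exact_mod_cast h
  have h2 : (0 : ℝ) ≤ i := Nat.cast_nonneg i
  have h3 : (1 : ℝ) ≤ n := by exact_mod_cast hn
  nlinarith [mul_nonneg h2 h2, mul_nonneg (sub_nonneg.2 h3) (le_trans zero_le_one h3)]

theorem Wt_nonneg {n i : ℕ} (h : i ≤ n) : 0 ≤ Wt n i := by
  unfold Wt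
  split_ifs with h0
  · have := w_nonneg (n := n) (i := 0) (Nat.zero_le _)
    linarith
  · exact w_nonneg h

theorem Wt_le {n i : ℕ} (h : i ≤ n) (hn : 1 ≤ n) : Wt n i ≤ 2 * (n : ℝ) ^ 2 := by
  unfold Wt
  split_ifs with h0
  · have h1 := w_nonneg (n := n) (i := 0) (Nat.zero_le _)
    have h2 := w_le (n := n) (i := 0) (Nat.zero_le _) hn
    linarith
  · exact w_le h hn

theorem mem_ups {n : ℕ} (x : V n) (i : Fin n) : i ∈ ups x ↔ canUp x i := by
  simp [ups]

/-- sums over up-moves as sums over `range n` -/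
theorem sum_ups {n : ℕ} (x : V n) (F : ℕ → ℝ) :
    ∑ i ∈ ups x, Wt n i * F i = ∑ i ∈ range n, w n i * bt x i * (1 - bt x (i + 1)) * F i := by
  rw [Finset.sum_range (fun i => w n i * bt x i * (1 - bt x (i + 1)) * F i)]
  unfold ups
  rw [Finset.sum_filter]
  apply Finset.sum_congr rfl
  intro i _
  rw [bt_succ x i]
  by_cases hx : x i = true
  · have hc : ¬ canUp x i := fun hh => by
      have := hh.1
      rw [hx] at this
      exact absurd this (by decide)
    rw [if_neg hc, if_pos hx]; ring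
  · have hxf : x i = false := by simpa using hx
    rw [if_neg hx]
    rcases Nat.eq_zero_or_pos i.val with h0 | h0
    · have hc : canUp x i := ⟨hxf, fun j hj => by omega⟩
      rw [if_pos hc, h0, bt_zero]
      unfold Wt
      rw [if_pos rfl]; ring
    · obtain ⟨k, hk⟩ : ∃ k, i.val = k + 1 := ⟨i.val - 1, by omega⟩
      have hkn : k < n := by have := i.2; omega
      have e2 := bt_succ x ⟨k, hkn⟩
      simp only at e2
      have hW : Wt n i.val = w n i.val := by
        unfold Wt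
        rw [if_neg (by omega)]
      rw [hW]
      have e3 : bt x i.val = if x ⟨k, hkn⟩ = true then 1 else 0 := by rw [hk, e2]
      rw [e3]
      by_cases hxk : x ⟨k, hkn⟩ = true
      · have hc : canUp x i := ⟨hxf, fun j hj => by
          have : j = ⟨k, hkn⟩ := by apply Fin.ext; simp only; omega
          rw [this]; exact hxk⟩
        rw [if_pos hc, if_pos hxk]; ring
      · have hc : ¬ canUp x i := fun hh => hxk (hh.2 ⟨k, hkn⟩ (by simp only; omega))
        rw [if_neg hc, if_neg hxk]; ring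

theorem D_eq_sum_ups {n : ℕ} (x : V n) : D x = ∑ i ∈ ups x, Wt n i := by
  have h := sum_ups x (fun _ => (1 : ℝ))
  simp only [mul_one] at h
  rw [h]
  rfl

theorem D_nonneg {n : ℕ} (x : V n) : 0 ≤ D x := by
  unfold D
  apply Finset.sum_nonneg
  intro i hi
  have hi' : i ≤ n := le_of_lt (Finset.mem_range.1 hi)
  exact mul_nonneg (mul_nonneg (w_nonneg hi') (bt_nonneg x i)) (sub_nonneg.2 (bt_le_one x _))

theorem D_le {n : ℕ} (x : V n) : D x ≤ 2 * (n : ℝ) ^ 3 := by
  unfold D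
  have h : ∀ i ∈ range n, w n i * bt x i * (1 - bt x (i + 1)) ≤ 2 * (n : ℝ) ^ 2 := by
    intro i hi
    have hi1 : i < n := Finset.mem_range.1 hi
    have hi' : i ≤ n := le_of_lt hi1
    have h1 := w_le hi' (by omega : 1 ≤ n)
    have h0 := w_nonneg hi'
    have h2 : w n i * bt x i ≤ w n i := mul_le_of_le_one_right h0 (bt_le_one x i)
    have h3 : w n i * bt x i * (1 - bt x (i + 1)) ≤ w n i * bt x i :=
      mul_le_of_le_one_right (mul_nonneg h0 (bt_nonneg x i)) (by linarith [bt_nonneg x (i + 1)])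
    linarith
  calc ∑ i ∈ range n, w n i * bt x i * (1 - bt x (i + 1)) ≤ ∑ _i ∈ range n, 2 * (n : ℝ) ^ 2 :=
        Finset.sum_le_sum h
    _ = 2 * (n : ℝ) ^ 3 := by
        rw [Finset.sum_const, Finset.card_range, nsmul_eq_mul]; ring

end Pool.Alm48
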