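import Mathlib

/-!
# Asymptotic symmetric chain decomposition of `M(n)`: definitions

`V n` = binary vectors of length `n`; `rk x` = sum of the (1-based) positions of the ones;
`Step x y` = the covering relation of `M(n)` in the form used by the frozen statement.
-/

set_option autoImplicit false

namespace Pool.Alm48

open scoped BigOperators
open Finset

/-- binary vectors of length `n` -/
abbrev V (n : ℕ) := Fin n → Bool

/-- rank: sum of the positions (1-based) of the ones -/
def rk {n : ℕ} (x : V n) : ℕ := ∑ i : Fin n, if x i = true then (i.val + 1) else 0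

/-- one step up in `M(n)` -/
def Step {n : ℕ} (x y : V n) : Prop :=
  (∃ i : Fin n, i.val = 0 ∧ x i = false ∧ y = Function.update x i true) ∨
  (∃ i i' : Fin n, i'.val = i.val + 1 ∧ x i = true ∧ x i' = false ∧
    y = Function.update (Function.update x i false) i' true)

/-- complement -/
def comp {n : ℕ} (x : V n) : V n := fun i => ! x i

/-- bit `j` (1-based) as a real number; bit `0` is `1/2` by convention, bits beyond `n` are `0` -/
noncomputable def bt {n : ℕ} (x : V n) (j : ℕ) : ℝ :=
  if j = 0 then 1 / 2 else if h : j - 1 < n then (if x ⟨j - 1, h⟩ = true then 1 else 0) else 0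

/-- the weight `w_i = (n-i)(n+i+1)` -/
noncomputable def w (n i : ℕ) : ℝ := ((n : ℝ) - i) * (n + i + 1)

/-- the weight of the up-move `i` : `w_0/2` for `i = 0`, `w_i` for `i ≥ 1` -/
noncomputable def Wt (n i : ℕ) : ℝ := if i = 0 then w n 0 / 2 else w n i

/-- up-move `i` is possible at `x`: the 0-based bit `i` is `0` and, if `i ≥ 1`, the bit `i-1` is `1` -/
def canUp {n : ℕ} (x : V n) (i : Fin n) : Prop :=
  x i = false ∧ ∀ j : Fin n, j.val + 1 = i.val → x j = true

instance {n : ℕ} (x : V n) : DecidablePred (canUp x) := fun i => by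
  unfold canUp; infer_instance

/-- the set of possible up-moves -/
def ups {n : ℕ} (x : V n) : Finset (Fin n) := univ.filter (fun i => canUp x i)

/-- the result of up-move `i` -/
def mvUp {n : ℕ} (x : V n) (i : Fin n) : V n :=
  fun j => if j = i then true else if j.val + 1 = i.val then false else x j

/-- `D(x) = Σ_{i<n} w_i b_i (1 - b_{i+1})` (the total weight of the up-moves) -/
noncomputable def D {n : ℕ} (x : V n) : ℝ :=
  ∑ i ∈ range n, w n i * bt x i * (1 - bt x (i + 1))

/-- `T(x) = Σ_{up-moves} W_i (D(x^i) - D(x))` -/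
noncomputable def T {n : ℕ} (x : V n) : ℝ :=
  ∑ i ∈ ups x, Wt n i * (D (mvUp x i) - D x)

/-- `α(x) = 1/D + T/(2D^3)` -/
noncomputable def al {n : ℕ} (x : V n) : ℝ := 1 / D x + T x / (2 * (D x) ^ 3)

/-- total out-flow of `x` -/
noncomputable def outf {n : ℕ} (x : V n) : ℝ :=
  ∑ i ∈ ups x, Wt n i / 2 * (al x + al (comp (mvUp x i)))

/-- the top rank `n(n+1)/2` -/
def NN (n : ℕ) : ℕ := n * (n + 1) / 2

/-- the level of rank `k` -/
def lev (n k : ℕ) : Finset (V n) := univ.filter (fun x => rk x = k)

/-- upper neighbours of a set -/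
noncomputable def Gam {n : ℕ} (A : Finset (V n)) : Finset (V n) :=
  by classical exact univ.filter (fun y => ∃ x ∈ A, Step x y)

/-- the mean of `D` over the cube -/
noncomputable def Dbar (n : ℕ) : ℝ := (n : ℝ) * (n + 1) * (2 * n + 1) / 12

/-- `x` is bad: `D(x)` or `D(comp x)` is farther than `t` from the mean -/
def Bad {n : ℕ} (t : ℝ) (x : V n) : Prop := t < |D x - Dbar n| ∨ t < |D (comp x) - Dbar n|

/-- the number of bad elements of rank `k` -/
noncomputable def badk (n : ℕ) (t : ℝ) (k : ℕ) : ℕ :=
  by classical exact ((lev n k).filter (fun x => Bad t x)).card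

/-- the number of bad elements -/
noncomputable def badAll (n : ℕ) (t : ℝ) : ℕ :=
  by classical exact ((univ : Finset (V n)).filter (fun x => Bad t x)).card

/-- a symmetric saturated chain of `M(n)`, as a list -/
def IsCh {n : ℕ} (l : List (V n)) : Prop :=
  l.IsChain Step ∧ ∃ a b : V n, l.head? = some a ∧ l.getLast? = some b ∧ rk a + rk b = NN n

/-- a family of pairwise disjoint symmetric saturated chains -/
def IsFam {n : ℕ} (S : Finset (List (V n))) : Prop :=
  (∀ l ∈ S, IsCh l) ∧ ∀ l ∈ S, ∀ l' ∈ S, ∀ v : V n, v ∈ l → v ∈ l' → l = l'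

/-- the elements missed by a family -/
noncomputable def missed {n : ℕ} (S : Finset (List (V n))) : Finset (V n) :=
  by classical exact univ.filter (fun v => ∀ l ∈ S, v ∉ l)

/-- stage `k`: a family of disjoint symmetric saturated chains inside the ranks `[k, N-k]`
missing at most `L` elements of every rank `j ∈ [k, N-k]`. -/
def Stage (n k : ℕ) (L : ℝ) : Prop :=
  ∃ S : Finset (List (V n)), IsFam S ∧ (∀ l ∈ S, ∀ v ∈ l, k ≤ rk v ∧ rk v + k ≤ NN n) ∧
    ∀ j : ℕ, k ≤ j → j + k ≤ NN n → (((missed S) ∩ lev n j).card : ℝ) ≤ L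

end Pool.Alm48
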