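import Pool.Agent.Alm48.A1
import Pool.Agent.Alm48.Defs

/-! # Alm48 task A2: `D x - D (comp x) = N - 2 rk x` -/

set_option autoImplicit false
namespace Pool.Alm48
open scoped BigOperators
open Finset

theorem a2_parts (n : ℕ) (b : ℕ → ℝ) (m : ℕ) :
    ∑ i ∈ range m, w n i * (b i - b (i + 1)) =
      w n 0 * b 0 - ∑ i ∈ range m, 2 * ((i : ℝ) + 1) * b (i + 1) - w n m * b m := by
  induction m with
  | zero => simp
  | succ m ih =>
    rw [Finset.sum_range_succ, Finset.sum_range_succ, ih]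
    have hw : w n m = w n (m + 1) + 2 * ((m : ℝ) + 1) := by
      unfold w; push_cast; ring
    rw [hw]; ring

theorem a2_NN (n : ℕ) : (NN n : ℝ) = (n : ℝ) * (n + 1) / 2 := by
  obtain ⟨k, hk⟩ := Nat.even_mul_succ_self n
  have h1 : NN n = k := by
    unfold NN
    have : n * (n + 1) = k + k := hk
    omega
  have h2 : (n : ℝ) * (n + 1) = k + k := by exact_mod_cast hk
  rw [h1, h2]; ring

theorem a2_rk {n : ℕ} (x : V n) :
    (rk x : ℝ) = ∑ i ∈ range n, ((i : ℝ) + 1) * bt x (i + 1) := by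
  rw [Finset.sum_range (fun i => ((i : ℝ) + 1) * bt x (i + 1))]
  unfold rk
  push_cast
  apply Finset.sum_congr rfl
  intro i _
  rw [bt_succ x i]
  by_cases hx : x i = true
  · rw [if_pos hx, if_pos hx]; ring
  · rw [if_neg hx, if_neg hx]; simp

theorem D_sub_comp {n : ℕ} (x : V n) : D x - D (comp x) = (NN n : ℝ) - 2 * (rk x : ℝ) := by
  have h1 : D x - D (comp x) = ∑ i ∈ range n, w n i * (bt x i - bt x (i + 1)) := by
    unfold D
    rw [← Finset.sum_sub_distrib]
    apply Finset.sum_congr rfl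
    intro i hi
    have hi1 : i < n := Finset.mem_range.1 hi
    rw [bt_comp x (le_of_lt hi1), bt_comp x hi1]
    ring
  have hwn : w n n = 0 := by unfold w; ring
  rw [h1, a2_parts, hwn, bt_zero, a2_NN, a2_rk, Finset.mul_sum]
  have h2 : ∑ i ∈ range n, 2 * ((i : ℝ) + 1) * bt x (i + 1) =
      ∑ i ∈ range n, 2 * (((i : ℝ) + 1) * bt x (i + 1)) := by
    apply Finset.sum_congr rfl
    intro i _
    ring
  rw [h2]
  have h3 : w n 0 = (n : ℝ) * (n + 1) := by unfold w; push_cast; ring
  rw [h3]; ring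

end Pool.Alm48
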