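import Pool.Agent.Alm48.A1
import Pool.Agent.Alm48.Defs
set_option autoImplicit false
namespace Pool.Alm48
open scoped BigOperators
open Finset


theorem a3b_mvUp_ne {n : ℕ} {x : V n} {i i' : Fin n} (h : canUp x i) (hne : i ≠ i') :
    mvUp x i' i = false := by
  unfold mvUp
  rw [if_neg hne]
  split_ifs
  · rfl
  · exact h.1

theorem mvUp_inj {n : ℕ} {x : V n} {i i' : Fin n} (h : i ∈ ups x) (h' : i' ∈ ups x)
    (he : mvUp x i = mvUp x i') : i = i' := by
  by_contra hne
  have h1 : mvUp x i i = true := by unfold mvUp; rw [if_pos rfl]
  have h2 := a3b_mvUp_ne ((mem_ups x i).1 h) hne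
  rw [← he, h1] at h2
  exact Bool.noConfusion h2

theorem step_iff {n : ℕ} (x y : V n) : Step x y ↔ ∃ i ∈ ups x, y = mvUp x i := by
  constructor
  · rintro (⟨i, hi, hx, rfl⟩ | ⟨i, i', hi, hx, hx', rfl⟩)
    · refine ⟨i, (mem_ups x i).2 ⟨hx, fun j hj => ?_⟩, ?_⟩
      · rw [hi] at hj; exact absurd hj (Nat.succ_ne_zero _)
      · funext j
        unfold mvUp
        by_cases h1 : j = i
        · subst h1; rw [if_pos rfl, Function.update_self]
        · have h2 : ¬ (j.val + 1 = i.val) := by omega
          rw [if_neg h1, if_neg h2, Function.update_of_ne h1]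
    · refine ⟨i', (mem_ups x i').2 ⟨hx', fun j hj => ?_⟩, ?_⟩
      · have : j = i := Fin.ext (by omega)
        rw [this]; exact hx
      · funext j
        unfold mvUp
        by_cases h1 : j = i'
        · subst h1; rw [if_pos rfl, Function.update_self]
        · rw [if_neg h1, Function.update_of_ne h1]
          by_cases h2 : j.val + 1 = i'.val
          · have h3 : j = i := Fin.ext (by omega)
            rw [if_pos h2, h3, Function.update_self]
          · have h3 : j ≠ i := by intro h; subst h; exact h2 hi.symm
            rw [if_neg h2, Function.update_of_ne h3]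
  · rintro ⟨i, hi, rfl⟩
    obtain ⟨hx, hj⟩ := (mem_ups x i).1 hi
    rcases Nat.eq_zero_or_pos i.val with h0 | hpos
    · left
      refine ⟨i, h0, hx, ?_⟩
      funext j
      unfold mvUp
      by_cases h1 : j = i
      · subst h1; rw [if_pos rfl, Function.update_self]
      · have h2 : ¬ (j.val + 1 = i.val) := by omega
        rw [if_neg h1, if_neg h2, Function.update_of_ne h1]
    · right
      have hlt : i.val - 1 < n := by have := i.isLt; omega
      refine ⟨⟨i.val - 1, hlt⟩, i, ?_, hj _ ?_, hx, ?_⟩
      · show i.val = i.val - 1 + 1
        omega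
      · show i.val - 1 + 1 = i.val
        omega
      · funext j
        unfold mvUp
        by_cases h1 : j = i
        · subst h1; rw [if_pos rfl, Function.update_self]
        · rw [if_neg h1, Function.update_of_ne h1]
          by_cases h2 : j.val + 1 = i.val
          · have h3 : j = ⟨i.val - 1, hlt⟩ := by
              apply Fin.ext; show j.val = i.val - 1; omega
            rw [if_pos h2, h3, Function.update_self]
          · have h3 : j ≠ ⟨i.val - 1, hlt⟩ := by
              intro h
              apply h2
              have : j.val = i.val - 1 := congrArg Fin.val h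
              omega
            rw [if_neg h2, Function.update_of_ne h3]

end Pool.Alm48
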