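import Pool.Agent.Alm48.A1
import Pool.Agent.Alm48.A3b
import Pool.Agent.Alm48.Defs
set_option autoImplicit false
namespace Pool.Alm48
open scoped BigOperators
open Finset



theorem a3a_sum_pred {n : ℕ} (i : Fin n) :
    ∑ j : Fin n, (if j.val + 1 = i.val then i.val else 0) = i.val := by
  rcases i with ⟨i, hi⟩
  cases i with
  | zero => simp
  | succ m =>
    have hm : m < n := Nat.lt_of_succ_lt hi
    rw [Finset.sum_eq_single (⟨m, hm⟩ : Fin n)]
    · simp
    · intro j _ hj
      rw [if_neg]
      intro h
      apply hj
      apply Fin.ext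
      show j.val = m
      have h' : j.val + 1 = m + 1 := h
      omega
    · intro h
      exact absurd (Finset.mem_univ _) h

theorem a3a_point {n : ℕ} {x : V n} {i : Fin n} (h : canUp x i) (j : Fin n) :
    (if mvUp x i j = true then (j.val + 1) else 0) + (if j.val + 1 = i.val then i.val else 0)
      = (if x j = true then (j.val + 1) else 0) + (if j = i then i.val + 1 else 0) := by
  unfold mvUp
  by_cases h1 : j = i
  · subst h1
    have h2 : x j = false := h.1
    have h3 : ¬ (j.val + 1 = j.val) := by omega
    rw [if_pos rfl, if_pos rfl, if_neg h3, if_pos rfl, h2]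
    simp
  · by_cases h2 : j.val + 1 = i.val
    · have h3 : x j = true := h.2 j h2
      rw [if_neg h1, if_pos h2, if_pos h2, if_neg h1, h3]
      simp [h2]
    · rw [if_neg h1, if_neg h2, if_neg h2, if_neg h1]

theorem rk_mvUp {n : ℕ} {x : V n} {i : Fin n} (h : i ∈ ups x) : rk (mvUp x i) = rk x + 1 := by
  have hc : canUp x i := (mem_ups x i).1 h
  have h1 : ∑ j : Fin n, ((if mvUp x i j = true then (j.val + 1) else 0)
        + (if j.val + 1 = i.val then i.val else 0))
      = ∑ j : Fin n, ((if x j = true then (j.val + 1) else 0)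
        + (if j = i then i.val + 1 else 0)) :=
    Finset.sum_congr rfl (fun j _ => a3a_point hc j)
  rw [Finset.sum_add_distrib, Finset.sum_add_distrib, a3a_sum_pred,
    Finset.sum_ite_eq' Finset.univ i, if_pos (Finset.mem_univ i)] at h1
  unfold rk
  omega

theorem rk_step {n : ℕ} {x y : V n} (h : Step x y) : rk y = rk x + 1 := by
  obtain ⟨i, hi, rfl⟩ := (step_iff x y).1 h
  exact rk_mvUp hi

end Pool.Alm48
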