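import Pool.Agent.Alm48.Defs

/-! ALM48, task A4a: the complement -/

set_option autoImplicit false

namespace Pool.Alm48

open scoped BigOperators
open Finset

theorem comp_comp {n : ℕ} (x : V n) : comp (comp x) = x := by
  funext i
  simp [comp]

theorem a4a_sum (n : ℕ) : (∑ i ∈ range n, (i + 1)) * 2 = n * (n + 1) := by
  induction n with
  | zero => simp
  | succ k ih => rw [sum_range_succ, add_mul, ih]; ring

theorem rk_comp {n : ℕ} (x : V n) : rk x + rk (comp x) = NN n := by
  unfold rk
  rw [← sum_add_distrib]
  have h1 : ∀ i ∈ (univ : Finset (Fin n)), ((if x i = true then (i.val + 1) else 0) +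
      (if comp x i = true then (i.val + 1) else 0)) = (fun j : ℕ => j + 1) i.val := by
    intro i _
    unfold comp
    cases h : x i <;> simp
  rw [sum_congr rfl h1, Fin.sum_univ_eq_sum_range (fun j : ℕ => j + 1) n]
  have h2 := a4a_sum n
  unfold NN
  omega

theorem rk_le {n : ℕ} (x : V n) : rk x ≤ NN n := by
  have := rk_comp x
  omega

theorem a4a_step {n : ℕ} {x y : V n} (h : Step x y) : Step (comp y) (comp x) := by
  rcases h with ⟨i, hi, hx, rfl⟩ | ⟨i, i', hi, hx, hx', rfl⟩
  · left
    refine ⟨i, hi, ?_, ?_⟩
    · simp [comp]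
    · funext j
      by_cases hj : j = i
      · subst hj; simp [comp, hx]
      · simp [comp, Function.update_of_ne hj]
  · right
    have hne : i ≠ i' := by
      intro h; rw [h] at hi; omega
    refine ⟨i, i', hi, ?_, ?_, ?_⟩
    · simp [comp, Function.update_of_ne hne]
    · simp [comp]
    · funext j
      by_cases hj' : j = i'
      · subst hj'; simp [comp, hx']
      · by_cases hj : j = i
        · subst hj; simp [comp, hx, Function.update_of_ne hj']
        · simp [comp, Function.update_of_ne hj, Function.update_of_ne hj']

theorem step_comp {n : ℕ} (x y : V n) : Step (comp y) (comp x) ↔ Step x y := by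
  constructor
  · intro h
    have h1 := a4a_step h
    rwa [comp_comp, comp_comp] at h1
  · exact a4a_step

theorem comp_edge {n : ℕ} {x : V n} {i : Fin n} (h : i ∈ ups x) :
    i ∈ ups (comp (mvUp x i)) ∧ mvUp (comp (mvUp x i)) i = comp x := by
  have hc : canUp x i := by
    unfold ups at h
    exact (mem_filter.1 h).2
  obtain ⟨h1, h2⟩ := hc
  constructor
  · unfold ups
    rw [mem_filter]
    refine ⟨mem_univ _, ?_, ?_⟩
    · simp [comp, mvUp]
    · intro j hj
      have hne : j ≠ i := by
        intro h; rw [h] at hj; omega
      simp [comp, mvUp, hne, hj]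
  · funext j
    by_cases hj : j = i
    · subst hj; simp [comp, mvUp, h1]
    · by_cases hj' : j.val + 1 = i.val
      · simp [comp, mvUp, hj, hj', h2 j hj']
      · simp [comp, mvUp, hj, hj']

end Pool.Alm48
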