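import Pool.Agent.Alm48.A4a
import Pool.Agent.Alm48.Defs

/-! ALM48, task A4b: symmetry of the level sizes and of the numbers of bad elements -/

set_option autoImplicit false

namespace Pool.Alm48

open scoped BigOperators
open Finset

theorem a4b_inj {n : ℕ} : Function.Injective (comp : V n → V n) := by
  intro x y h
  rw [← comp_comp x, h, comp_comp]

theorem a4b_mem {n k : ℕ} (hk : k ≤ NN n) (x : V n) : comp x ∈ lev n (NN n - k) ↔ x ∈ lev n k := by
  have h := rk_comp x
  unfold lev
  simp only [mem_filter, mem_univ, true_and]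
  omega

theorem a4b_bad {n : ℕ} (t : ℝ) (x : V n) : Bad t (comp x) ↔ Bad t x := by
  unfold Bad
  rw [comp_comp]
  exact or_comm

theorem card_lev_symm (n k : ℕ) (hk : k ≤ NN n) : (lev n (NN n - k)).card = (lev n k).card := by
  symm
  refine Finset.card_bij (fun x _ => comp x) ?_ ?_ ?_
  · intro x hx
    exact (a4b_mem hk x).2 hx
  · intro x _ y _ h
    exact a4b_inj h
  · intro y hy
    refine ⟨comp y, ?_, comp_comp y⟩
    rw [← a4b_mem hk, comp_comp]
    exact hy

theorem badk_symm (n : ℕ) (t : ℝ) (k : ℕ) (hk : k ≤ NN n) : badk n t (NN n - k) = badk n t k := by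
  classical
  unfold badk
  symm
  refine Finset.card_bij (fun x _ => comp x) ?_ ?_ ?_
  · intro x hx
    rw [mem_filter] at hx ⊢
    exact ⟨(a4b_mem hk x).2 hx.1, (a4b_bad t x).2 hx.2⟩
  · intro x _ y _ h
    exact a4b_inj h
  · intro y hy
    rw [mem_filter] at hy
    refine ⟨comp y, ?_, comp_comp y⟩
    rw [mem_filter]
    constructor
    · rw [← a4b_mem hk, comp_comp]
      exact hy.1
    · exact (a4b_bad t y).2 hy.2

end Pool.Alm48
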