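import Pool.Agent.Alm48.A1
import Pool.Agent.Alm48.Defs
set_option autoImplicit false
namespace Pool.Alm48
open scoped BigOperators
open Finset



/-- the formula for the change of `D` along up-move `i` (all in terms of bits) -/
noncomputable def Dl {n : ℕ} (x : V n) (i : ℕ) : ℝ :=
  if i = 0 then - w n 0 / 2 + w n 1 * (1 - bt x 2)
  else w n (i - 1) * bt x (i - 1) - w n i + w n (i + 1) * (1 - bt x (i + 2))

theorem bt_mvUp {n : ℕ} {x : V n} {i : Fin n} (h : i ∈ ups x) (j : ℕ) :
    bt (mvUp x i) j = if j = i.val + 1 then 1 else if j = i.val ∧ 1 ≤ i.val then 0 else bt x j := by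
  have _hc : canUp x i := (mem_ups x i).1 h
  rcases Nat.eq_zero_or_pos j with rfl | hj
  · rw [if_neg (by omega), if_neg (by omega), bt_zero, bt_zero]
  · by_cases hjn : j - 1 < n
    · obtain ⟨m, rfl⟩ : ∃ m, j = m + 1 := ⟨j - 1, by omega⟩
      have hm : m < n := by simpa using hjn
      have e1 : bt (mvUp x i) (m + 1) = if mvUp x i ⟨m, hm⟩ = true then 1 else 0 :=
        bt_succ (mvUp x i) ⟨m, hm⟩
      have e2 : bt x (m + 1) = if x ⟨m, hm⟩ = true then 1 else 0 := bt_succ x ⟨m, hm⟩
      rw [e1, e2]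
      unfold mvUp
      by_cases h1 : m = i.val
      · have h2 : (⟨m, hm⟩ : Fin n) = i := Fin.ext h1
        rw [if_pos h2, if_pos rfl, if_pos (by omega)]
      · have h2 : ¬ (⟨m, hm⟩ : Fin n) = i := fun hh => h1 (congrArg Fin.val hh)
        rw [if_neg h2, if_neg (by omega : ¬ (m + 1 = i.val + 1))]
        by_cases h3 : m + 1 = i.val
        · have h4 : (⟨m, hm⟩ : Fin n).val + 1 = i.val := h3
          rw [if_pos h4, if_neg (by simp), if_pos ⟨h3, by omega⟩]
        · have h4 : ¬ (⟨m, hm⟩ : Fin n).val + 1 = i.val := h3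
          rw [if_neg h4, if_neg (by omega : ¬ (m + 1 = i.val ∧ 1 ≤ i.val))]
    · have hi := i.isLt
      rw [if_neg (by omega), if_neg (by omega), bt_big _ (by omega), bt_big _ (by omega)]

/-- the bit `i + 1` before an up-move -/
theorem a5a_bt_next {n : ℕ} {x : V n} {i : Fin n} (h : i ∈ ups x) : bt x (i.val + 1) = 0 := by
  have hc : canUp x i := (mem_ups x i).1 h
  rw [bt_succ, hc.1]
  simp

/-- the bit `i` before an up-move -/
theorem a5a_bt_self {n : ℕ} {x : V n} {i : Fin n} (h : i ∈ ups x) (hi : 1 ≤ i.val) :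
    bt x i.val = 1 := by
  have hc : canUp x i := (mem_ups x i).1 h
  have hin := i.isLt
  obtain ⟨m, hm⟩ : ∃ m, i.val = m + 1 := ⟨i.val - 1, by omega⟩
  have hmn : m < n := by omega
  have h1 : x ⟨m, hmn⟩ = true := hc.2 ⟨m, hmn⟩ hm.symm
  have h2 : bt x (m + 1) = if x ⟨m, hmn⟩ = true then 1 else 0 := bt_succ x ⟨m, hmn⟩
  rw [hm, h2, if_pos h1]

theorem a5a_term {n : ℕ} {x : V n} {i : Fin n} (h : i ∈ ups x) (j : ℕ) :
    w n j * bt (mvUp x i) j * (1 - bt (mvUp x i) (j + 1)) - w n j * bt x j * (1 - bt x (j + 1))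
      = (if j + 1 = i.val then w n j * bt x j else 0)
        + (if j = i.val then (if i.val = 0 then - w n 0 / 2 else - w n i.val) else 0)
        + (if j = i.val + 1 then w n (i.val + 1) * (1 - bt x (i.val + 2)) else 0) := by
  have hnext := a5a_bt_next h
  by_cases h1 : j + 1 = i.val
  · have hself := a5a_bt_self h (by omega)
    rw [bt_mvUp h j, bt_mvUp h (j + 1)]
    rw [if_neg (by omega : ¬ j = i.val + 1), if_neg (by omega : ¬ (j = i.val ∧ 1 ≤ i.val)),
      if_neg (by omega : ¬ j + 1 = i.val + 1), if_pos (by omega : j + 1 = i.val ∧ 1 ≤ i.val),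
      if_pos h1, if_neg (by omega : ¬ j = i.val), if_neg (by omega : ¬ j = i.val + 1), h1, hself]
    ring
  · by_cases h2 : j = i.val
    · rw [bt_mvUp h j, bt_mvUp h (j + 1)]
      rw [if_neg h1, if_pos h2, if_pos (by omega : j + 1 = i.val + 1),
        if_neg (by omega : ¬ j = i.val + 1)]
      by_cases h3 : i.val = 0
      · have h4 : j = 0 := by omega
        subst h4
        rw [if_pos h3, if_neg (by omega : ¬ ((0 : ℕ) = i.val ∧ 1 ≤ i.val)), bt_zero,
          show (0 : ℕ) + 1 = i.val + 1 by omega, hnext]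
        simp
        ring
      · have hself := a5a_bt_self h (by omega)
        rw [if_neg h3, if_pos (by omega : j = i.val ∧ 1 ≤ i.val), h2, hself, hnext]
        simp
    · by_cases h3 : j = i.val + 1
      · rw [bt_mvUp h j, bt_mvUp h (j + 1)]
        rw [if_neg h1, if_neg h2, if_pos h3, if_neg (by omega : ¬ j + 1 = i.val + 1),
          if_neg (by omega : ¬ (j + 1 = i.val ∧ 1 ≤ i.val)), if_pos h3, h3, hnext]
        ring
      · rw [bt_mvUp h j, bt_mvUp h (j + 1)]
        rw [if_neg h1, if_neg h2, if_neg h3, if_neg (by omega : ¬ (j = i.val ∧ 1 ≤ i.val)),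
          if_neg (by omega : ¬ j + 1 = i.val + 1),
          if_neg (by omega : ¬ (j + 1 = i.val ∧ 1 ≤ i.val)), if_neg h3]
        ring

theorem D_mvUp {n : ℕ} {x : V n} {i : Fin n} (h : i ∈ ups x) : D (mvUp x i) - D x = Dl x i := by
  have hin := i.isLt
  unfold D
  rw [← Finset.sum_sub_distrib, Finset.sum_congr rfl (fun j _ => a5a_term h j),
    Finset.sum_add_distrib, Finset.sum_add_distrib]
  have s2 : ∑ j ∈ range n, (if j = i.val then (if i.val = 0 then - w n 0 / 2 else - w n i.val) else 0)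
      = (if i.val = 0 then - w n 0 / 2 else - w n i.val) := by
    rw [Finset.sum_ite_eq', if_pos (Finset.mem_range.2 hin)]
  have s3 : ∑ j ∈ range n, (if j = i.val + 1 then w n (i.val + 1) * (1 - bt x (i.val + 2)) else 0)
      = w n (i.val + 1) * (1 - bt x (i.val + 2)) := by
    rw [Finset.sum_ite_eq']
    by_cases hn : i.val + 1 < n
    · rw [if_pos (Finset.mem_range.2 hn)]
    · have hn' : i.val + 1 = n := by omega
      rw [if_neg (fun hh => hn (Finset.mem_range.1 hh)), hn']
      unfold w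
      ring
  rw [s2, s3]
  unfold Dl
  by_cases h0 : i.val = 0
  · have s1 : ∑ j ∈ range n, (if j + 1 = i.val then w n j * bt x j else 0) = 0 := by
      apply Finset.sum_eq_zero
      intro j _
      rw [if_neg (by omega)]
    rw [s1, if_pos h0, if_pos h0, h0]
    ring
  · have s1 : ∑ j ∈ range n, (if j + 1 = i.val then w n j * bt x j else 0)
        = w n (i.val - 1) * bt x (i.val - 1) := by
      rw [Finset.sum_eq_single (i.val - 1)]
      · rw [if_pos (by omega)]
      · intro j _ hj
        rw [if_neg (by omega)]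
      · intro hh
        exact absurd (Finset.mem_range.2 (by omega)) hh
    rw [s1, if_neg h0, if_neg h0]
    ring

end Pool.Alm48
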