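import Pool.Agent.Alm48.A1
import Pool.Agent.Alm48.A5a
import Pool.Agent.Alm48.Defs
set_option autoImplicit false
namespace Pool.Alm48
open scoped BigOperators
open Finset



theorem a5b_mul_bounds {W b M : ℝ} (hW : 0 ≤ W) (hM : W ≤ M) (hb : 0 ≤ b) (hb1 : b ≤ 1) :
    0 ≤ W * b ∧ W * b ≤ M := by
  constructor
  · exact mul_nonneg hW hb
  · calc W * b ≤ W * 1 := mul_le_mul_of_nonneg_left hb1 hW
      _ = W := mul_one W
      _ ≤ M := hM

theorem abs_Dl_le {n : ℕ} (x : V n) {i : ℕ} (hi : i < n) : |Dl x i| ≤ 4 * (n : ℝ) ^ 2 := by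
  have hn : 1 ≤ n := by omega
  unfold Dl
  split_ifs with h0
  · have h1 : (0 : ℝ) ≤ w n 0 := w_nonneg (Nat.zero_le n)
    have h2 : w n 0 ≤ 2 * (n : ℝ) ^ 2 := w_le (Nat.zero_le n) hn
    obtain ⟨h3, h4⟩ := a5b_mul_bounds (w_nonneg hn) (w_le hn hn)
      (sub_nonneg.2 (bt_le_one x 2)) (sub_le_self 1 (bt_nonneg x 2))
    have h5 : (0 : ℝ) ≤ (n : ℝ) ^ 2 := by positivity
    rw [abs_le]
    constructor
    · linarith
    · linarith
  · have hi1 : i - 1 ≤ n := by omega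
    have hi2 : i ≤ n := by omega
    have hi3 : i + 1 ≤ n := by omega
    have h1 : (0 : ℝ) ≤ w n i := w_nonneg hi2
    have h2 : w n i ≤ 2 * (n : ℝ) ^ 2 := w_le hi2 hn
    obtain ⟨h3, h4⟩ := a5b_mul_bounds (w_nonneg hi3) (w_le hi3 hn)
      (sub_nonneg.2 (bt_le_one x (i + 2))) (sub_le_self 1 (bt_nonneg x (i + 2)))
    obtain ⟨h6, h7⟩ := a5b_mul_bounds (w_nonneg hi1) (w_le hi1 hn)
      (bt_nonneg x (i - 1)) (bt_le_one x (i - 1))
    have h5 : (0 : ℝ) ≤ (n : ℝ) ^ 2 := by positivity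
    rw [abs_le]
    constructor
    · linarith
    · linarith

theorem T_eq {n : ℕ} (x : V n) :
    T x = ∑ i ∈ range n, w n i * bt x i * (1 - bt x (i + 1)) * Dl x i := by
  rw [← sum_ups x (Dl x)]
  unfold T
  refine Finset.sum_congr rfl (fun i hi => ?_)
  rw [D_mvUp hi]

theorem abs_T_le {n : ℕ} (x : V n) : |T x| ≤ 8 * (n : ℝ) ^ 5 := by
  rw [T_eq]
  calc |∑ i ∈ range n, w n i * bt x i * (1 - bt x (i + 1)) * Dl x i|
      ≤ ∑ i ∈ range n, |w n i * bt x i * (1 - bt x (i + 1)) * Dl x i| :=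
        Finset.abs_sum_le_sum_abs _ _
    _ ≤ ∑ i ∈ range n, w n i * bt x i * (1 - bt x (i + 1)) * (4 * (n : ℝ) ^ 2) := by
        refine Finset.sum_le_sum (fun i hi => ?_)
        have hi' : i < n := Finset.mem_range.1 hi
        have h0 : 0 ≤ w n i * bt x i * (1 - bt x (i + 1)) :=
          mul_nonneg (mul_nonneg (w_nonneg hi'.le) (bt_nonneg x i))
            (sub_nonneg.2 (bt_le_one x (i + 1)))
        rw [abs_mul, abs_of_nonneg h0]
        exact mul_le_mul_of_nonneg_left (abs_Dl_le x hi') h0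
    _ = D x * (4 * (n : ℝ) ^ 2) := by
        rw [← Finset.sum_mul]
        rfl
    _ ≤ (2 * (n : ℝ) ^ 3) * (4 * (n : ℝ) ^ 2) :=
        mul_le_mul_of_nonneg_right (D_le x) (by positivity)
    _ = 8 * (n : ℝ) ^ 5 := by ring

end Pool.Alm48
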