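import Pool.Agent.Alm48.A1
import Pool.Agent.Alm48.A5a
import Pool.Agent.Alm48.A5b
import Pool.Agent.Alm48.Defs

/-! ALM48, task A6: the change of `T` along an up-move -/

set_option autoImplicit false

namespace Pool.Alm48

open scoped BigOperators
open Finset



/-- the `j`-th local term of `T` -/
noncomputable def a6_tm {n : ℕ} (x : V n) (j : ℕ) : ℝ :=
  w n j * bt x j * (1 - bt x (j + 1)) * Dl x j

theorem a6_abs_tm {n : ℕ} (x : V n) {j : ℕ} (hj : j < n) : |a6_tm x j| ≤ 8 * (n : ℝ) ^ 4 := by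
  have hn : 1 ≤ n := by omega
  have h1 := w_nonneg (n := n) (i := j) hj.le
  have h2 := w_le (n := n) (i := j) hj.le hn
  have h3 := bt_nonneg x j
  have h4 := bt_le_one x j
  have h5 := bt_nonneg x (j + 1)
  have h6 := bt_le_one x (j + 1)
  have h7 := abs_Dl_le x hj
  unfold a6_tm
  rw [abs_mul, abs_mul, abs_mul, abs_of_nonneg h1, abs_of_nonneg h3,
    abs_of_nonneg (by linarith : (0 : ℝ) ≤ 1 - bt x (j + 1))]
  have h8 : w n j * bt x j * (1 - bt x (j + 1)) ≤ 2 * (n : ℝ) ^ 2 := by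
    have h9 : w n j * bt x j ≤ w n j := mul_le_of_le_one_right h1 h4
    have h10 : w n j * bt x j * (1 - bt x (j + 1)) ≤ w n j * bt x j :=
      mul_le_of_le_one_right (mul_nonneg h1 h3) (by linarith)
    linarith
  have h11 : 0 ≤ w n j * bt x j * (1 - bt x (j + 1)) :=
    mul_nonneg (mul_nonneg h1 h3) (by linarith)
  calc w n j * bt x j * (1 - bt x (j + 1)) * |Dl x j|
      ≤ (2 * (n : ℝ) ^ 2) * (4 * (n : ℝ) ^ 2) :=
        mul_le_mul h8 h7 (abs_nonneg _) (by positivity)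
    _ = 8 * (n : ℝ) ^ 4 := by ring

theorem a6_bt_eq {n : ℕ} {x : V n} {i : Fin n} (h : i ∈ ups x) {j : ℕ} (h1 : j ≠ i.val)
    (h2 : j ≠ i.val + 1) : bt (mvUp x i) j = bt x j := by
  rw [bt_mvUp h, if_neg h2, if_neg (fun hh => h1 hh.1)]

theorem a6_tm_eq {n : ℕ} {x : V n} {i : Fin n} (h : i ∈ ups x) {j : ℕ}
    (hj : j + 2 < i.val ∨ i.val + 2 < j) : a6_tm (mvUp x i) j = a6_tm x j := by
  have e0 : bt (mvUp x i) j = bt x j := a6_bt_eq h (by omega) (by omega)
  have e1 : bt (mvUp x i) (j + 1) = bt x (j + 1) := a6_bt_eq h (by omega) (by omega)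
  have e2 : bt (mvUp x i) (j + 2) = bt x (j + 2) := a6_bt_eq h (by omega) (by omega)
  have e3 : Dl (mvUp x i) j = Dl x j := by
    unfold Dl
    by_cases hj0 : j = 0
    · subst hj0
      rw [if_pos rfl, if_pos rfl]
      rw [show (2 : ℕ) = 0 + 2 from rfl, e2]
    · rw [if_neg hj0, if_neg hj0, e2, a6_bt_eq h (by omega) (by omega)]
  unfold a6_tm
  rw [e0, e1, e3]

theorem T_mvUp {n : ℕ} {x : V n} {i : Fin n} (h : i ∈ ups x) :
    |T (mvUp x i) - T x| ≤ 80 * (n : ℝ) ^ 4 := by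
  have hT : T (mvUp x i) - T x = ∑ j ∈ range n, (a6_tm (mvUp x i) j - a6_tm x j) := by
    rw [T_eq, T_eq, ← sum_sub_distrib]
    rfl
  rw [hT]
  refine le_trans (abs_sum_le_sum_abs _ _) ?_
  have hsub : ∑ j ∈ range n, |a6_tm (mvUp x i) j - a6_tm x j| =
      ∑ j ∈ (range n).filter (fun j => i.val ≤ j + 2 ∧ j ≤ i.val + 2),
        |a6_tm (mvUp x i) j - a6_tm x j| := by
    symm
    apply sum_subset (filter_subset _ _)
    intro j hj hj'
    rw [mem_filter, not_and] at hj'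
    have h1 := hj' hj
    rw [a6_tm_eq h (by omega), sub_self, abs_zero]
  rw [hsub]
  have hcard : ((range n).filter (fun j => i.val ≤ j + 2 ∧ j ≤ i.val + 2)).card ≤ 5 := by
    calc ((range n).filter (fun j => i.val ≤ j + 2 ∧ j ≤ i.val + 2)).card
        ≤ (Icc (i.val - 2) (i.val + 2)).card := by
          apply card_le_card
          intro j hj
          rw [mem_filter] at hj
          rw [mem_Icc]
          omega
      _ ≤ 5 := by rw [Nat.card_Icc]; omega
  have hterm : ∀ j ∈ (range n).filter (fun j => i.val ≤ j + 2 ∧ j ≤ i.val + 2),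
      |a6_tm (mvUp x i) j - a6_tm x j| ≤ 16 * (n : ℝ) ^ 4 := by
    intro j hj
    have hjn : j < n := mem_range.1 (mem_filter.1 hj).1
    have h1 := a6_abs_tm (mvUp x i) hjn
    have h2 := a6_abs_tm x hjn
    have h3 := abs_sub (a6_tm (mvUp x i) j) (a6_tm x j)
    linarith
  refine le_trans (sum_le_card_nsmul _ _ _ hterm) ?_
  rw [nsmul_eq_mul]
  have h4 : (((range n).filter (fun j => i.val ≤ j + 2 ∧ j ≤ i.val + 2)).card : ℝ) ≤ 5 := by
    exact_mod_cast hcard
  have h5 : (0 : ℝ) ≤ 16 * (n : ℝ) ^ 4 := by positivity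
  calc (((range n).filter (fun j => i.val ≤ j + 2 ∧ j ≤ i.val + 2)).card : ℝ) * (16 * (n : ℝ) ^ 4)
      ≤ 5 * (16 * (n : ℝ) ^ 4) := mul_le_mul_of_nonneg_right h4 h5
    _ = 80 * (n : ℝ) ^ 4 := by ring

end Pool.Alm48
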