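import Pool.Agent.Alm48.A1
import Pool.Agent.Alm48.A5a
import Pool.Agent.Alm48.A5b
import Pool.Agent.Alm48.Defs

/-! A8 : `T` is almost invariant under complementation. -/

set_option autoImplicit false
namespace Pool.Alm48
open scoped BigOperators
open Finset



/-- the local term of `T` for a general bit sequence -/
noncomputable def a8_g (n : ℕ) (b : ℕ → ℝ) (i : ℕ) : ℝ :=
  w n i * b i * (1 - b (i + 1)) *
    (if i = 0 then - w n 0 / 2 + w n 1 * (1 - b 2)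
      else w n (i - 1) * b (i - 1) - w n i + w n (i + 1) * (1 - b (i + 2)))

theorem a8_T_eq {n : ℕ} (x : V n) : T x = ∑ i ∈ range n, a8_g n (bt x) i := by
  rw [T_eq]
  apply Finset.sum_congr rfl
  intro i _
  unfold a8_g Dl
  rfl

theorem a8_w_self (n : ℕ) : w n n = 0 := by
  unfold w; ring

theorem a8_T_comp_eq {n : ℕ} (x : V n) : T (comp x) = ∑ i ∈ range n, a8_g n (fun j => 1 - bt x j) i := by
  rw [a8_T_eq]
  apply Finset.sum_congr rfl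
  intro i hi
  have hin : i < n := Finset.mem_range.mp hi
  unfold a8_g
  have h1 : bt (comp x) i = 1 - bt x i := bt_comp x (by omega)
  have h2 : bt (comp x) (i + 1) = 1 - bt x (i + 1) := bt_comp x (by omega)
  rw [h1, h2]
  by_cases h0 : i = 0
  · subst h0
    simp only [if_true]
    by_cases hn : n = 1
    · subst hn
      rw [a8_w_self]
      ring
    · have h3 : bt (comp x) 2 = 1 - bt x 2 := bt_comp x (by omega)
      rw [h3]
  · simp only [if_neg h0]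
    have h3 : bt (comp x) (i - 1) = 1 - bt x (i - 1) := bt_comp x (by omega)
    rw [h3]
    by_cases h4 : i + 1 = n
    · have : w n (i + 1) = 0 := by rw [h4, a8_w_self]
      rw [this]
      ring
    · have h5 : bt (comp x) (i + 2) = 1 - bt x (i + 2) := bt_comp x (by omega)
      rw [h5]

/-- the main part of the local term, `i ≥ 1` -/
noncomputable def a8_m (n : ℕ) (b : ℕ → ℝ) (i : ℕ) : ℝ :=
  w n i ^ 2 * (b i * (1 - b (i + 1)) * (b (i - 1) - b (i + 2)))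

theorem a8_w_nonneg {n i : ℕ} (h : i ≤ n) : 0 ≤ w n i := by
  unfold w
  have : (i : ℝ) ≤ n := by exact_mod_cast h
  apply mul_nonneg <;> [linarith; positivity]

theorem a8_w_le {n i : ℕ} (h : i ≤ n) (hn : 1 ≤ n) : w n i ≤ 2 * (n : ℝ) ^ 2 := by
  unfold w
  have h1 : (i : ℝ) ≤ n := by exact_mod_cast h
  have h2 : (1 : ℝ) ≤ n := by exact_mod_cast hn
  have h3 : (0 : ℝ) ≤ i := by positivity
  nlinarith

theorem a8_err {n : ℕ} {b : ℕ → ℝ} (hb0 : ∀ j, 0 ≤ b j) (hb1 : ∀ j, b j ≤ 1) {i : ℕ} (hi : i + 1 < n) :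
    |a8_g n b (i + 1) - a8_m n b (i + 1)| ≤ 4 * (n : ℝ) ^ 3 := by
  have e : a8_g n b (i + 1) - a8_m n b (i + 1) =
      w n (i + 1) * (b (i + 1) * (1 - b (i + 2))) *
        (2 * ((i : ℝ) + 1) * b i - (2 * ((i : ℝ) + 1) + 2) * (1 - b (i + 3))) := by
    unfold a8_g a8_m
    simp only [Nat.add_eq_zero_iff, one_ne_zero, and_false, if_false, Nat.add_sub_cancel]
    unfold w
    push_cast
    ring
  rw [e, abs_mul, abs_mul]
  have hn1 : 1 ≤ n := by omega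
  have hnR : (1 : ℝ) ≤ n := by exact_mod_cast hn1
  have hw0 : 0 ≤ w n (i + 1) := a8_w_nonneg (by omega)
  have hw1 : w n (i + 1) ≤ 2 * (n : ℝ) ^ 2 := a8_w_le (by omega) hn1
  have h1 : |w n (i + 1)| ≤ 2 * (n : ℝ) ^ 2 := by rw [abs_of_nonneg hw0]; exact hw1
  have hb2 : 0 ≤ 1 - b (i + 2) := by linarith [hb1 (i + 2)]
  have h2 : |b (i + 1) * (1 - b (i + 2))| ≤ 1 := by
    rw [abs_of_nonneg (mul_nonneg (hb0 _) hb2)]
    have := mul_le_mul (hb1 (i + 1)) (by linarith [hb0 (i + 2)] : 1 - b (i + 2) ≤ 1) hb2 zero_le_one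
    linarith
  have hi1 : (i : ℝ) + 2 ≤ n := by exact_mod_cast hi
  have h3 : |2 * ((i : ℝ) + 1) * b i - (2 * ((i : ℝ) + 1) + 2) * (1 - b (i + 3))| ≤ 2 * (n : ℝ) := by
    have hp : 0 ≤ 2 * ((i : ℝ) + 1) * b i := by
      have := hb0 i; positivity
    have hp' : 2 * ((i : ℝ) + 1) * b i ≤ 2 * n := by
      have h := mul_le_mul_of_nonneg_left (hb1 i) (by positivity : (0 : ℝ) ≤ 2 * ((i : ℝ) + 1))
      linarith
    have hb3 : 0 ≤ 1 - b (i + 3) := by linarith [hb1 (i + 3)]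
    have hq : 0 ≤ (2 * ((i : ℝ) + 1) + 2) * (1 - b (i + 3)) := by positivity
    have hq' : (2 * ((i : ℝ) + 1) + 2) * (1 - b (i + 3)) ≤ 2 * n := by
      have h := mul_le_mul_of_nonneg_left (by linarith [hb0 (i + 3)] : 1 - b (i + 3) ≤ 1)
        (by positivity : (0 : ℝ) ≤ 2 * ((i : ℝ) + 1) + 2)
      linarith
    rw [abs_le]
    constructor <;> linarith
  calc |w n (i + 1)| * |b (i + 1) * (1 - b (i + 2))| *
        |2 * ((i : ℝ) + 1) * b i - (2 * ((i : ℝ) + 1) + 2) * (1 - b (i + 3))|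
      ≤ (2 * (n : ℝ) ^ 2) * 1 * (2 * (n : ℝ)) := by
        apply mul_le_mul (mul_le_mul h1 h2 (abs_nonneg _) (by positivity)) h3 (abs_nonneg _) (by positivity)
    _ = 4 * (n : ℝ) ^ 3 := by ring

theorem a8_zero {n : ℕ} (hn : 1 ≤ n) {b : ℕ → ℝ} (hb0 : ∀ j, 0 ≤ b j) (hb1 : ∀ j, b j ≤ 1) :
    |a8_g n b 0| ≤ 4 * (n : ℝ) ^ 4 := by
  unfold a8_g
  simp only [if_true]
  have hw0 : 0 ≤ w n 0 := a8_w_nonneg (by omega)
  have hw0' : w n 0 ≤ 2 * (n : ℝ) ^ 2 := a8_w_le (by omega) hn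
  have hw1 : 0 ≤ w n 1 := a8_w_nonneg hn
  have hw1' : w n 1 ≤ 2 * (n : ℝ) ^ 2 := a8_w_le hn hn
  have hb2 : 0 ≤ 1 - b 2 := by linarith [hb1 2]
  have hb3 : 0 ≤ 1 - b (0 + 1) := by linarith [hb1 (0 + 1)]
  rw [abs_mul, abs_mul, abs_mul]
  have h1 : |w n 0| ≤ 2 * (n : ℝ) ^ 2 := by rw [abs_of_nonneg hw0]; exact hw0'
  have h2 : |b 0| ≤ 1 := by rw [abs_of_nonneg (hb0 0)]; exact hb1 0
  have h3 : |1 - b (0 + 1)| ≤ 1 := by rw [abs_of_nonneg hb3]; linarith [hb0 (0 + 1)]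
  have h4 : |-w n 0 / 2 + w n 1 * (1 - b 2)| ≤ 2 * (n : ℝ) ^ 2 := by
    have hq : 0 ≤ w n 1 * (1 - b 2) := mul_nonneg hw1 hb2
    have hq' : w n 1 * (1 - b 2) ≤ 2 * (n : ℝ) ^ 2 := by
      have h := mul_le_mul_of_nonneg_left (by linarith [hb0 2] : 1 - b 2 ≤ 1) hw1
      linarith
    rw [abs_le]
    constructor <;> nlinarith
  calc |w n 0| * |b 0| * |1 - b (0 + 1)| * |-w n 0 / 2 + w n 1 * (1 - b 2)|
      ≤ (2 * (n : ℝ) ^ 2) * 1 * 1 * (2 * (n : ℝ) ^ 2) := by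
        apply mul_le_mul (mul_le_mul (mul_le_mul h1 h2 (abs_nonneg _) (by positivity)) h3
          (abs_nonneg _) (by positivity)) h4 (abs_nonneg _) (by positivity)
    _ = 4 * (n : ℝ) ^ 4 := by ring

/-- summation by parts bound -/
theorem a8_parts (W P : ℕ → ℝ) (c : ℝ) (hP : ∀ i, |P i| ≤ c) (m : ℕ)
    (hW : ∀ i, i < m → W (i + 1) ≤ W i) :
    |∑ i ∈ range m, W i * (P i - P (i + 1)) - W 0 * P 0 + W m * P m| ≤ c * (W 0 - W m) := by
  induction m with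
  | zero => simp
  | succ m ih =>
    have ih' := ih (fun i hi => hW i (by omega))
    rw [Finset.sum_range_succ]
    have hm := hW m (by omega)
    have e : ∑ i ∈ range m, W i * (P i - P (i + 1)) + W m * (P m - P (m + 1)) - W 0 * P 0 + W (m + 1) * P (m + 1)
        = (∑ i ∈ range m, W i * (P i - P (i + 1)) - W 0 * P 0 + W m * P m) + (W (m + 1) - W m) * P (m + 1) := by
      ring
    rw [e]
    have h1 : |(W (m + 1) - W m) * P (m + 1)| ≤ c * (W m - W (m + 1)) := by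
      rw [abs_mul, abs_of_nonpos (by linarith : W (m + 1) - W m ≤ 0)]
      have := mul_le_mul_of_nonneg_left (hP (m + 1)) (by linarith : 0 ≤ -(W (m + 1) - W m))
      linarith
    calc _ ≤ _ := abs_add_le _ _
      _ ≤ c * (W 0 - W m) + c * (W m - W (m + 1)) := add_le_add ih' h1
      _ = c * (W 0 - W (m + 1)) := by ring

/-- the potential in the telescoping -/
noncomputable def a8_P (b : ℕ → ℝ) (i : ℕ) : ℝ :=
  b i * b (i + 1) + b (i + 1) * b (i + 2) + b i * b (i + 2) - 2 * (b i * b (i + 1) * b (i + 2))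

theorem a8_P_le {b : ℕ → ℝ} (hb0 : ∀ j, 0 ≤ b j) (hb1 : ∀ j, b j ≤ 1) (i : ℕ) : |a8_P b i| ≤ 3 := by
  unfold a8_P
  have p01 : 0 ≤ b i * b (i + 1) := mul_nonneg (hb0 _) (hb0 _)
  have p12 : 0 ≤ b (i + 1) * b (i + 2) := mul_nonneg (hb0 _) (hb0 _)
  have p02 : 0 ≤ b i * b (i + 2) := mul_nonneg (hb0 _) (hb0 _)
  have p012 : 0 ≤ b i * b (i + 1) * b (i + 2) := mul_nonneg p01 (hb0 _)
  have q01 : b i * b (i + 1) ≤ 1 := mul_le_one₀ (hb1 _) (hb0 _) (hb1 _)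
  have q12 : b (i + 1) * b (i + 2) ≤ 1 := mul_le_one₀ (hb1 _) (hb0 _) (hb1 _)
  have q02 : b i * b (i + 2) ≤ 1 := mul_le_one₀ (hb1 _) (hb0 _) (hb1 _)
  have q012 : b i * b (i + 1) * b (i + 2) ≤ 1 := mul_le_one₀ q01 (hb0 _) (hb1 _)
  rw [abs_le]
  constructor <;> linarith

theorem a8_main {n : ℕ} (hn : 1 ≤ n) {b : ℕ → ℝ} (hb0 : ∀ j, 0 ≤ b j) (hb1 : ∀ j, b j ≤ 1) :
    |∑ i ∈ range (n - 1), (a8_m n b (i + 1) - a8_m n (fun j => 1 - b j) (i + 1))| ≤ 36 * (n : ℝ) ^ 4 := by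
  have e : ∀ i, a8_m n b (i + 1) - a8_m n (fun j => 1 - b j) (i + 1) =
      w n (i + 1) ^ 2 * (a8_P b i - a8_P b (i + 1)) := by
    intro i
    unfold a8_m a8_P
    simp only [Nat.add_sub_cancel]
    ring
  simp_rw [e]
  have hW : ∀ i, i < n - 1 → w n (i + 1 + 1) ^ 2 ≤ w n (i + 1) ^ 2 := by
    intro i hi
    have h0 : 0 ≤ w n (i + 1 + 1) := a8_w_nonneg (by omega)
    have h1 : w n (i + 1 + 1) ≤ w n (i + 1) := by
      unfold w
      push_cast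
      have : (0 : ℝ) ≤ i := by positivity
      nlinarith
    nlinarith
  have h := a8_parts (fun i => w n (i + 1) ^ 2) (a8_P b) 3 (a8_P_le hb0 hb1) (n - 1) hW
  have hw1 : 0 ≤ w n (0 + 1) := a8_w_nonneg (by omega)
  have hw1' : w n (0 + 1) ≤ 2 * (n : ℝ) ^ 2 := a8_w_le (by omega) hn
  have hsq : w n (0 + 1) ^ 2 ≤ 4 * (n : ℝ) ^ 4 := by
    have : (2 * (n : ℝ) ^ 2) ^ 2 = 4 * (n : ℝ) ^ 4 := by ring
    rw [← this]
    exact pow_le_pow_left₀ hw1 hw1' 2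
  have hend : w n (n - 1 + 1) = 0 := by
    rw [Nat.sub_add_cancel hn, a8_w_self]
  simp only [hend] at h
  have hP0 := a8_P_le hb0 hb1 0
  have h2 : |w n (0 + 1) ^ 2 * a8_P b 0| ≤ 3 * w n (0 + 1) ^ 2 := by
    rw [abs_mul, abs_of_nonneg (sq_nonneg _)]
    nlinarith [sq_nonneg (w n (0 + 1))]
  rw [abs_le] at h h2 ⊢
  constructor <;> nlinarith [h.1, h.2, h2.1, h2.2]

theorem T_comp {n : ℕ} (x : V n) : |T x - T (comp x)| ≤ 200 * (n : ℝ) ^ 4 := by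
  rw [a8_T_eq, a8_T_comp_eq]
  rcases Nat.eq_zero_or_pos n with hn | hn
  · subst hn
    simp
  have hn1 : 1 ≤ n := hn
  have hb0 : ∀ j, 0 ≤ bt x j := bt_nonneg x
  have hb1 : ∀ j, bt x j ≤ 1 := bt_le_one x
  have hc0 : ∀ j, 0 ≤ (fun j => 1 - bt x j) j := fun j => by
    show 0 ≤ 1 - bt x j
    linarith [hb1 j]
  have hc1 : ∀ j, (fun j => 1 - bt x j) j ≤ 1 := fun j => by
    show 1 - bt x j ≤ 1
    linarith [hb0 j]
  obtain ⟨m, rfl⟩ : ∃ m, n = m + 1 := ⟨n - 1, by omega⟩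
  have hmain := a8_main hn1 hb0 hb1
  rw [Nat.add_sub_cancel] at hmain
  rw [Finset.sum_range_succ', Finset.sum_range_succ']
  have hz := a8_zero hn1 hb0 hb1
  have hz' := a8_zero hn1 hc0 hc1
  have herr : ∀ (b : ℕ → ℝ), (∀ j, 0 ≤ b j) → (∀ j, b j ≤ 1) →
      |∑ i ∈ range m, (a8_g (m + 1) b (i + 1) - a8_m (m + 1) b (i + 1))| ≤ 4 * ((m + 1 : ℕ) : ℝ) ^ 4 := by
    intro b h0 h1
    calc |∑ i ∈ range m, (a8_g (m + 1) b (i + 1) - a8_m (m + 1) b (i + 1))|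
        ≤ ∑ i ∈ range m, |a8_g (m + 1) b (i + 1) - a8_m (m + 1) b (i + 1)| := Finset.abs_sum_le_sum_abs _ _
      _ ≤ ∑ i ∈ range m, 4 * ((m + 1 : ℕ) : ℝ) ^ 3 :=
          Finset.sum_le_sum (fun i hi => a8_err h0 h1 (by have := Finset.mem_range.mp hi; omega))
      _ = m * (4 * ((m + 1 : ℕ) : ℝ) ^ 3) := by simp
      _ ≤ 4 * ((m + 1 : ℕ) : ℝ) ^ 4 := by
          have hm : (m : ℝ) ≤ ((m + 1 : ℕ) : ℝ) := by push_cast; linarith
          have hp : (0 : ℝ) ≤ ((m + 1 : ℕ) : ℝ) ^ 3 := by positivity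
          nlinarith
  have e1 := herr (bt x) hb0 hb1
  have e2 := herr (fun j => 1 - bt x j) hc0 hc1
  rw [Finset.sum_sub_distrib] at e1 e2 hmain
  have hp : (0 : ℝ) ≤ ((m + 1 : ℕ) : ℝ) ^ 4 := by positivity
  rw [abs_le] at *
  constructor <;> linarith [e1.1, e1.2, e2.1, e2.2, hmain.1, hmain.2, hz.1, hz.2, hz'.1, hz'.2]

end Pool.Alm48
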