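import Pool.Agent.Alm48.Defs

/-!
# ALM48, task B1: the expansion lemma
-/

set_option autoImplicit false

namespace Pool.Alm48

open scoped BigOperators
open Finset

/-- the error of one term of the expansion -/
theorem b1_term (N D T e t : ℝ) (hN : 200 ≤ N) (hD8 : N ^ 3 / 8 ≤ D)
    (he : |e| ≤ 6 * N ^ 2) (hT : |T| ≤ 8 * N ^ 5) (ht : |t - T| ≤ 280 * N ^ 4) :
    |(1 / (D + e) + t / (2 * (D + e) ^ 3)) - (1 / D - e / D ^ 2 + T / (2 * D ^ 3))| ≤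
      10000 * N ^ 4 / D ^ 3 := by
  have hN0 : (0 : ℝ) < N := by linarith
  have hN3 : 0 < N ^ 3 := by positivity
  have hDpos : 0 < D := by linarith [hN3]
  have he1 := abs_le.mp he
  have h6 : 6 * N ^ 2 ≤ N ^ 3 / 16 := by
    have h1 : N ^ 3 = N * N ^ 2 := by ring
    have h2 : 0 < N ^ 2 := by positivity
    nlinarith
  have h6D : 6 * N ^ 2 ≤ D / 2 := by linarith
  have hx : D / 2 ≤ D + e := by linarith [he1.1]
  have hx' : D + e ≤ 3 * D / 2 := by linarith [he1.2]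
  have hxpos : 0 < D + e := by linarith
  -- three parts
  have key : (1 / (D + e) + t / (2 * (D + e) ^ 3)) - (1 / D - e / D ^ 2 + T / (2 * D ^ 3)) =
      e ^ 2 / (D ^ 2 * (D + e)) + (t - T) / (2 * (D + e) ^ 3)
        + T * (-e * (D ^ 2 + D * (D + e) + (D + e) ^ 2)) / (2 * (D ^ 3 * (D + e) ^ 3)) := by
    field_simp
    ring
  rw [key]
  have p1 : |e ^ 2 / (D ^ 2 * (D + e))| ≤ 72 * N ^ 4 / D ^ 3 := by
    rw [abs_of_nonneg (by positivity), div_le_div_iff₀ (by positivity) (by positivity)]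
    have h1 : e ^ 2 ≤ 36 * N ^ 4 := by
      have := sq_le_sq' he1.1 he1.2
      calc e ^ 2 ≤ (6 * N ^ 2) ^ 2 := this
        _ = 36 * N ^ 4 := by ring
    have h2 : D ^ 3 ≤ 2 * (D ^ 2 * (D + e)) := by
      have : 0 < D ^ 2 := by positivity
      nlinarith
    calc e ^ 2 * D ^ 3 ≤ (36 * N ^ 4) * (2 * (D ^ 2 * (D + e))) :=
          mul_le_mul h1 h2 (by positivity) (by positivity)
      _ = 72 * N ^ 4 * (D ^ 2 * (D + e)) := by ring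
  have hx3 : D ^ 3 / 8 ≤ (D + e) ^ 3 := by
    have := pow_le_pow_left₀ (by positivity) hx 3
    calc D ^ 3 / 8 = (D / 2) ^ 3 := by ring
      _ ≤ (D + e) ^ 3 := this
  have p2 : |(t - T) / (2 * (D + e) ^ 3)| ≤ 1120 * N ^ 4 / D ^ 3 := by
    rw [abs_div, abs_of_pos (show (0 : ℝ) < 2 * (D + e) ^ 3 by positivity),
      div_le_div_iff₀ (by positivity) (by positivity)]
    calc |t - T| * D ^ 3 ≤ (280 * N ^ 4) * (8 * (D + e) ^ 3) :=
          mul_le_mul ht (by linarith) (by positivity) (by positivity)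
      _ = 1120 * N ^ 4 * (2 * (D + e) ^ 3) := by ring
  have p3 : |T * (-e * (D ^ 2 + D * (D + e) + (D + e) ^ 2)) / (2 * (D ^ 3 * (D + e) ^ 3))| ≤
      7296 * N ^ 4 / D ^ 3 := by
    rw [abs_div, abs_of_pos (show (0 : ℝ) < 2 * (D ^ 3 * (D + e) ^ 3) by positivity),
      div_le_div_iff₀ (by positivity) (by positivity), abs_mul, abs_mul, abs_neg]
    have hq : |D ^ 2 + D * (D + e) + (D + e) ^ 2| ≤ 19 / 4 * D ^ 2 := by
      rw [abs_of_nonneg (by positivity)]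
      nlinarith
    have a1 : |T| * (|e| * |D ^ 2 + D * (D + e) + (D + e) ^ 2|) ≤
        (8 * N ^ 5) * ((6 * N ^ 2) * (19 / 4 * D ^ 2)) :=
      mul_le_mul hT (mul_le_mul he hq (abs_nonneg _) (by positivity)) (by positivity)
        (by positivity)
    have a2 : (8 * N ^ 5) * ((6 * N ^ 2) * (19 / 4 * D ^ 2)) ≤ 228 * N ^ 4 * (8 * D) * D ^ 2 := by
      have h3 : N ^ 3 ≤ 8 * D := by linarith
      calc (8 * N ^ 5) * ((6 * N ^ 2) * (19 / 4 * D ^ 2)) = 228 * N ^ 4 * N ^ 3 * D ^ 2 := by ring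
        _ ≤ 228 * N ^ 4 * (8 * D) * D ^ 2 := by gcongr
    have a3 : 228 * N ^ 4 * (8 * D) * D ^ 2 = 1824 * N ^ 4 * D ^ 3 := by ring
    calc |T| * (|e| * |D ^ 2 + D * (D + e) + (D + e) ^ 2|) * D ^ 3
        ≤ (1824 * N ^ 4 * D ^ 3) * (8 * (D + e) ^ 3) := by
          apply mul_le_mul _ (by linarith) (by positivity) (by positivity)
          linarith
      _ = 7296 * N ^ 4 * (2 * (D ^ 3 * (D + e) ^ 3)) := by ring
  calc |e ^ 2 / (D ^ 2 * (D + e)) + (t - T) / (2 * (D + e) ^ 3)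
        + T * (-e * (D ^ 2 + D * (D + e) + (D + e) ^ 2)) / (2 * (D ^ 3 * (D + e) ^ 3))|
      ≤ |e ^ 2 / (D ^ 2 * (D + e))| + |(t - T) / (2 * (D + e) ^ 3)| +
        |T * (-e * (D ^ 2 + D * (D + e) + (D + e) ^ 2)) / (2 * (D ^ 3 * (D + e) ^ 3))| :=
        abs_add_three _ _ _
    _ ≤ 72 * N ^ 4 / D ^ 3 + 1120 * N ^ 4 / D ^ 3 + 7296 * N ^ 4 / D ^ 3 := by
        linarith
    _ = 8488 * N ^ 4 / D ^ 3 := by ring
    _ ≤ 10000 * N ^ 4 / D ^ 3 := by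
        gcongr
        norm_num

theorem expansion {ι : Type*} (s : Finset ι) (W e t : ι → ℝ) (N D₀ T₀ δ : ℝ)
    (hN : 200 ≤ N) (hW : ∀ i ∈ s, 0 ≤ W i) (hD : D₀ = ∑ i ∈ s, W i) (hD8 : N ^ 3 / 8 ≤ D₀)
    (hT : T₀ = ∑ i ∈ s, W i * (e i + δ))
    (he : ∀ i ∈ s, |e i| ≤ 6 * N ^ 2) (hδ : |δ| ≤ N ^ 2 + 2)
    (hT0 : |T₀| ≤ 8 * N ^ 5) (ht : ∀ i ∈ s, |t i - T₀| ≤ 280 * N ^ 4) :
    |∑ i ∈ s, W i / 2 * ((1 / D₀ + T₀ / (2 * D₀ ^ 3)) + (1 / (D₀ + e i) + t i / (2 * (D₀ + e i) ^ 3)))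
      - (1 + δ / (2 * D₀))| ≤ 10 ^ 6 / N ^ 2 := by
  have hN0 : (0 : ℝ) < N := by linarith
  have hN3 : 0 < N ^ 3 := by positivity
  have hDpos : 0 < D₀ := by linarith [hN3]
  have hmain : ∑ i ∈ s, W i / 2 * ((1 / D₀ + T₀ / (2 * D₀ ^ 3)) +
      (1 / D₀ - e i / D₀ ^ 2 + T₀ / (2 * D₀ ^ 3))) = 1 + δ / (2 * D₀) := by
    have h1 : ∀ i ∈ s, W i / 2 * ((1 / D₀ + T₀ / (2 * D₀ ^ 3)) +
        (1 / D₀ - e i / D₀ ^ 2 + T₀ / (2 * D₀ ^ 3))) =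
        W i * (1 / D₀ + T₀ / (2 * D₀ ^ 3) + δ / (2 * D₀ ^ 2)) -
          W i * (e i + δ) * (1 / (2 * D₀ ^ 2)) := by
      intro i _
      field_simp
      ring
    rw [Finset.sum_congr rfl h1, Finset.sum_sub_distrib, ← Finset.sum_mul, ← Finset.sum_mul,
      ← hD, ← hT]
    field_simp
    ring
  rw [← hmain, ← Finset.sum_sub_distrib]
  calc |∑ i ∈ s, (W i / 2 * ((1 / D₀ + T₀ / (2 * D₀ ^ 3)) +
          (1 / (D₀ + e i) + t i / (2 * (D₀ + e i) ^ 3))) -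
        W i / 2 * ((1 / D₀ + T₀ / (2 * D₀ ^ 3)) +
          (1 / D₀ - e i / D₀ ^ 2 + T₀ / (2 * D₀ ^ 3))))|
      ≤ ∑ i ∈ s, |W i / 2 * ((1 / D₀ + T₀ / (2 * D₀ ^ 3)) +
          (1 / (D₀ + e i) + t i / (2 * (D₀ + e i) ^ 3))) -
        W i / 2 * ((1 / D₀ + T₀ / (2 * D₀ ^ 3)) +
          (1 / D₀ - e i / D₀ ^ 2 + T₀ / (2 * D₀ ^ 3)))| := Finset.abs_sum_le_sum_abs _ _
    _ ≤ ∑ i ∈ s, W i * (5000 * N ^ 4 / D₀ ^ 3) := by
        apply Finset.sum_le_sum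
        intro i hi
        have hb := b1_term N D₀ T₀ (e i) (t i) hN hD8 (he i hi) hT0 (ht i hi)
        have hWi := hW i hi
        have h2 : W i / 2 * ((1 / D₀ + T₀ / (2 * D₀ ^ 3)) +
          (1 / (D₀ + e i) + t i / (2 * (D₀ + e i) ^ 3))) -
          W i / 2 * ((1 / D₀ + T₀ / (2 * D₀ ^ 3)) +
          (1 / D₀ - e i / D₀ ^ 2 + T₀ / (2 * D₀ ^ 3))) =
          W i / 2 * ((1 / (D₀ + e i) + t i / (2 * (D₀ + e i) ^ 3)) -
            (1 / D₀ - e i / D₀ ^ 2 + T₀ / (2 * D₀ ^ 3))) := by ring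
        rw [h2, abs_mul, abs_of_nonneg (by positivity : 0 ≤ W i / 2)]
        calc W i / 2 * |(1 / (D₀ + e i) + t i / (2 * (D₀ + e i) ^ 3)) -
              (1 / D₀ - e i / D₀ ^ 2 + T₀ / (2 * D₀ ^ 3))|
            ≤ W i / 2 * (10000 * N ^ 4 / D₀ ^ 3) :=
              mul_le_mul_of_nonneg_left hb (by positivity)
          _ = W i * (5000 * N ^ 4 / D₀ ^ 3) := by ring
    _ = D₀ * (5000 * N ^ 4 / D₀ ^ 3) := by rw [← Finset.sum_mul, ← hD]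
    _ ≤ 10 ^ 6 / N ^ 2 := by
        rw [← mul_div_assoc, div_le_div_iff₀ (by positivity) (by positivity)]
        have h3 : N ^ 6 ≤ 64 * D₀ ^ 2 := by
          have := pow_le_pow_left₀ (by positivity) hD8 2
          nlinarith
        calc D₀ * (5000 * N ^ 4) * N ^ 2 = 5000 * D₀ * N ^ 6 := by ring
          _ ≤ 5000 * D₀ * (64 * D₀ ^ 2) := by gcongr
          _ ≤ 10 ^ 6 * D₀ ^ 3 := by nlinarith [pow_pos hDpos 3]

end Pool.Alm48
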