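import Pool.Agent.Alm48.A2
import Pool.Agent.Alm48.A3a
import Pool.Agent.Alm48.A4a
import Pool.Agent.Alm48.A5a
import Pool.Agent.Alm48.A5b
import Pool.Agent.Alm48.Defs

set_option autoImplicit false
namespace Pool.Alm48
open scoped BigOperators
open Finset



/-- `δ(x) = N - 2 (rk x + 1)` -/
noncomputable def dl {n : ℕ} (x : V n) : ℝ := (NN n : ℝ) - 2 * ((rk x : ℝ) + 1)

theorem b2a_NN_le (n : ℕ) : (NN n : ℝ) ≤ (n : ℝ) ^ 2 := by
  have h : NN n ≤ n ^ 2 := by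
    unfold NN
    rcases Nat.eq_zero_or_pos n with rfl | hn
    · simp
    · apply Nat.div_le_of_le_mul
      nlinarith
  calc (NN n : ℝ) ≤ ((n ^ 2 : ℕ) : ℝ) := by exact_mod_cast h
    _ = (n : ℝ) ^ 2 := by push_cast; ring

theorem abs_dl_le {n : ℕ} (x : V n) : |dl x| ≤ (n : ℝ) ^ 2 + 2 := by
  have h1 : (rk x : ℝ) ≤ (NN n : ℝ) := by exact_mod_cast rk_le x
  have h2 := b2a_NN_le n
  have h3 : (0 : ℝ) ≤ (rk x : ℝ) := Nat.cast_nonneg _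
  unfold dl
  rw [abs_le]
  constructor <;> linarith

theorem D_comp_mvUp {n : ℕ} {x : V n} {i : Fin n} (h : i ∈ ups x) :
    D (comp (mvUp x i)) = D x + (Dl x i - dl x) := by
  have h1 := D_sub_comp (mvUp x i)
  have h2 := D_mvUp h
  rw [rk_mvUp h] at h1
  unfold dl
  push_cast at h1
  linarith

theorem al_nonneg {n : ℕ} (hn : 1000 ≤ n) (x : V n) (hD : (n : ℝ) ^ 3 / 8 ≤ D x) : 0 ≤ al x := by
  have hn' : (1000 : ℝ) ≤ (n : ℝ) := by exact_mod_cast hn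
  have hpos : (0 : ℝ) < (n : ℝ) ^ 3 / 8 := by positivity
  have hDpos : 0 < D x := hpos.trans_le hD
  have hT := (abs_le.mp (abs_T_le x)).1
  have h1 : ((n : ℝ) ^ 3 / 8) ^ 2 ≤ (D x) ^ 2 := pow_le_pow_left₀ hpos.le hD 2
  have h2 : 8 * (n : ℝ) ^ 5 ≤ 2 * ((n : ℝ) ^ 3 / 8) ^ 2 := by
    have h3 : (0 : ℝ) ≤ (n : ℝ) ^ 5 := by positivity
    have h4 : 2 * ((n : ℝ) ^ 3 / 8) ^ 2 = (n : ℝ) ^ 5 * (n / 32) := by ring
    rw [h4]
    nlinarith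
  have h5 : 0 ≤ 2 * (D x) ^ 2 + T x := by linarith
  have h6 : al x = (2 * (D x) ^ 2 + T x) / (2 * (D x) ^ 3) := by
    unfold al
    field_simp
  rw [h6]
  positivity

theorem D_comp_mvUp_close {n : ℕ} (hn : 2 ≤ n) {x : V n} {i : Fin n} (h : i ∈ ups x) :
    |D (comp (mvUp x i)) - D x| ≤ 6 * (n : ℝ) ^ 2 := by
  have hn' : (2 : ℝ) ≤ (n : ℝ) := by exact_mod_cast hn
  have h1 := abs_le.mp (abs_Dl_le x i.isLt)
  have h2 := abs_le.mp (abs_dl_le x)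
  rw [D_comp_mvUp h, abs_le]
  constructor <;> nlinarith [h1.1, h1.2, h2.1, h2.2]

end Pool.Alm48
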