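import Pool.Agent.Alm48.A1
import Pool.Agent.Alm48.A5a
import Pool.Agent.Alm48.A5b
import Pool.Agent.Alm48.A6
import Pool.Agent.Alm48.A8
import Pool.Agent.Alm48.B1
import Pool.Agent.Alm48.B2a
import Pool.Agent.Alm48.Defs

set_option autoImplicit false
namespace Pool.Alm48
open scoped BigOperators
open Finset



theorem out_main {n : ℕ} (hn : 200 ≤ n) (x : V n) (hD : (n : ℝ) ^ 3 / 8 ≤ D x) :
    |outf x - (1 + dl x / (2 * D x))| ≤ 10 ^ 6 / (n : ℝ) ^ 2 := by
  have hnR : (200 : ℝ) ≤ n := by exact_mod_cast hn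
  have h := expansion (ups x) (fun i => Wt n i) (fun i => Dl x i - dl x)
    (fun i => T (comp (mvUp x i))) (n : ℝ) (D x) (T x) (dl x) hnR
    (fun i _ => Wt_nonneg i.2.le) (D_eq_sum_ups x) hD
    (by
      unfold T
      apply Finset.sum_congr rfl
      intro i hi
      rw [D_mvUp hi]
      ring)
    (by
      intro i hi
      have h1 := abs_Dl_le x i.2
      have h2 := abs_dl_le x
      have h3 : |Dl x i - dl x| ≤ |Dl x i| + |dl x| := abs_sub _ _
      have h4 : (2 : ℝ) ≤ (n : ℝ) ^ 2 := by nlinarith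
      linarith)
    (abs_dl_le x) (abs_T_le x)
    (by
      intro i hi
      have h1 := T_comp (mvUp x i)
      have h2 := T_mvUp hi
      have h3 : |T (comp (mvUp x i)) - T x| ≤ |T (mvUp x i) - T (comp (mvUp x i))| + |T (mvUp x i) - T x| := by
        have : T (comp (mvUp x i)) - T x = -(T (mvUp x i) - T (comp (mvUp x i))) + (T (mvUp x i) - T x) := by ring
        rw [this]
        refine (abs_add_le _ _).trans ?_
        rw [abs_neg]
      linarith)
  have e : outf x = ∑ i ∈ ups x, Wt n i / 2 * ((1 / D x + T x / (2 * D x ^ 3)) +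
      (1 / (D x + (Dl x i - dl x)) + T (comp (mvUp x i)) / (2 * (D x + (Dl x i - dl x)) ^ 3))) := by
    unfold outf
    apply Finset.sum_congr rfl
    intro i hi
    unfold al
    rw [D_comp_mvUp hi]
  rw [e]
  exact h

end Pool.Alm48
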