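import Pool.Agent.Alm48.Defs

set_option autoImplicit false
namespace Pool.Alm48
open scoped BigOperators
open Finset

theorem mgf_cube {n : ℕ} (F : (Fin n → Bool) → ℝ) (c : ℝ) (hc : 0 ≤ c)
    (hF : ∀ x i b, |F (Function.update x i b) - F x| ≤ c) (a : ℝ) :
    ∑ x, Real.exp (a * F x) ≤
      2 ^ n * Real.exp (a * ((∑ x, F x) / 2 ^ n) + n * a ^ 2 * c ^ 2 / 8) := by
  induction n with
  | zero => simp
  | succ n ih =>
    set m : (Fin n → Bool) → ℝ := fun y =>
      (F (Fin.cons true y) + F (Fin.cons false y)) / 2 with hm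
    have hsplit : ∀ G : (Fin (n + 1) → Bool) → ℝ,
        ∑ x, G x = ∑ y : Fin n → Bool, (G (Fin.cons true y) + G (Fin.cons false y)) := by
      intro G
      rw [← Equiv.sum_comp (Fin.consEquiv (fun _ : Fin (n + 1) => Bool)) G, Fintype.sum_prod_type,
        Fintype.sum_bool, ← Finset.sum_add_distrib]
      rfl
    have hmb : ∀ y i b, |m (Function.update y i b) - m y| ≤ c := by
      intro y i b
      have h1 := hF (Fin.cons true y) i.succ b
      have h2 := hF (Fin.cons false y) i.succ b
      rw [← Fin.cons_update] at h1 h2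
      simp only [hm]
      rw [abs_le] at *
      constructor <;> linarith [h1.1, h1.2, h2.1, h2.2]
    have hstep : ∀ y, Real.exp (a * F (Fin.cons true y)) + Real.exp (a * F (Fin.cons false y)) ≤
        2 * Real.exp (a ^ 2 * c ^ 2 / 8) * Real.exp (a * m y) := by
      intro y
      have h1 := hF (Fin.cons false y) 0 true
      rw [Fin.update_cons_zero] at h1
      set u : ℝ := a * (F (Fin.cons true y) - F (Fin.cons false y)) / 2 with hu
      have h2 : Real.exp (a * F (Fin.cons true y)) + Real.exp (a * F (Fin.cons false y)) =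
          2 * Real.cosh u * Real.exp (a * m y) := by
        rw [Real.cosh_eq]
        have e1 : a * F (Fin.cons true y) = u + a * m y := by simp only [hu, hm]; ring
        have e2 : a * F (Fin.cons false y) = -u + a * m y := by simp only [hu, hm]; ring
        rw [e1, e2, Real.exp_add, Real.exp_add]
        ring
      rw [h2]
      have h3 : Real.cosh u ≤ Real.exp (a ^ 2 * c ^ 2 / 8) := by
        refine (Real.cosh_le_exp_half_sq u).trans (Real.exp_le_exp.mpr ?_)
        have h4 : (F (Fin.cons true y) - F (Fin.cons false y)) ^ 2 ≤ c ^ 2 := by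
          rw [← sq_abs]
          exact pow_le_pow_left₀ (abs_nonneg _) h1 2
        have h5 : a ^ 2 * (F (Fin.cons true y) - F (Fin.cons false y)) ^ 2 ≤ a ^ 2 * c ^ 2 :=
          mul_le_mul_of_nonneg_left h4 (sq_nonneg a)
        calc u ^ 2 / 2 = a ^ 2 * (F (Fin.cons true y) - F (Fin.cons false y)) ^ 2 / 8 := by
              rw [hu]; ring
          _ ≤ a ^ 2 * c ^ 2 / 8 := by linarith
      have h6 := Real.exp_pos (a * m y)
      nlinarith [mul_le_mul_of_nonneg_right h3 h6.le]
    rw [hsplit]
    calc ∑ y : Fin n → Bool, (Real.exp (a * F (Fin.cons true y)) + Real.exp (a * F (Fin.cons false y)))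
        ≤ ∑ y : Fin n → Bool, 2 * Real.exp (a ^ 2 * c ^ 2 / 8) * Real.exp (a * m y) :=
          Finset.sum_le_sum fun y _ => hstep y
      _ = 2 * Real.exp (a ^ 2 * c ^ 2 / 8) * ∑ y : Fin n → Bool, Real.exp (a * m y) := by
          rw [Finset.mul_sum]
      _ ≤ 2 * Real.exp (a ^ 2 * c ^ 2 / 8) *
          (2 ^ n * Real.exp (a * ((∑ y, m y) / 2 ^ n) + n * a ^ 2 * c ^ 2 / 8)) :=
          mul_le_mul_of_nonneg_left (ih m hmb) (by positivity)
      _ = 2 ^ (n + 1) * Real.exp (a * ((∑ x, F x) / 2 ^ (n + 1)) +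
            ((n + 1 : ℕ) : ℝ) * a ^ 2 * c ^ 2 / 8) := by
          have e1 : ∑ x, F x = 2 * ∑ y, m y := by
            rw [hsplit, Finset.mul_sum]
            refine Finset.sum_congr rfl fun y _ => ?_
            simp only [hm]
            ring
          have e2 : a * ((∑ x, F x) / 2 ^ (n + 1)) + ((n + 1 : ℕ) : ℝ) * a ^ 2 * c ^ 2 / 8 =
              a ^ 2 * c ^ 2 / 8 + (a * ((∑ y, m y) / 2 ^ n) + n * a ^ 2 * c ^ 2 / 8) := by
            rw [e1]
            push_cast
            field_simp
            ring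
          rw [e2, Real.exp_add (a ^ 2 * c ^ 2 / 8)]
          ring

end Pool.Alm48
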