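import Pool.Agent.Alm48.C1a
import Pool.Agent.Alm48.Defs
set_option autoImplicit false
namespace Pool.Alm48
open scoped BigOperators
open Finset



theorem c1b_half {n : ℕ} (F : (Fin n → Bool) → ℝ) (c : ℝ) (hc : 0 < c) (hn : 1 ≤ n)
    (hF : ∀ x i b, |F (Function.update x i b) - F x| ≤ c) (μ : ℝ)
    (hμ : ∑ x, F x = 2 ^ n * μ) (s : ℝ) (hs : 0 ≤ s) (σ : ℝ) (hσ : σ ^ 2 = 1) :
    (((univ : Finset (Fin n → Bool)).filter (fun x => s < σ * (F x - μ))).card : ℝ) ≤
      2 ^ n * Real.exp (-(2 * s ^ 2 / (n * c ^ 2))) := by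
  have hn' : (0 : ℝ) < n := by exact_mod_cast hn
  set a : ℝ := 4 * s / (n * c ^ 2) with ha
  have hden : (0 : ℝ) < n * c ^ 2 := by positivity
  have ha0 : 0 ≤ a := by rw [ha]; positivity
  have hmgf := mgf_cube F c hc.le hF (σ * a)
  have h2n : (0 : ℝ) < 2 ^ n := by positivity
  have hmean : (∑ x, F x) / 2 ^ n = μ := by
    rw [hμ]; field_simp
  rw [hmean] at hmgf
  have hsq : (σ * a) ^ 2 = a ^ 2 := by rw [mul_pow, hσ, one_mul]
  rw [hsq] at hmgf
  set S := (univ : Finset (Fin n → Bool)).filter (fun x => s < σ * (F x - μ)) with hS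
  have h1 : (S.card : ℝ) * Real.exp (a * s + σ * a * μ) ≤ ∑ x, Real.exp (σ * a * F x) := by
    calc (S.card : ℝ) * Real.exp (a * s + σ * a * μ)
        = ∑ _x ∈ S, Real.exp (a * s + σ * a * μ) := by
          rw [Finset.sum_const, nsmul_eq_mul]
      _ ≤ ∑ x ∈ S, Real.exp (σ * a * F x) := by
          refine Finset.sum_le_sum (fun x hx => ?_)
          apply Real.exp_le_exp.2
          rw [hS, Finset.mem_filter] at hx
          have h3 : a * s ≤ a * (σ * (F x - μ)) := mul_le_mul_of_nonneg_left hx.2.le ha0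
          nlinarith [h3]
      _ ≤ ∑ x, Real.exp (σ * a * F x) :=
          Finset.sum_le_univ_sum_of_nonneg (fun x => (Real.exp_pos _).le)
  have h2 : (S.card : ℝ) * Real.exp (a * s + σ * a * μ) ≤
      2 ^ n * Real.exp (σ * a * μ + n * a ^ 2 * c ^ 2 / 8) := le_trans h1 hmgf
  have hexp : (n : ℝ) * a ^ 2 * c ^ 2 / 8 - a * s = -(2 * s ^ 2 / (n * c ^ 2)) := by
    rw [ha]
    field_simp
    ring
  have h3 : (S.card : ℝ) = (S.card : ℝ) * Real.exp (a * s + σ * a * μ)
      * Real.exp (-(a * s + σ * a * μ)) := by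
    rw [mul_assoc, ← Real.exp_add, add_neg_cancel, Real.exp_zero, mul_one]
  rw [h3]
  calc (S.card : ℝ) * Real.exp (a * s + σ * a * μ) * Real.exp (-(a * s + σ * a * μ))
      ≤ (2 ^ n * Real.exp (σ * a * μ + n * a ^ 2 * c ^ 2 / 8))
        * Real.exp (-(a * s + σ * a * μ)) :=
        mul_le_mul_of_nonneg_right h2 (Real.exp_pos _).le
    _ = 2 ^ n * Real.exp (-(2 * s ^ 2 / (n * c ^ 2))) := by
        rw [mul_assoc, ← Real.exp_add, ← hexp]
        congr 2
        ring

theorem tail_cube {n : ℕ} (F : (Fin n → Bool) → ℝ) (c : ℝ) (hc : 0 < c) (hn : 1 ≤ n)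
    (hF : ∀ x i b, |F (Function.update x i b) - F x| ≤ c) (μ : ℝ)
    (hμ : ∑ x, F x = 2 ^ n * μ) (s : ℝ) (hs : 0 ≤ s) :
    (((univ : Finset (Fin n → Bool)).filter (fun x => s < |F x - μ|)).card : ℝ) ≤
      2 * 2 ^ n * Real.exp (-(2 * s ^ 2 / (n * c ^ 2))) := by
  have h1 := c1b_half F c hc hn hF μ hμ s hs 1 (by norm_num)
  have h2 := c1b_half F c hc hn hF μ hμ s hs (-1) (by norm_num)
  have h3 : ((univ : Finset (Fin n → Bool)).filter (fun x => s < |F x - μ|)).card
      ≤ ((univ : Finset (Fin n → Bool)).filter (fun x => s < 1 * (F x - μ))).card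
        + ((univ : Finset (Fin n → Bool)).filter (fun x => s < -1 * (F x - μ))).card := by
    refine le_trans (Finset.card_le_card ?_) (Finset.card_union_le _ _)
    intro x hx
    rw [Finset.mem_filter] at hx
    rw [Finset.mem_union, Finset.mem_filter, Finset.mem_filter]
    rcases lt_abs.1 hx.2 with h | h
    · left
      exact ⟨Finset.mem_univ _, by rw [one_mul]; exact h⟩
    · right
      exact ⟨Finset.mem_univ _, by rw [neg_one_mul]; exact h⟩
  have h4 : (((univ : Finset (Fin n → Bool)).filter (fun x => s < |F x - μ|)).card : ℝ)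
      ≤ (((univ : Finset (Fin n → Bool)).filter (fun x => s < 1 * (F x - μ))).card : ℝ)
        + (((univ : Finset (Fin n → Bool)).filter (fun x => s < -1 * (F x - μ))).card : ℝ) := by
    exact_mod_cast h3
  linarith

end Pool.Alm48
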