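import Pool.Agent.Alm48.A1
import Pool.Agent.Alm48.Defs

/-! # Alm48 task C2: bounded differences for `D` and `rk` -/

set_option autoImplicit false
namespace Pool.Alm48
open scoped BigOperators
open Finset

/-- changing bit `i` does not change the other bits -/
theorem c2_bt_update_ne {n : ℕ} (x : V n) (i : Fin n) (b : Bool) (j : ℕ) (h : j ≠ i.val + 1) :
    bt (Function.update x i b) j = bt x j := by
  rcases Nat.eq_zero_or_pos j with rfl | hj
  · rw [bt_zero, bt_zero]
  · rcases Nat.lt_or_ge n j with hn | hn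
    · rw [bt_big _ hn, bt_big _ hn]
    · obtain ⟨k, rfl⟩ : ∃ k, j = k + 1 := ⟨j - 1, by omega⟩
      have hk : k < n := hn
      have e1 := bt_succ (Function.update x i b) ⟨k, hk⟩
      have e2 := bt_succ x ⟨k, hk⟩
      simp only at e1 e2
      have hne : (⟨k, hk⟩ : Fin n) ≠ i := by
        intro he
        apply h
        rw [← he]
      rw [Function.update_of_ne hne] at e1
      rw [e1, e2]

/-- the summand of `D` -/
noncomputable def c2_s {n : ℕ} (x : V n) (k : ℕ) : ℝ := w n k * bt x k * (1 - bt x (k + 1))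

theorem c2_s_bound {n : ℕ} (x : V n) (k : ℕ) (hk : k < n) :
    0 ≤ c2_s x k ∧ c2_s x k ≤ 2 * (n : ℝ) ^ 2 := by
  have h1 := w_le (le_of_lt hk) (by omega : 1 ≤ n)
  have h0 := w_nonneg (le_of_lt hk)
  have hb0 := bt_nonneg x k
  have hb1 := bt_le_one x k
  have hc0 := bt_nonneg x (k + 1)
  have hc1 := bt_le_one x (k + 1)
  have h2 : w n k * bt x k ≤ w n k := mul_le_of_le_one_right h0 hb1
  have h3 : w n k * bt x k * (1 - bt x (k + 1)) ≤ w n k * bt x k :=
    mul_le_of_le_one_right (mul_nonneg h0 hb0) (by linarith)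
  unfold c2_s
  exact ⟨mul_nonneg (mul_nonneg h0 hb0) (by linarith), by linarith⟩

theorem D_update {n : ℕ} (x : V n) (i : Fin n) (b : Bool) :
    |D (Function.update x i b) - D x| ≤ 4 * (n : ℝ) ^ 2 := by
  have hD : D (Function.update x i b) - D x
      = ∑ k ∈ range n, (c2_s (Function.update x i b) k - c2_s x k) := by
    rw [Finset.sum_sub_distrib]
    rfl
  have hsub : ∑ k ∈ range n, (c2_s (Function.update x i b) k - c2_s x k)
      = ∑ k ∈ (range n).filter (fun k => k = i.val ∨ k = i.val + 1),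
          (c2_s (Function.update x i b) k - c2_s x k) := by
    symm
    apply Finset.sum_subset (Finset.filter_subset _ _)
    intro k hk hk'
    have hk2 : ¬ (k = i.val ∨ k = i.val + 1) := by
      intro h
      exact hk' (Finset.mem_filter.2 ⟨hk, h⟩)
    have ha : k ≠ i.val + 1 := fun h => hk2 (Or.inr h)
    have hb : k + 1 ≠ i.val + 1 := fun h => hk2 (Or.inl (by omega))
    unfold c2_s
    rw [c2_bt_update_ne x i b k ha, c2_bt_update_ne x i b (k + 1) hb]
    ring
  have hcard : ((range n).filter (fun k => k = i.val ∨ k = i.val + 1)).card ≤ 2 := by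
    have hss : (range n).filter (fun k => k = i.val ∨ k = i.val + 1) ⊆ {i.val, i.val + 1} := by
      intro k hk
      have := (Finset.mem_filter.1 hk).2
      simpa using this
    exact le_trans (Finset.card_le_card hss) Finset.card_le_two
  rw [hD, hsub]
  refine le_trans (Finset.abs_sum_le_sum_abs _ _) ?_
  have hterm : ∀ k ∈ (range n).filter (fun k => k = i.val ∨ k = i.val + 1),
      |c2_s (Function.update x i b) k - c2_s x k| ≤ 2 * (n : ℝ) ^ 2 := by
    intro k hk
    have hkn : k < n := Finset.mem_range.1 (Finset.mem_filter.1 hk).1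
    obtain ⟨h1, h2⟩ := c2_s_bound (Function.update x i b) k hkn
    obtain ⟨h3, h4⟩ := c2_s_bound x k hkn
    rw [abs_le]
    constructor <;> linarith
  have hs := Finset.sum_le_card_nsmul _ _ _ hterm
  rw [nsmul_eq_mul] at hs
  have hc : (((range n).filter (fun k => k = i.val ∨ k = i.val + 1)).card : ℝ) ≤ 2 := by
    exact_mod_cast hcard
  have hn2 : (0 : ℝ) ≤ 2 * (n : ℝ) ^ 2 := by positivity
  calc _ ≤ _ := hs
    _ ≤ 2 * (2 * (n : ℝ) ^ 2) := mul_le_mul_of_nonneg_right hc hn2
    _ = 4 * (n : ℝ) ^ 2 := by ring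

theorem rk_update {n : ℕ} (x : V n) (i : Fin n) (b : Bool) :
    |(rk (Function.update x i b) : ℝ) - (rk x : ℝ)| ≤ n := by
  have h1 : ∀ y : V n, (rk y : ℝ) = (∑ k ∈ univ.erase i, (if y k = true then ((k.val + 1 : ℕ) : ℝ) else 0))
      + (if y i = true then ((i.val + 1 : ℕ) : ℝ) else 0) := by
    intro y
    rw [Finset.sum_erase_add _ _ (Finset.mem_univ i)]
    unfold rk
    rw [Nat.cast_sum]
    apply Finset.sum_congr rfl
    intro k _
    split_ifs <;> simp
  rw [h1 (Function.update x i b), h1 x]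
  have h2 : (∑ k ∈ univ.erase i, (if (Function.update x i b) k = true then ((k.val + 1 : ℕ) : ℝ) else 0))
      = ∑ k ∈ univ.erase i, (if x k = true then ((k.val + 1 : ℕ) : ℝ) else 0) := by
    apply Finset.sum_congr rfl
    intro k hk
    rw [Function.update_of_ne (Finset.ne_of_mem_erase hk)]
  rw [h2]
  have hi : ((i.val + 1 : ℕ) : ℝ) ≤ n := by exact_mod_cast i.2
  have hi0 : (0 : ℝ) ≤ ((i.val + 1 : ℕ) : ℝ) := Nat.cast_nonneg _
  have hn0 : (0 : ℝ) ≤ n := Nat.cast_nonneg _
  rw [add_sub_add_left_eq_sub, abs_le]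
  constructor <;> split_ifs <;> linarith

end Pool.Alm48
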