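import Pool.Agent.Alm48.A1
import Pool.Agent.Alm48.A4a
import Pool.Agent.Alm48.Defs

/-! # Alm48 task C3a: the mean of `D` over the cube -/

set_option autoImplicit false
namespace Pool.Alm48
open scoped BigOperators
open Finset

/-- flip one bit -/
def c3a_flip {n : ℕ} (i : Fin n) (x : V n) : V n := Function.update x i (! x i)

theorem c3a_flip_flip {n : ℕ} (i : Fin n) (x : V n) : c3a_flip i (c3a_flip i x) = x := by
  funext j
  unfold c3a_flip
  by_cases hj : j = i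
  · subst hj; simp
  · simp [Function.update_of_ne hj]

theorem c3a_sum_flip {n : ℕ} (i : Fin n) (F : V n → ℝ) :
    ∑ x, F (c3a_flip i x) = ∑ x, F x :=
  Equiv.sum_comp (⟨c3a_flip i, c3a_flip i, c3a_flip_flip i, c3a_flip_flip i⟩ : V n ≃ V n) F

theorem c3a_bt_flip {n : ℕ} (i : Fin n) (x : V n) :
    bt (c3a_flip i x) (i.val + 1) = 1 - bt x (i.val + 1) := by
  rw [bt_succ, bt_succ]
  unfold c3a_flip
  rw [Function.update_self]
  cases x i <;> simp

theorem c3a_bt_flip_ne {n : ℕ} (i : Fin n) (x : V n) {j : ℕ} (hj : j ≠ i.val + 1) :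
    bt (c3a_flip i x) j = bt x j := by
  rcases Nat.eq_zero_or_pos j with rfl | h0
  · rw [bt_zero, bt_zero]
  · by_cases hn : n < j
    · rw [bt_big _ hn, bt_big _ hn]
    · obtain ⟨k, rfl⟩ : ∃ k, j = k + 1 := ⟨j - 1, by omega⟩
      have hk : k < n := by omega
      have e1 := bt_succ (c3a_flip i x) ⟨k, hk⟩
      have e2 := bt_succ x ⟨k, hk⟩
      simp only at e1 e2
      rw [e1, e2]
      have hne : (⟨k, hk⟩ : Fin n) ≠ i := by
        intro h
        apply hj
        rw [← h]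
      unfold c3a_flip
      rw [Function.update_of_ne hne]

theorem c3a_card (n : ℕ) : ∑ _x : V n, (1 : ℝ) = 2 ^ n := by
  rw [sum_const, card_univ]
  simp

theorem c3a_sum_bt (n j : ℕ) (hj : j ≤ n) : ∑ x : V n, bt x j = 2 ^ n / 2 := by
  rcases Nat.eq_zero_or_pos j with rfl | h0
  · have h : ∑ x : V n, bt x 0 = ∑ _x : V n, (1 : ℝ) / 2 :=
      sum_congr rfl (fun x _ => bt_zero x)
    rw [h, ← sum_div, c3a_card]
  · obtain ⟨k, rfl⟩ : ∃ k, j = k + 1 := ⟨j - 1, by omega⟩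
    have hk : k < n := by omega
    have h1 := c3a_sum_flip (⟨k, hk⟩ : Fin n) (fun x => bt x (k + 1))
    have h2 : ∑ x : V n, bt (c3a_flip (⟨k, hk⟩ : Fin n) x) (k + 1) =
        ∑ x : V n, (1 - bt x (k + 1)) :=
      sum_congr rfl (fun x _ => c3a_bt_flip (⟨k, hk⟩ : Fin n) x)
    rw [h2, sum_sub_distrib, c3a_card] at h1
    linarith

theorem c3a_sum_pair (n i : ℕ) (hi : i < n) :
    ∑ x : V n, bt x i * (1 - bt x (i + 1)) = 2 ^ n / 4 := by
  have h1 := c3a_sum_flip (⟨i, hi⟩ : Fin n) (fun x => bt x i * bt x (i + 1))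
  have h2 : ∑ x : V n, bt (c3a_flip (⟨i, hi⟩ : Fin n) x) i *
      bt (c3a_flip (⟨i, hi⟩ : Fin n) x) (i + 1) = ∑ x : V n, bt x i * (1 - bt x (i + 1)) := by
    apply sum_congr rfl
    intro x _
    rw [c3a_bt_flip_ne (⟨i, hi⟩ : Fin n) x (j := i) (by simp)]
    have := c3a_bt_flip (⟨i, hi⟩ : Fin n) x
    simp only at this
    rw [this]
  rw [h2] at h1
  have h3 := c3a_sum_bt n i hi.le
  have h4 : ∑ x : V n, bt x i * (1 - bt x (i + 1)) + ∑ x : V n, bt x i * bt x (i + 1) =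
      ∑ x : V n, bt x i := by
    rw [← sum_add_distrib]
    apply sum_congr rfl
    intro x _
    ring
  rw [h3] at h4
  linarith

theorem c3a_sum_w_aux (n m : ℕ) : ∑ i ∈ range m, w n i =
    (m : ℝ) * n * (n + 1) - ((m : ℝ) - 1) * m * (m + 1) / 3 := by
  induction m with
  | zero => simp
  | succ k ih =>
    rw [sum_range_succ, ih]
    unfold w
    push_cast
    ring

theorem c3a_sum_w (n : ℕ) : ∑ i ∈ range n, w n i = (n : ℝ) * (n + 1) * (2 * n + 1) / 3 := by
  rw [c3a_sum_w_aux]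
  ring

theorem sum_D (n : ℕ) : ∑ x : V n, D x = 2 ^ n * Dbar n := by
  unfold D
  rw [sum_comm]
  have h : ∀ i ∈ range n, ∑ x : V n, w n i * bt x i * (1 - bt x (i + 1)) =
      w n i * (2 ^ n / 4) := by
    intro i hi
    rw [← c3a_sum_pair n i (mem_range.1 hi), mul_sum]
    apply sum_congr rfl
    intro x _
    ring
  rw [sum_congr rfl h, ← sum_mul, c3a_sum_w]
  unfold Dbar
  ring

theorem sum_D_comp (n : ℕ) : ∑ x : V n, D (comp x) = 2 ^ n * Dbar n := by
  rw [← sum_D n]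
  exact Equiv.sum_comp (⟨comp, comp, comp_comp, comp_comp⟩ : V n ≃ V n) D

end Pool.Alm48
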