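import Pool.Agent.Alm48.A4a
import Pool.Agent.Alm48.Defs

/-! ALM48, task C3b: the mean rank -/

set_option autoImplicit false

namespace Pool.Alm48

open scoped BigOperators
open Finset

/-- the complement as a permutation of the cube -/
def c3b_equiv (n : ℕ) : V n ≃ V n where
  toFun := comp
  invFun := comp
  left_inv := comp_comp
  right_inv := comp_comp

theorem sum_rk (n : ℕ) : ∑ x : V n, (rk x : ℝ) = 2 ^ n * ((NN n : ℝ) / 2) := by
  have h1 : ∑ x : V n, (rk (comp x) : ℝ) = ∑ x : V n, (rk x : ℝ) :=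
    Equiv.sum_comp (c3b_equiv n) (fun x : V n => (rk x : ℝ))
  have h2 : ∑ x : V n, ((rk x : ℝ) + (rk (comp x) : ℝ)) = 2 ^ n * (NN n : ℝ) := by
    have h3 : ∀ x ∈ (univ : Finset (V n)), ((rk x : ℝ) + (rk (comp x) : ℝ)) = (NN n : ℝ) := by
      intro x _
      exact_mod_cast rk_comp x
    rw [sum_congr rfl h3, sum_const, card_univ, nsmul_eq_mul]
    congr 1
    rw [Fintype.card_fun, Fintype.card_bool, Fintype.card_fin]
    push_cast
    rfl
  rw [sum_add_distrib, h1] at h2
  linarith

end Pool.Alm48
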