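import Pool.Agent.Alm48.C1b
import Pool.Agent.Alm48.C2
import Pool.Agent.Alm48.C3a
import Pool.Agent.Alm48.C3b
import Pool.Agent.Alm48.Defs

set_option autoImplicit false

namespace Pool.Alm48

open scoped BigOperators
open Finset



theorem c4_comp_update {n : ℕ} (x : V n) (i : Fin n) (b : Bool) :
    comp (Function.update x i b) = Function.update (comp x) i (!b) := by
  funext j
  unfold comp
  by_cases h : j = i
  · subst h; simp
  · simp [Function.update_of_ne h]

theorem badAll_le {n : ℕ} (hn : 1 ≤ n) (t : ℝ) (ht : 0 ≤ t) :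
    (badAll n t : ℝ) ≤ 4 * 2 ^ n * Real.exp (-(t ^ 2 / (8 * (n : ℝ) ^ 5))) := by
  have hn' : (0 : ℝ) < n := by exact_mod_cast hn
  have hc : (0 : ℝ) < 4 * (n : ℝ) ^ 2 := by positivity
  have h1 := tail_cube (n := n) (fun x : V n => D x) (4 * (n : ℝ) ^ 2) hc hn
    (fun x i b => D_update x i b) (Dbar n) (sum_D n) t ht
  have h2 := tail_cube (n := n) (fun x : V n => D (comp x)) (4 * (n : ℝ) ^ 2) hc hn
    (fun x i b => by
      have := D_update (comp x) i (!b)
      rw [← c4_comp_update] at this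
      exact this) (Dbar n) (sum_D_comp n) t ht
  have he : 2 * t ^ 2 / ((n : ℝ) * (4 * (n : ℝ) ^ 2) ^ 2) = t ^ 2 / (8 * (n : ℝ) ^ 5) := by
    field_simp
    ring
  rw [he] at h1 h2
  have h3 : badAll n t ≤
      ((univ : Finset (V n)).filter (fun x => t < |D x - Dbar n|)).card +
      ((univ : Finset (V n)).filter (fun x => t < |D (comp x) - Dbar n|)).card := by
    unfold badAll
    refine le_trans (Finset.card_le_card ?_) (Finset.card_union_le _ _)
    intro x hx
    simp only [Finset.mem_filter, Finset.mem_univ, true_and, Finset.mem_union] at hx ⊢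
    exact hx
  have h4 : (badAll n t : ℝ) ≤
      (((univ : Finset (V n)).filter (fun x => t < |D x - Dbar n|)).card : ℝ) +
      (((univ : Finset (V n)).filter (fun x => t < |D (comp x) - Dbar n|)).card : ℝ) := by
    exact_mod_cast h3
  calc (badAll n t : ℝ) ≤ _ := h4
    _ ≤ 2 * 2 ^ n * Real.exp (-(t ^ 2 / (8 * (n : ℝ) ^ 5))) +
        2 * 2 ^ n * Real.exp (-(t ^ 2 / (8 * (n : ℝ) ^ 5))) := add_le_add h1 h2
    _ = 4 * 2 ^ n * Real.exp (-(t ^ 2 / (8 * (n : ℝ) ^ 5))) := by ring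

theorem rank_tail {n : ℕ} (hn : 1 ≤ n) (s : ℝ) (hs : 0 ≤ s) :
    (((univ : Finset (V n)).filter (fun x => s < |(rk x : ℝ) - (NN n : ℝ) / 2|)).card : ℝ) ≤
      2 * 2 ^ n * Real.exp (-(2 * s ^ 2 / (n : ℝ) ^ 3)) := by
  have hn' : (0 : ℝ) < n := by exact_mod_cast hn
  have h1 := tail_cube (n := n) (fun x : V n => (rk x : ℝ)) (n : ℝ) hn' hn
    (fun x i b => rk_update x i b) ((NN n : ℝ) / 2) (sum_rk n) s hs
  have he : (n : ℝ) * (n : ℝ) ^ 2 = (n : ℝ) ^ 3 := by ring
  rw [he] at h1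
  exact h1

end Pool.Alm48
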