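import Pool.Agent.Alm48.A1
import Pool.Agent.Alm48.A3b
import Pool.Agent.Alm48.A4a
import Pool.Agent.Alm48.B2a
import Pool.Agent.Alm48.Defs
set_option autoImplicit false
namespace Pool.Alm48
open scoped BigOperators
open Finset



/-- the flow on the pair `(x,y)` -/
noncomputable def fl {n : ℕ} (x y : V n) : ℝ :=
  ∑ i ∈ (ups x).filter (fun i => mvUp x i = y), Wt n i / 2 * (al x + al (comp y))

theorem d0_filter {n : ℕ} (x y : V n) :
    (ups x).filter (fun i => mvUp x i = y)
      = (ups (comp y)).filter (fun i => mvUp (comp y) i = comp x) := by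
  ext i
  rw [Finset.mem_filter, Finset.mem_filter]
  constructor
  · rintro ⟨h1, rfl⟩
    exact comp_edge h1
  · rintro ⟨h1, h2⟩
    have h3 := comp_edge h1
    rw [h2, comp_comp, comp_comp] at h3
    exact h3

theorem fl_comp {n : ℕ} (x y : V n) : fl x y = fl (comp y) (comp x) := by
  unfold fl
  rw [← d0_filter x y, comp_comp]
  refine Finset.sum_congr rfl (fun i _ => ?_)
  rw [add_comm (al x)]

theorem sum_fl_right {n : ℕ} (x : V n) : ∑ y, fl x y = outf x := by
  unfold fl outf
  rw [← Finset.sum_fiberwise (ups x) (fun i => mvUp x i)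
    (fun i => Wt n i / 2 * (al x + al (comp (mvUp x i))))]
  refine Finset.sum_congr rfl (fun y _ => ?_)
  refine Finset.sum_congr rfl (fun i hi => ?_)
  rw [(Finset.mem_filter.1 hi).2]

theorem sum_fl_left {n : ℕ} (y : V n) : ∑ x, fl x y = outf (comp y) := by
  rw [← sum_fl_right (comp y)]
  have hinv : Function.Involutive (comp : V n → V n) := comp_comp
  rw [← Equiv.sum_comp hinv.toPerm (fun z => fl (comp y) z)]
  refine Finset.sum_congr rfl (fun x _ => ?_)
  exact fl_comp x y

theorem fl_eq_zero {n : ℕ} {x y : V n} (h : ¬ Step x y) : fl x y = 0 := by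
  unfold fl
  have h1 : (ups x).filter (fun i => mvUp x i = y) = ∅ := by
    rw [Finset.filter_eq_empty_iff]
    intro i hi he
    exact h ((step_iff x y).2 ⟨i, hi, he.symm⟩)
  rw [h1, Finset.sum_empty]

theorem fl_nonneg {n : ℕ} (hn : 1000 ≤ n) {x y : V n} (hx : (n : ℝ) ^ 3 / 8 ≤ D x)
    (hy : (n : ℝ) ^ 3 / 8 ≤ D (comp y)) : 0 ≤ fl x y := by
  unfold fl
  refine Finset.sum_nonneg (fun i _ => ?_)
  have h1 : 0 ≤ Wt n i := Wt_nonneg i.isLt.le
  have h2 := al_nonneg hn x hx
  have h3 := al_nonneg hn (comp y) hy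
  positivity

end Pool.Alm48
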