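import Pool.Agent.Alm48.B2a
import Pool.Agent.Alm48.B2b
import Pool.Agent.Alm48.Defs

set_option autoImplicit false
namespace Pool.Alm48
open scoped BigOperators
open Finset



/-- the error parameter -/
noncomputable def eta (n : ℕ) (R t : ℝ) : ℝ := 10 ^ 7 * (1 / (n : ℝ) ^ 2 + R * t / (n : ℝ) ^ 6)

theorem d1a_Dbar_ge (n : ℕ) : (n : ℝ) ^ 3 / 6 ≤ Dbar n := by
  unfold Dbar
  have hn : (0 : ℝ) ≤ (n : ℝ) := Nat.cast_nonneg n
  nlinarith [mul_nonneg hn hn]

/-- flow bounds, for one `x` with `D x` within `2t` of the mean -/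
theorem out_near {n : ℕ} (hn : 1000 ≤ n) {R t : ℝ} (ht : 8 * (n : ℝ) ^ 2 ≤ t) (ht' : t ≤ (n : ℝ) ^ 3 / 100)
    (hR : 1 ≤ R) (x : V n) (hδ : |dl x| ≤ R + 2) (hx : |D x - Dbar n| ≤ 2 * t) :
    |outf x - (1 + dl x / (2 * Dbar n))| ≤ eta n R t / 2 := by
  have hn0 : (1000 : ℝ) ≤ (n : ℝ) := by exact_mod_cast hn
  have hnpos : (0 : ℝ) < (n : ℝ) := by linarith
  have hn3 : (0 : ℝ) < (n : ℝ) ^ 3 := by positivity
  have ht0 : 0 ≤ t := le_trans (by positivity) ht
  have hDb := d1a_Dbar_ge n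
  have hx' := abs_le.1 hx
  have hD : (n : ℝ) ^ 3 / 8 ≤ D x := by
    linarith [hx'.1]
  have hmain := out_main (by omega) x hD
  have hDbpos : 0 < Dbar n := by linarith
  have hDpos : 0 < D x := by linarith
  have hdiff : |dl x / (2 * D x) - dl x / (2 * Dbar n)| ≤ 144 * (R * t / (n : ℝ) ^ 6) := by
    have e1 : dl x / (2 * D x) - dl x / (2 * Dbar n)
        = - (dl x * (D x - Dbar n)) / (2 * D x * Dbar n) := by
      field_simp
      ring
    rw [e1, abs_div, abs_neg, abs_mul, abs_of_pos (by positivity : 0 < 2 * D x * Dbar n)]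
    have h1 : |dl x| * |D x - Dbar n| ≤ (3 * R) * (2 * t) :=
      mul_le_mul (by linarith) hx (abs_nonneg _) (by linarith)
    have h2 : (n : ℝ) ^ 6 / 24 ≤ 2 * D x * Dbar n := by
      have : ((n : ℝ) ^ 3 / 8) * ((n : ℝ) ^ 3 / 6) ≤ D x * Dbar n :=
        mul_le_mul hD hDb (by positivity) hDpos.le
      nlinarith [this]
    have h3 : 0 < (n : ℝ) ^ 6 / 24 := by positivity
    calc |dl x| * |D x - Dbar n| / (2 * D x * Dbar n)
        ≤ ((3 * R) * (2 * t)) / ((n : ℝ) ^ 6 / 24) :=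
          div_le_div₀ (by positivity) h1 h3 h2
      _ = 144 * (R * t / (n : ℝ) ^ 6) := by
          field_simp
          ring
  have htri : |outf x - (1 + dl x / (2 * Dbar n))| ≤
      |outf x - (1 + dl x / (2 * D x))| + |dl x / (2 * D x) - dl x / (2 * Dbar n)| := by
    have : outf x - (1 + dl x / (2 * Dbar n)) =
      (outf x - (1 + dl x / (2 * D x))) + (dl x / (2 * D x) - dl x / (2 * Dbar n)) := by ring
    rw [this]
    exact abs_add_le _ _
  have hR0 : 0 ≤ R * t / (n : ℝ) ^ 6 := by positivity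
  have hq : 0 ≤ 1 / (n : ℝ) ^ 2 := by positivity
  have e2 : (10 : ℝ) ^ 6 / (n : ℝ) ^ 2 = 10 ^ 6 * (1 / (n : ℝ) ^ 2) := by ring
  unfold eta
  rw [e2] at hmain
  linarith

end Pool.Alm48
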