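import Pool.Agent.Alm48.A3a
import Pool.Agent.Alm48.A3b
import Pool.Agent.Alm48.A4a
import Pool.Agent.Alm48.B2a
import Pool.Agent.Alm48.D0
import Pool.Agent.Alm48.D1a
import Pool.Agent.Alm48.Defs

/-! D1b : near normalized matching, lower bound for the neighbourhood. -/

set_option autoImplicit false
namespace Pool.Alm48
open scoped BigOperators
open Finset



theorem d1b_close {n : ℕ} (hn : 2 ≤ n) {x y : V n} (h : Step x y) :
    |D (comp y) - D x| ≤ 6 * (n : ℝ) ^ 2 := by
  obtain ⟨i, hi, rfl⟩ := (step_iff x y).mp h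
  exact D_comp_mvUp_close hn hi

theorem d1b_Dbar {n : ℕ} : (n : ℝ) ^ 3 / 6 ≤ Dbar n := by
  unfold Dbar
  have : (0 : ℝ) ≤ n := by positivity
  nlinarith [sq_nonneg (n : ℝ)]

theorem d1b_nonneg {n : ℕ} (hn : 1000 ≤ n) {t : ℝ} (ht' : t ≤ (n : ℝ) ^ 3 / 100) {y : V n}
    (hy : |D (comp y) - Dbar n| ≤ 2 * t) (x : V n) : 0 ≤ fl x y := by
  by_cases h : Step x y
  · have hc := d1b_close (by omega) h
    have hD := d1b_Dbar (n := n)
    have hnR : (1000 : ℝ) ≤ n := by exact_mod_cast hn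
    have h2 : 6 * (n : ℝ) ^ 2 ≤ (n : ℝ) ^ 3 * (6 / 1000) := by
      nlinarith [sq_nonneg (n : ℝ)]
    have h3 : 0 ≤ (n : ℝ) ^ 3 := by positivity
    rw [abs_le] at hc hy
    apply fl_nonneg hn
    · linarith [hc.1, hc.2, hy.1, hy.2]
    · linarith [hc.1, hc.2, hy.1, hy.2]
  · rw [fl_eq_zero h]

theorem d1b_NN (n : ℕ) : 2 * (NN n : ℝ) = (n : ℝ) * (n + 1) := by
  have h : 2 * NN n = n * (n + 1) := by
    unfold NN
    exact Nat.mul_div_cancel' (Nat.even_mul_succ_self n).two_dvd
  exact_mod_cast h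

/-- `|κ| ≤ 1/100` -/
theorem d1b_kappa {n : ℕ} (hn : 1000 ≤ n) {k : ℕ} (hk : 1 ≤ k) (hkN : k ≤ NN n) :
    |((NN n : ℝ) - 2 * k) / (2 * Dbar n)| ≤ 1 / 100 := by
  have hnR : (1000 : ℝ) ≤ n := by exact_mod_cast hn
  have hD : 0 < 2 * Dbar n := by
    unfold Dbar; positivity
  have hN := d1b_NN n
  have hk1 : (1 : ℝ) ≤ k := by exact_mod_cast hk
  have hk2 : (k : ℝ) ≤ NN n := by exact_mod_cast hkN
  have h1 : (NN n : ℝ) ≤ 1 / 100 * (2 * Dbar n) := by
    unfold Dbar
    have h4 : 0 ≤ (n : ℝ) * (n + 1) := by positivity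
    nlinarith
  rw [abs_le]
  constructor
  · rw [le_div_iff₀ hD]; linarith
  · rw [div_le_iff₀ hD]; linarith

theorem nearNM1 {n : ℕ} (hn : 1000 ≤ n) {R t : ℝ} (ht : 8 * (n : ℝ) ^ 2 ≤ t)
    (ht' : t ≤ (n : ℝ) ^ 3 / 100) (hR : 1 ≤ R) (hη : eta n R t ≤ 1 / 100)
    {k : ℕ} (hk : 1 ≤ k) (hkN : k ≤ NN n) (hδ : |(NN n : ℝ) - 2 * k| ≤ R)
    (A : Finset (V n)) (hA : A ⊆ lev n (k - 1)) :
    (1 + ((NN n : ℝ) - 2 * k) / Dbar n) * (A.card : ℝ) ≤
      ((Gam A).card : ℝ) + (2 * eta n R t * (lev n (k - 1)).card + 2 * badk n t (k - 1)) := by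
  classical
  have hnR : (1000 : ℝ) ≤ n := by exact_mod_cast hn
  have hDb : 0 < Dbar n := by unfold Dbar; positivity
  have ht0 : 0 ≤ t := le_trans (by positivity) ht
  have hη0 : 0 ≤ eta n R t := by
    unfold eta; positivity
  set κ : ℝ := ((NN n : ℝ) - 2 * k) / (2 * Dbar n) with hκ
  have hκ1 : |κ| ≤ 1 / 100 := d1b_kappa hn hk hkN
  have hκ2 : ((NN n : ℝ) - 2 * k) / Dbar n = 2 * κ := by
    rw [hκ]; field_simp
  set η := eta n R t with hηdef
  set G := A.filter (fun x => ¬ Bad t x) with hG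
  set B := A.filter (fun x => Bad t x) with hB
  have hcard : (A.card : ℝ) = G.card + B.card := by
    have h := Finset.card_filter_add_card_filter_not (s := A) (fun x => Bad t x)
    rw [← hB, ← hG] at h
    rw [← h]; push_cast; ring
  have hBk : (B.card : ℝ) ≤ badk n t (k - 1) := by
    unfold badk
    exact_mod_cast Finset.card_le_card (by
      intro x hx
      rw [hB, Finset.mem_filter] at hx
      rw [Finset.mem_filter]
      exact ⟨hA hx.1, hx.2⟩)
  have hGlev : (G.card : ℝ) ≤ (lev n (k - 1)).card := by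
    exact_mod_cast Finset.card_le_card (by
      intro x hx
      exact hA (Finset.mem_filter.mp hx).1)
  -- ranks
  have hrk : ∀ x ∈ A, rk x = k - 1 := by
    intro x hx
    have := hA hx
    unfold lev at this
    exact (Finset.mem_filter.mp this).2
  have hgood : ∀ x ∈ G, |D x - Dbar n| ≤ t := by
    intro x hx
    have hb := (Finset.mem_filter.mp hx).2
    unfold Bad at hb
    push Not at hb
    exact hb.1
  have hout : ∀ x ∈ G, 1 + (κ - η / 2) ≤ outf x := by
    intro x hx
    have hr := hrk x (Finset.mem_filter.mp hx).1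
    have hdl : dl x = (NN n : ℝ) - 2 * k := by
      unfold dl
      rw [hr]
      have : ((k - 1 : ℕ) : ℝ) = (k : ℝ) - 1 := by
        push_cast [Nat.cast_sub hk]; ring
      rw [this]; ring
    have h := out_near hn ht ht' hR x (by rw [hdl]; linarith) (by linarith [hgood x hx])
    rw [hdl, ← hκ, abs_le] at h
    linarith [h.1]
  -- the neighbours of good elements
  have hY : ∀ y ∈ Gam G, (∃ x ∈ G, Step x y) := by
    intro y hy
    unfold Gam at hy
    exact (Finset.mem_filter.mp hy).2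
  have hYc : ∀ y ∈ Gam G, |D (comp y) - Dbar n| ≤ 2 * t := by
    intro y hy
    obtain ⟨x, hx, hs⟩ := hY y hy
    have h1 := d1b_close (by omega) hs
    have h2 := hgood x hx
    have h3 : 6 * (n : ℝ) ^ 2 ≤ 8 * (n : ℝ) ^ 2 := by nlinarith [sq_nonneg (n : ℝ)]
    calc |D (comp y) - Dbar n| = |(D (comp y) - D x) + (D x - Dbar n)| := by ring_nf
      _ ≤ |D (comp y) - D x| + |D x - Dbar n| := abs_add_le _ _
      _ ≤ 2 * t := by linarith
  have hin : ∀ y ∈ Gam G, outf (comp y) ≤ 1 - (κ - η / 2) := by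
    intro y hy
    obtain ⟨x, hx, hs⟩ := hY y hy
    have hr := hrk x (Finset.mem_filter.mp hx).1
    have hry : rk y = k := by rw [rk_step hs, hr]; omega
    have hrc : (rk (comp y) : ℝ) = (NN n : ℝ) - k := by
      have := rk_comp y
      rw [hry] at this
      have h' : (k : ℝ) + (rk (comp y) : ℝ) = (NN n : ℝ) := by exact_mod_cast this
      linarith
    have hdl : dl (comp y) = -((NN n : ℝ) - 2 * k) - 2 := by
      unfold dl
      rw [hrc]; ring
    have hab : |dl (comp y)| ≤ R + 2 := by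
      rw [hdl]
      rw [abs_le] at hδ ⊢
      constructor <;> linarith [hδ.1, hδ.2]
    have h := out_near hn ht ht' hR (comp y) hab (hYc y hy)
    have e : dl (comp y) / (2 * Dbar n) = -κ - 1 / Dbar n := by
      rw [hdl, hκ]; field_simp
    rw [e, abs_le] at h
    have hp : 0 < 1 / Dbar n := by positivity
    linarith [h.2]
  -- double counting
  have hdc : (1 + (κ - η / 2)) * (G.card : ℝ) ≤ (1 - (κ - η / 2)) * ((Gam G).card : ℝ) := by
    calc (1 + (κ - η / 2)) * (G.card : ℝ) = ∑ x ∈ G, (1 + (κ - η / 2)) := by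
          rw [Finset.sum_const, nsmul_eq_mul]; ring
      _ ≤ ∑ x ∈ G, outf x := Finset.sum_le_sum hout
      _ = ∑ x ∈ G, ∑ y ∈ Gam G, fl x y := by
          apply Finset.sum_congr rfl
          intro x hx
          rw [← sum_fl_right x]
          symm
          apply Finset.sum_subset (Finset.subset_univ _)
          intro y _ hy
          apply fl_eq_zero
          intro hs
          apply hy
          unfold Gam
          rw [Finset.mem_filter]
          exact ⟨Finset.mem_univ _, x, hx, hs⟩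
      _ = ∑ y ∈ Gam G, ∑ x ∈ G, fl x y := Finset.sum_comm
      _ ≤ ∑ y ∈ Gam G, ∑ x, fl x y := by
          apply Finset.sum_le_sum
          intro y hy
          apply Finset.sum_le_sum_of_subset_of_nonneg (Finset.subset_univ _)
          intro x _ _
          exact d1b_nonneg hn ht' (hYc y hy) x
      _ = ∑ y ∈ Gam G, outf (comp y) := by
          apply Finset.sum_congr rfl
          intro y _
          rw [sum_fl_left]
      _ ≤ ∑ y ∈ Gam G, (1 - (κ - η / 2)) := Finset.sum_le_sum hin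
      _ = (1 - (κ - η / 2)) * ((Gam G).card : ℝ) := by
          rw [Finset.sum_const, nsmul_eq_mul]; ring
  have hGam : ((Gam G).card : ℝ) ≤ (Gam A).card := by
    exact_mod_cast Finset.card_le_card (by
      intro y hy
      obtain ⟨x, hx, hs⟩ := hY y hy
      unfold Gam
      rw [Finset.mem_filter]
      exact ⟨Finset.mem_univ _, x, (Finset.mem_filter.mp hx).1, hs⟩)
  rw [abs_le] at hκ1
  have hu1 : κ - η / 2 ≤ 1 / 100 := by linarith [hκ1.2]
  have hg0 : (0 : ℝ) ≤ G.card := by positivity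
  have hB0 : (0 : ℝ) ≤ B.card := by positivity
  have hkey : (1 + 2 * (κ - η / 2)) * (G.card : ℝ) ≤ ((Gam G).card : ℝ) := by
    have h1 : 0 < 1 - (κ - η / 2) := by linarith
    have h2 : (1 - (κ - η / 2)) * ((1 + 2 * (κ - η / 2)) * (G.card : ℝ)) ≤
        (1 - (κ - η / 2)) * ((Gam G).card : ℝ) := by
      refine le_trans ?_ hdc
      have : 0 ≤ (κ - η / 2) ^ 2 * (G.card : ℝ) := by positivity
      nlinarith
    exact le_of_mul_le_mul_left h2 h1
  rw [hκ2, hcard]
  have h3 : η * (G.card : ℝ) ≤ η * (lev n (k - 1)).card := mul_le_mul_of_nonneg_left hGlev hη0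
  have h4 : 0 ≤ η * (lev n (k - 1)).card := by positivity
  have h5 : (1 + 2 * κ) * (B.card : ℝ) ≤ 2 * B.card := by
    apply mul_le_mul_of_nonneg_right _ hB0
    linarith [hκ1.2]
  nlinarith

end Pool.Alm48
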