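import Pool.Agent.Alm48.A3a
import Pool.Agent.Alm48.A3b
import Pool.Agent.Alm48.A4a
import Pool.Agent.Alm48.B2a
import Pool.Agent.Alm48.D0
import Pool.Agent.Alm48.D1a
import Pool.Agent.Alm48.Defs

set_option autoImplicit false

namespace Pool.Alm48

open scoped BigOperators
open Finset



theorem d1c_dbar (n : ℕ) : (n : ℝ) ^ 3 / 6 ≤ Dbar n := by
  unfold Dbar
  have : (0 : ℝ) ≤ n := Nat.cast_nonneg n
  nlinarith [sq_nonneg (n : ℝ)]

theorem d1c_NN (n : ℕ) : (NN n : ℝ) = (n : ℝ) * (n + 1) / 2 := by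
  have h : 2 * NN n = n * (n + 1) := by
    unfold NN
    exact Nat.mul_div_cancel' (Nat.even_mul_succ_self n).two_dvd
  have h' : (2 : ℝ) * (NN n : ℝ) = (n : ℝ) * (n + 1) := by exact_mod_cast h
  linarith

/-- the size of `κ = δ/(2 Dbar)` -/
theorem d1c_kappa {n : ℕ} (hn : 1000 ≤ n) {k : ℕ} (hkN : k ≤ NN n) :
    |((NN n : ℝ) - 2 * k) / (2 * Dbar n)| * (2 * n) ≤ 3 := by
  have hn' : (1000 : ℝ) ≤ n := by exact_mod_cast hn
  have hD : 0 < Dbar n := by
    have := d1c_dbar n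
    have h3 : 0 < (n : ℝ) ^ 3 := by positivity
    linarith
  have hk0 : (0 : ℝ) ≤ k := Nat.cast_nonneg k
  have hk1 : (k : ℝ) ≤ NN n := by exact_mod_cast hkN
  have hδ : |(NN n : ℝ) - 2 * k| ≤ (n : ℝ) * (n + 1) / 2 := by
    rw [← d1c_NN, abs_le]
    constructor <;> linarith
  rw [abs_div, abs_of_pos (by linarith : 0 < 2 * Dbar n), div_mul_eq_mul_div,
    div_le_iff₀ (by linarith)]
  have h1 : |(NN n : ℝ) - 2 * k| * (2 * n) ≤ (n : ℝ) * (n + 1) / 2 * (2 * n) :=
    mul_le_mul_of_nonneg_right hδ (by linarith)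
  refine h1.trans ?_
  unfold Dbar
  nlinarith [mul_nonneg (by linarith : (0 : ℝ) ≤ n) (by linarith : (0 : ℝ) ≤ (n : ℝ) + 1)]

/-- neighbours of near-mean elements are near the mean -/
theorem d1c_close {n : ℕ} (hn : 1000 ≤ n) {x y : V n} (h : Step x y) :
    |D (comp y) - D x| ≤ 6 * (n : ℝ) ^ 2 := by
  obtain ⟨i, hi, rfl⟩ := (step_iff x y).1 h
  exact D_comp_mvUp_close (by omega) hi

theorem d1c_low {n : ℕ} (hn : 1000 ≤ n) {t : ℝ} (ht' : t ≤ (n : ℝ) ^ 3 / 100) {a b : ℝ}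
    (ha : |a - Dbar n| ≤ 2 * t) (hab : |b - a| ≤ 6 * (n : ℝ) ^ 2) : (n : ℝ) ^ 3 / 8 ≤ b := by
  have hn' : (1000 : ℝ) ≤ n := by exact_mod_cast hn
  have h1 := d1c_dbar n
  have h2 := (abs_le.1 ha).1
  have h3 := (abs_le.1 hab).1
  have h4 : 1000 * (n : ℝ) ^ 2 ≤ (n : ℝ) ^ 3 := by
    have : (n : ℝ) ^ 3 = n * (n : ℝ) ^ 2 := by ring
    rw [this]
    exact mul_le_mul_of_nonneg_right hn' (by positivity)
  have h5 : 0 ≤ (n : ℝ) ^ 2 := by positivity
  linarith

/-- `eta` is at least `10^7/n^2` -/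
theorem d1c_eta {n : ℕ} {R t : ℝ} (ht : 8 * (n : ℝ) ^ 2 ≤ t) (hR : 1 ≤ R) :
    10 ^ 7 * (1 / (n : ℝ) ^ 2) ≤ eta n R t := by
  unfold eta
  have h1 : 0 ≤ t := le_trans (by positivity) ht
  have h2 : 0 ≤ R * t / (n : ℝ) ^ 6 := by positivity
  linarith

/-- pure arithmetic at the end of the argument -/
theorem d1c_arith (κ η a b c : ℝ) (hη0 : 0 ≤ η) (hη : η ≤ 1 / 100) (hκ : |κ| ≤ 1 / 100)
    (hκ2 : 18 * κ ^ 2 ≤ η) (ha : 0 ≤ a) (hc : 0 ≤ c)
    (h : (1 - κ - η) * (b - c) ≤ (1 + κ + η / 2) * a) :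
    b ≤ (1 + 2 * κ) * a + (6 * η * a + c) := by
  have hκ' := abs_le.1 hκ
  have h1 : 0 < 1 - κ - η := by linarith [hκ'.2]
  have h2 : (1 + κ + η / 2) ≤ (1 - κ - η) * (1 + 2 * κ + 6 * η) := by
    nlinarith [sq_nonneg (κ + η), mul_nonneg hη0 (by linarith [hκ'.1] : (0 : ℝ) ≤ 1 / 100 + κ),
      mul_nonneg hη0 (by linarith [hκ'.2] : (0 : ℝ) ≤ 1 / 100 - κ),
      mul_nonneg hη0 (by linarith : (0 : ℝ) ≤ 1 / 100 - η)]
  have h3 : (1 - κ - η) * (b - c) ≤ (1 - κ - η) * ((1 + 2 * κ + 6 * η) * a) := by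
    refine h.trans ?_
    rw [← mul_assoc]
    exact mul_le_mul_of_nonneg_right h2 ha
  have h4 := le_of_mul_le_mul_left h3 h1
  linarith

theorem nearNM2 {n : ℕ} (hn : 1000 ≤ n) {R t : ℝ} (ht : 8 * (n : ℝ) ^ 2 ≤ t)
    (ht' : t ≤ (n : ℝ) ^ 3 / 100) (hR : 1 ≤ R) (hη : eta n R t ≤ 1 / 100)
    {k : ℕ} (hk : 1 ≤ k) (hkN : k ≤ NN n) (hδ : |(NN n : ℝ) - 2 * k| ≤ R) :
    ((lev n k).card : ℝ) ≤ (1 + ((NN n : ℝ) - 2 * k) / Dbar n) * ((lev n (k - 1)).card : ℝ)
      + (6 * eta n R t * (lev n (k - 1)).card + badk n t k) := by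
  classical
  have hn' : (1000 : ℝ) ≤ n := by exact_mod_cast hn
  have hnn2 : (1000 : ℝ) * 1000 ≤ (n : ℝ) ^ 2 := by nlinarith
  have hD6 := d1c_dbar n
  have hn3 : 1000 * (n : ℝ) ^ 2 ≤ (n : ℝ) ^ 3 := by
    have : (n : ℝ) ^ 3 = n * (n : ℝ) ^ 2 := by ring
    rw [this]
    exact mul_le_mul_of_nonneg_right hn' (by positivity)
  have hDpos : 0 < Dbar n := by nlinarith
  have ht0 : 0 ≤ t := le_trans (by positivity) ht
  set η := eta n R t with hηdef
  have hη1 : 10 ^ 7 * (1 / (n : ℝ) ^ 2) ≤ η := d1c_eta ht hR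
  have hη0 : 0 ≤ η := le_trans (by positivity) hη1
  set κ := ((NN n : ℝ) - 2 * k) / (2 * Dbar n) with hκdef
  have hκn : |κ| * (2 * n) ≤ 3 := d1c_kappa hn hkN
  have hκ100 : |κ| ≤ 1 / 100 := by
    have h1 : |κ| * 2000 ≤ |κ| * (2 * n) :=
      mul_le_mul_of_nonneg_left (by linarith) (abs_nonneg κ)
    linarith
  have hκ2 : 18 * κ ^ 2 ≤ η := by
    have h1 : (|κ| * (2 * n)) ^ 2 ≤ 3 ^ 2 :=
      pow_le_pow_left₀ (by positivity) hκn 2
    have h2 : (|κ| * (2 * n)) ^ 2 = 4 * κ ^ 2 * (n : ℝ) ^ 2 := by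
      rw [mul_pow, sq_abs]; ring
    have h3 : κ ^ 2 ≤ 9 / 4 * (1 / (n : ℝ) ^ 2) := by
      rw [h2] at h1
      rw [mul_one_div, le_div_iff₀ (by positivity)]
      linarith
    have h4 : 0 ≤ 1 / (n : ℝ) ^ 2 := by positivity
    linarith
  -- the truncated flow
  let g : V n → V n → ℝ := fun x y =>
    if |D x - Dbar n| ≤ 2 * t ∧ |D (comp y) - Dbar n| ≤ 2 * t then fl x y else 0
  let G : Finset (V n) := (lev n k).filter (fun y => |D (comp y) - Dbar n| ≤ t)
  -- good elements receive enough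
  have hA : ∀ y ∈ G, 1 - κ - η ≤ ∑ x ∈ lev n (k - 1), g x y := by
    intro y hy
    rw [Finset.mem_filter] at hy
    obtain ⟨hyk, hyD⟩ := hy
    have hrk : rk y = k := by simpa [lev] using hyk
    have h1 : ∑ x ∈ lev n (k - 1), g x y = ∑ x ∈ lev n (k - 1), fl x y := by
      refine Finset.sum_congr rfl ?_
      intro x _
      by_cases hs : Step x y
      · have h2 := d1c_close hn hs
        have h3 : |D x - Dbar n| ≤ 2 * t := by
          have h4 : D x - Dbar n = (D (comp y) - Dbar n) - (D (comp y) - D x) := by ring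
          rw [h4]
          refine (abs_sub _ _).trans ?_
          nlinarith
        have h5 : |D (comp y) - Dbar n| ≤ 2 * t := by linarith
        simp only [g, if_pos (And.intro h3 h5)]
      · simp only [g, fl_eq_zero hs, ite_self]
    have h2 : ∑ x ∈ lev n (k - 1), fl x y = ∑ x, fl x y := by
      refine Finset.sum_subset (Finset.subset_univ _) ?_
      intro x _ hx
      apply fl_eq_zero
      intro hs
      apply hx
      have := rk_step hs
      simp only [lev, Finset.mem_filter, Finset.mem_univ, true_and]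
      omega
    rw [h1, h2, sum_fl_left]
    have hdl : dl (comp y) = -((NN n : ℝ) - 2 * k) - 2 := by
      unfold dl
      have h3 := rk_comp y
      rw [hrk] at h3
      have h4 : (k : ℝ) + (rk (comp y) : ℝ) = NN n := by exact_mod_cast h3
      linarith
    have h3 := out_near hn ht ht' hR (comp y) (by
      rw [hdl]
      have h4 := abs_le.1 hδ
      rw [abs_le]
      constructor <;> linarith) (by linarith)
    have h4 := (abs_le.1 h3).1
    have h5 : dl (comp y) / (2 * Dbar n) = -κ - 1 / Dbar n := by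
      rw [hdl, hκdef]
      field_simp
    rw [h5] at h4
    have h6 : 1 / Dbar n ≤ η / 2 := by
      have h7 : 1 / Dbar n ≤ 1 / (n : ℝ) ^ 2 := by
        apply one_div_le_one_div_of_le (by positivity)
        linarith
      have h8 : 0 ≤ 1 / (n : ℝ) ^ 2 := by positivity
      linarith
    linarith
  -- every element gives at most
  have hB : ∀ x ∈ lev n (k - 1), ∑ y ∈ G, g x y ≤ 1 + κ + η / 2 := by
    intro x hx
    have hrk : rk x = k - 1 := by simpa [lev] using hx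
    by_cases hxD : |D x - Dbar n| ≤ 2 * t
    · have hx8 : (n : ℝ) ^ 3 / 8 ≤ D x := by
        refine d1c_low hn ht' hxD ?_
        rw [sub_self, abs_zero]; positivity
      have hfl : ∀ y, 0 ≤ fl x y := by
        intro y
        by_cases hs : Step x y
        · exact fl_nonneg hn hx8 (d1c_low hn ht' hxD (d1c_close hn hs))
        · rw [fl_eq_zero hs]
      have h1 : ∑ y ∈ G, g x y ≤ ∑ y, fl x y := by
        refine le_trans (Finset.sum_le_sum (g := fun y => fl x y) ?_)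
          (Finset.sum_le_sum_of_subset_of_nonneg (Finset.subset_univ _) (fun y _ _ => hfl y))
        intro y _
        simp only [g]
        split_ifs
        · exact le_rfl
        · exact hfl y
      rw [sum_fl_right] at h1
      have hdl : dl x = (NN n : ℝ) - 2 * k := by
        unfold dl
        rw [hrk, Nat.cast_sub hk]
        push_cast
        ring
      have h3 := out_near hn ht ht' hR x (by rw [hdl]; linarith) hxD
      have h4 := (abs_le.1 h3).2
      rw [hdl, ← hκdef] at h4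
      linarith
    · have h1 : ∑ y ∈ G, g x y = 0 := by
        refine Finset.sum_eq_zero ?_
        intro y _
        simp only [g]
        rw [if_neg]
        exact fun h => hxD h.1
      rw [h1]
      have := (abs_le.1 hκ100).1
      linarith
  have hsum : (1 - κ - η) * (G.card : ℝ) ≤ (1 + κ + η / 2) * ((lev n (k - 1)).card : ℝ) := by
    calc (1 - κ - η) * (G.card : ℝ) = ∑ y ∈ G, (1 - κ - η) := by
          rw [Finset.sum_const, nsmul_eq_mul, mul_comm]
      _ ≤ ∑ y ∈ G, ∑ x ∈ lev n (k - 1), g x y := Finset.sum_le_sum hA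
      _ = ∑ x ∈ lev n (k - 1), ∑ y ∈ G, g x y := Finset.sum_comm
      _ ≤ ∑ x ∈ lev n (k - 1), (1 + κ + η / 2) := Finset.sum_le_sum hB
      _ = (1 + κ + η / 2) * ((lev n (k - 1)).card : ℝ) := by
          rw [Finset.sum_const, nsmul_eq_mul, mul_comm]
  have hcard : ((lev n k).card : ℝ) - badk n t k ≤ G.card := by
    have h1 : (lev n k).card ≤ G.card + badk n t k := by
      unfold badk
      refine le_trans (Finset.card_le_card ?_) (Finset.card_union_le _ _)
      intro y hy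
      by_cases hyD : |D (comp y) - Dbar n| ≤ t
      · exact Finset.mem_union_left _ (Finset.mem_filter.2 ⟨hy, hyD⟩)
      · refine Finset.mem_union_right _ (Finset.mem_filter.2 ⟨hy, ?_⟩)
        exact Or.inr (not_le.1 hyD)
    have h2 : ((lev n k).card : ℝ) ≤ G.card + badk n t k := by exact_mod_cast h1
    linarith
  have h1κη : 0 < 1 - κ - η := by
    have := (abs_le.1 hκ100).2
    linarith
  have hfin := d1c_arith κ η ((lev n (k - 1)).card : ℝ) ((lev n k).card : ℝ) (badk n t k : ℝ)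
    hη0 hη hκ100 hκ2 (Nat.cast_nonneg _) (Nat.cast_nonneg _)
    (le_trans (mul_le_mul_of_nonneg_left hcard h1κη.le) hsum)
  have h2κ : 2 * κ = ((NN n : ℝ) - 2 * k) / Dbar n := by
    rw [hκdef]
    field_simp
  rw [h2κ] at hfin
  exact hfin

end Pool.Alm48
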