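import Pool.Agent.Alm48.A1
import Pool.Agent.Alm48.A2
import Pool.Agent.Alm48.A3b
import Pool.Agent.Alm48.A4a
import Pool.Agent.Alm48.Defs

/-! # Alm48 task G1a: the commutator of the up and the down operator -/

set_option autoImplicit false
namespace Pool.Alm48
open scoped BigOperators
open Finset



/-- the up operator -/
noncomputable def XX {n : ℕ} (f : V n → ℝ) : V n → ℝ := fun y =>
  by classical exact ∑ x : V n, if Step x y then f x else 0
/-- the weighted down operator -/
noncomputable def YY {n : ℕ} (f : V n → ℝ) : V n → ℝ := fun x =>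
  ∑ i ∈ ups x, Wt n i * f (mvUp x i)

/-- the down-move -/
def g1a_dn {n : ℕ} (x : V n) (j : Fin n) : V n := comp (mvUp (comp x) j)

theorem g1a_comp_inj {n : ℕ} {x y : V n} (h : comp x = comp y) : x = y := by
  rw [← comp_comp x, ← comp_comp y, h]

/-- `Step z x` iff `z` is obtained from `x` by a down-move -/
theorem g1a_step_iff {n : ℕ} (z x : V n) :
    Step z x ↔ ∃ j ∈ ups (comp x), z = g1a_dn x j := by
  constructor
  · intro h
    obtain ⟨i, hi, rfl⟩ := (step_iff z x).1 h
    obtain ⟨h1, h2⟩ := comp_edge hi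
    refine ⟨i, h1, ?_⟩
    unfold g1a_dn
    rw [h2, comp_comp]
  · rintro ⟨j, hj, rfl⟩
    obtain ⟨h1, h2⟩ := comp_edge hj
    rw [step_iff]
    refine ⟨j, h1, ?_⟩
    unfold g1a_dn
    rw [h2, comp_comp]

theorem g1a_XX {n : ℕ} (f : V n → ℝ) (x : V n) :
    XX f x = ∑ j ∈ ups (comp x), f (g1a_dn x j) := by
  classical
  unfold XX
  rw [← Finset.sum_filter]
  have himg : (univ.filter (fun z : V n => Step z x)) = (ups (comp x)).image (g1a_dn x) := by
    ext z
    rw [mem_filter, mem_image]
    constructor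
    · rintro ⟨_, h⟩
      obtain ⟨j, hj, rfl⟩ := (g1a_step_iff z x).1 h
      exact ⟨j, hj, rfl⟩
    · rintro ⟨j, hj, rfl⟩
      exact ⟨mem_univ _, (g1a_step_iff _ x).2 ⟨j, hj, rfl⟩⟩
  have hfe : (@Finset.filter (V n) (fun z : V n => Step z x)
      (fun z => Classical.propDecidable (Step z x)) univ) =
      (ups (comp x)).image (g1a_dn x) := by
    rw [← himg]
  rw [hfe, Finset.sum_image]
  intro i hi j hj hij
  exact mvUp_inj hi hj (g1a_comp_inj hij)

theorem g1a_move_iff {n : ℕ} (x : V n) {i j : Fin n} (hij : i ≠ j) :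
    (i ∈ ups x ∧ j ∈ ups (comp (mvUp x i))) ↔ (j ∈ ups (comp x) ∧ i ∈ ups (g1a_dn x j)) := by
  rw [mem_ups, mem_ups, mem_ups, mem_ups]
  have hne : ¬ j = i := fun h => hij h.symm
  constructor
  · rintro ⟨⟨h1, h2⟩, h3, h4⟩
    have h3' : ¬ (j.val + 1 = i.val) ∧ x j = true := by
      simp only [comp, mvUp, if_neg hne] at h3
      by_cases h : j.val + 1 = i.val
      · rw [if_pos h] at h3
        exact absurd h3 (by decide)
      · rw [if_neg h] at h3
        refine ⟨h, ?_⟩
        cases hx : x j
        · rw [hx] at h3; exact absurd h3 (by decide)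
        · rfl
    have h4' : ∀ k : Fin n, k.val + 1 = j.val → k ≠ i ∧ x k = false := by
      intro k hk
      have h := h4 k hk
      simp only [comp, mvUp] at h
      by_cases hki : k = i
      · rw [if_pos hki] at h
        exact absurd h (by decide)
      · rw [if_neg hki] at h
        have : ¬ (k.val + 1 = i.val) := fun h' => hij (Fin.ext (by omega))
        rw [if_neg this] at h
        refine ⟨hki, ?_⟩
        cases hx : x k
        · rfl
        · rw [hx] at h; exact absurd h (by decide)
    refine ⟨⟨?_, ?_⟩, ?_, ?_⟩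
    · simp [comp, h3'.2]
    · intro k hk
      simp [comp, (h4' k hk).2]
    · have h5 : ¬ (i.val + 1 = j.val) := fun h => (h4' i h).1 rfl
      simp [g1a_dn, comp, mvUp, hij, h5, h1]
    · intro k hk
      have h5 : ¬ k = j := by
        rintro rfl
        exact h3'.1 hk
      have h6 : ¬ (k.val + 1 = j.val) := fun h => hij (Fin.ext (by omega))
      simp [g1a_dn, comp, mvUp, h5, h6, h2 k hk]
  · rintro ⟨⟨h1, h2⟩, h3, h4⟩
    have hxj : x j = true := by
      cases hx : x j
      · simp [comp, hx] at h1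
      · rfl
    have h2' : ∀ k : Fin n, k.val + 1 = j.val → x k = false := by
      intro k hk
      have h := h2 k hk
      cases hx : x k
      · rfl
      · simp [comp, hx] at h
    have h3' : ¬ (i.val + 1 = j.val) ∧ x i = false := by
      simp only [g1a_dn, comp, mvUp, if_neg hij] at h3
      by_cases h : i.val + 1 = j.val
      · rw [if_pos h] at h3
        exact absurd h3 (by decide)
      · rw [if_neg h] at h3
        refine ⟨h, ?_⟩
        cases hx : x i
        · rfl
        · rw [hx] at h3; exact absurd h3 (by decide)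
    have h4' : ∀ k : Fin n, k.val + 1 = i.val → k ≠ j ∧ x k = true := by
      intro k hk
      have h := h4 k hk
      simp only [g1a_dn, comp, mvUp] at h
      by_cases hkj : k = j
      · rw [if_pos hkj] at h
        exact absurd h (by decide)
      · rw [if_neg hkj] at h
        have : ¬ (k.val + 1 = j.val) := fun h' => hij (Fin.ext (by omega))
        rw [if_neg this] at h
        refine ⟨hkj, ?_⟩
        cases hx : x k
        · rw [hx] at h; exact absurd h (by decide)
        · rfl
    refine ⟨⟨h3'.2, fun k hk => (h4' k hk).2⟩, ?_, ?_⟩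
    · have h5 : ¬ (j.val + 1 = i.val) := fun h => (h4' j h).1 rfl
      simp [comp, mvUp, hne, h5, hxj]
    · intro k hk
      have h5 : ¬ k = i := by
        rintro rfl
        exact h3'.1 hk
      have h6 : ¬ (k.val + 1 = i.val) := fun h => hij (Fin.ext (by omega))
      simp [comp, mvUp, h5, h6, h2' k hk]

theorem g1a_move_eq {n : ℕ} (x : V n) {i j : Fin n} (hij : i ≠ j)
    (h : i ∈ ups x ∧ j ∈ ups (comp (mvUp x i))) :
    g1a_dn (mvUp x i) j = mvUp (g1a_dn x j) i := by
  have h' := (g1a_move_iff x hij).1 h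
  rw [mem_ups, mem_ups] at h h'
  obtain ⟨⟨h1, h2⟩, h3, h4⟩ := h
  obtain ⟨⟨h5, h6⟩, h7, h8⟩ := h'
  have hne : ¬ j = i := fun h => hij h.symm
  have ha : ¬ (j.val + 1 = i.val) := by
    intro h
    simp [comp, mvUp, hne, h] at h3
  have hb : ¬ (i.val + 1 = j.val) := by
    intro h
    have := h4 i h
    simp [comp, mvUp] at this
  funext k
  unfold g1a_dn comp mvUp
  by_cases hk1 : k = i
  · subst hk1
    simp [hij, hb]
  · by_cases hk2 : k = j
    · subst hk2
      simp [hne, ha]
    · by_cases hk3 : k.val + 1 = i.val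
      · have hk4 : ¬ (k.val + 1 = j.val) := fun h => hij (Fin.ext (by omega))
        have hk5 : ¬ (i.val = j.val) := fun h => hij (Fin.ext h)
        simp [hk1, hk2, hk3, hk5]
      · by_cases hk4 : k.val + 1 = j.val
        · have hk5 : ¬ (j.val = i.val) := fun h => hij (Fin.ext h.symm)
          simp [hk1, hk2, hk4, hk5]
        · simp [hk1, hk2, hk3, hk4]

/-- commutator: `Y X - X Y = N - 2 rk` -/
theorem comm_XY {n : ℕ} (f : V n → ℝ) (x : V n) :
    YY (XX f) x - XX (YY f) x = ((NN n : ℝ) - 2 * rk x) * f x := by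
  have e1 : YY (XX f) x = ∑ i : Fin n, ∑ j : Fin n,
      if (i ∈ ups x ∧ j ∈ ups (comp (mvUp x i))) then
        Wt n i * f (g1a_dn (mvUp x i) j) else 0 := by
    unfold YY
    rw [← Finset.sum_filter_add_sum_filter_not univ (fun i => i ∈ ups x)
      (fun i => ∑ j : Fin n, if (i ∈ ups x ∧ j ∈ ups (comp (mvUp x i))) then
        Wt n i * f (g1a_dn (mvUp x i) j) else 0)]
    have z : ∑ i ∈ univ.filter (fun i => ¬ i ∈ ups x), (∑ j : Fin n,
        if (i ∈ ups x ∧ j ∈ ups (comp (mvUp x i))) then
          Wt n i * f (g1a_dn (mvUp x i) j) else 0) = 0 := by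
      apply sum_eq_zero
      intro i hi
      rw [mem_filter] at hi
      apply sum_eq_zero
      intro j _
      rw [if_neg]
      rintro ⟨h, _⟩
      exact hi.2 h
    rw [z, add_zero]
    have hf : univ.filter (fun i => i ∈ ups x) = ups x := by
      ext i; simp
    rw [hf]
    apply sum_congr rfl
    intro i hi
    rw [g1a_XX, mul_sum]
    have hf2 : ∑ j : Fin n, (if (i ∈ ups x ∧ j ∈ ups (comp (mvUp x i))) then
        Wt n i * f (g1a_dn (mvUp x i) j) else 0) = ∑ j : Fin n,
        (if j ∈ ups (comp (mvUp x i)) then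
        Wt n i * f (g1a_dn (mvUp x i) j) else 0) := by
      apply sum_congr rfl
      intro j _
      simp [hi]
    rw [hf2, ← sum_filter]
    apply sum_congr _ (fun _ _ => rfl)
    ext j; simp
  have e2 : XX (YY f) x = ∑ j : Fin n, ∑ i : Fin n,
      if (j ∈ ups (comp x) ∧ i ∈ ups (g1a_dn x j)) then
        Wt n i * f (mvUp (g1a_dn x j) i) else 0 := by
    rw [g1a_XX]
    rw [← Finset.sum_filter_add_sum_filter_not univ (fun j => j ∈ ups (comp x))
      (fun j => ∑ i : Fin n, if (j ∈ ups (comp x) ∧ i ∈ ups (g1a_dn x j)) then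
        Wt n i * f (mvUp (g1a_dn x j) i) else 0)]
    have z : ∑ j ∈ univ.filter (fun j => ¬ j ∈ ups (comp x)), (∑ i : Fin n,
        if (j ∈ ups (comp x) ∧ i ∈ ups (g1a_dn x j)) then
          Wt n i * f (mvUp (g1a_dn x j) i) else 0) = 0 := by
      apply sum_eq_zero
      intro j hj
      rw [mem_filter] at hj
      apply sum_eq_zero
      intro i _
      rw [if_neg]
      rintro ⟨h, _⟩
      exact hj.2 h
    rw [z, add_zero]
    have hf : univ.filter (fun j => j ∈ ups (comp x)) = ups (comp x) := by
      ext i; simp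
    rw [hf]
    apply sum_congr rfl
    intro j hj
    unfold YY
    have hf2 : ∑ i : Fin n, (if (j ∈ ups (comp x) ∧ i ∈ ups (g1a_dn x j)) then
        Wt n i * f (mvUp (g1a_dn x j) i) else 0) = ∑ i : Fin n,
        (if i ∈ ups (g1a_dn x j) then
        Wt n i * f (mvUp (g1a_dn x j) i) else 0) := by
      apply sum_congr rfl
      intro i _
      simp [hj]
    rw [hf2, ← sum_filter]
    apply sum_congr _ (fun _ _ => rfl)
    ext i; simp
  rw [sum_comm] at e2
  rw [e1, e2, ← sum_sub_distrib]
  have e3 : ∀ i ∈ (univ : Finset (Fin n)),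
      ((∑ j : Fin n, if (i ∈ ups x ∧ j ∈ ups (comp (mvUp x i))) then
        Wt n i * f (g1a_dn (mvUp x i) j) else 0) -
      (∑ j : Fin n, if (j ∈ ups (comp x) ∧ i ∈ ups (g1a_dn x j)) then
        Wt n i * f (mvUp (g1a_dn x j) i) else 0)) =
      (if i ∈ ups x then Wt n i else 0) * f x - (if i ∈ ups (comp x) then Wt n i else 0) * f x := by
    intro i _
    rw [← sum_sub_distrib, sum_eq_single i]
    · by_cases h1 : i ∈ ups x
      · obtain ⟨ha, hb⟩ := comp_edge h1
        have hc : g1a_dn (mvUp x i) i = x := by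
          unfold g1a_dn
          rw [hb, comp_comp]
        rw [if_pos ⟨h1, ha⟩, if_pos h1, hc]
        have h2 : ¬ i ∈ ups (comp x) := by
          intro h2
          rw [mem_ups] at h1 h2
          have := h2.1
          simp [comp, h1.1] at this
        rw [if_neg (fun h => h2 h.1), if_neg h2]
        ring
      · rw [if_neg (fun h => h1 h.1), if_neg h1]
        by_cases h2 : i ∈ ups (comp x)
        · obtain ⟨ha, hb⟩ := comp_edge h2
          have hc : mvUp (g1a_dn x i) i = x := by
            unfold g1a_dn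
            rw [hb, comp_comp]
          rw [if_pos h2, if_pos ⟨h2, ha⟩, hc]
          ring
        · rw [if_neg (fun h => h2 h.1), if_neg h2]
          ring
    · intro j _ hj
      have hij : i ≠ j := fun h => hj h.symm
      by_cases h : i ∈ ups x ∧ j ∈ ups (comp (mvUp x i))
      · rw [if_pos h, if_pos ((g1a_move_iff x hij).1 h), g1a_move_eq x hij h, sub_self]
      · rw [if_neg h, if_neg (fun h' => h ((g1a_move_iff x hij).2 h')), sub_self]
    · intro h
      exact absurd (mem_univ _) h
  rw [sum_congr rfl e3, sum_sub_distrib, ← sum_mul, ← sum_mul, ← sub_mul]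
  have e4 : ∀ y : V n, ∑ i : Fin n, (if i ∈ ups y then Wt n i else 0) = D y := by
    intro y
    rw [D_eq_sum_ups, ← sum_filter]
    apply sum_congr _ (fun _ _ => rfl)
    ext i; simp
  rw [e4, e4, D_sub_comp]

end Pool.Alm48
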