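import Pool.Agent.Alm48.A3a
import Pool.Agent.Alm48.Defs
import Pool.Agent.Alm48.G1a

/-! ALM48, task G1b: the up operator is injective below the middle -/

set_option autoImplicit false

namespace Pool.Alm48

open scoped BigOperators
open Finset



/-- the iterated down operator -/
noncomputable def g1b_F {n : ℕ} (f : V n → ℝ) : ℕ → (V n → ℝ)
  | 0 => f
  | j + 1 => YY (g1b_F f j)

theorem g1b_YY_smul {n : ℕ} (a : ℝ) (g : V n → ℝ) (x : V n) :
    YY (fun y => a * g y) x = a * YY g x := by
  unfold YY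
  rw [mul_sum]
  exact sum_congr rfl (fun i _ => by ring)

theorem g1b_YY_zero {n : ℕ} : YY (0 : V n → ℝ) = 0 := by
  funext x
  unfold YY
  simp

theorem g1b_XX_zero {n : ℕ} : XX (0 : V n → ℝ) = 0 := by
  funext x
  unfold XX
  simp

theorem g1b_supp {n k : ℕ} (f : V n → ℝ) (hf : ∀ x, rk x ≠ k → f x = 0) (j : ℕ) :
    ∀ x, rk x + j ≠ k → g1b_F f j x = 0 := by
  induction j with
  | zero => intro x hx; exact hf x (by simpa using hx)
  | succ j ih =>
    intro x hx
    show YY (g1b_F f j) x = 0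
    unfold YY
    apply sum_eq_zero
    intro i hi
    rw [ih (mvUp x i) (by rw [rk_mvUp hi]; omega), mul_zero]

/-- the constants -/
noncomputable def g1b_c (n k j : ℕ) : ℝ := (j : ℝ) * ((NN n : ℝ) - 2 * k) + (j : ℝ) * ((j : ℝ) - 1)

theorem g1b_rec {n k : ℕ} (f : V n → ℝ) (hf : ∀ x, rk x ≠ k → f x = 0) (h : XX f = 0) (j : ℕ) :
    ∀ x, XX (g1b_F f (j + 1)) x = - g1b_c n k (j + 1) * g1b_F f j x := by
  induction j with
  | zero =>
    intro x
    have h1 := comm_XY f x
    rw [h, g1b_YY_zero] at h1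
    show XX (YY f) x = - g1b_c n k 1 * f x
    by_cases hx : rk x = k
    · rw [hx] at h1
      unfold g1b_c
      simp only [Pi.zero_apply] at h1
      push_cast
      linarith
    · rw [hf x hx] at h1 ⊢
      simp only [Pi.zero_apply] at h1
      linarith
  | succ j ih =>
    intro x
    have h1 := comm_XY (g1b_F f (j + 1)) x
    have h2 : XX (g1b_F f (j + 1)) = fun y => - g1b_c n k (j + 1) * g1b_F f j y := funext ih
    rw [h2, g1b_YY_smul] at h1
    have h3 : YY (g1b_F f j) x = g1b_F f (j + 1) x := rfl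
    rw [h3] at h1
    show XX (YY (g1b_F f (j + 1))) x = - g1b_c n k (j + 1 + 1) * g1b_F f (j + 1) x
    by_cases hx : rk x + (j + 1) = k
    · have h4 : (rk x : ℝ) = (k : ℝ) - ((j : ℝ) + 1) := by
        have : ((rk x + (j + 1) : ℕ) : ℝ) = (k : ℝ) := by rw [hx]
        push_cast at this
        linarith
      rw [h4] at h1
      unfold g1b_c at h1 ⊢
      push_cast at h1 ⊢
      linarith
    · have h5 := g1b_supp f hf (j + 1) x hx
      rw [h5] at h1 ⊢
      linarith

theorem XX_inj {n k : ℕ} (hk : 2 * k < NN n) (f : V n → ℝ) (hf : ∀ x, rk x ≠ k → f x = 0)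
    (h : XX f = 0) : f = 0 := by
  have hN : (0 : ℝ) < (NN n : ℝ) - 2 * k := by
    have : ((2 * k : ℕ) : ℝ) < (NN n : ℝ) := by exact_mod_cast hk
    push_cast at this
    linarith
  have hc : ∀ j : ℕ, 0 < g1b_c n k (j + 1) := by
    intro j
    unfold g1b_c
    have h1 : (0 : ℝ) < ((j + 1 : ℕ) : ℝ) * ((NN n : ℝ) - 2 * k) :=
      mul_pos (by positivity) hN
    have h2 : (0 : ℝ) ≤ ((j + 1 : ℕ) : ℝ) * (((j + 1 : ℕ) : ℝ) - 1) := by
      apply mul_nonneg (by positivity)
      push_cast
      linarith [Nat.cast_nonneg (α := ℝ) j]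
    linarith
  have htop : g1b_F f (k + 1) = 0 := by
    funext x
    exact g1b_supp f hf (k + 1) x (by omega)
  have hstep : ∀ m, g1b_F f (m + 1) = 0 → g1b_F f m = 0 := by
    intro m hm
    funext x
    have h1 := g1b_rec f hf h m x
    rw [hm, g1b_XX_zero] at h1
    simp only [Pi.zero_apply] at h1 ⊢
    have h2 := hc m
    rcases mul_eq_zero.1 h1.symm with h3 | h3
    · linarith
    · exact h3
  have hall : ∀ m, g1b_F f (k + 1 - m) = 0 := by
    intro m
    induction m with
    | zero => simpa using htop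
    | succ m ih =>
      by_cases hm : m < k + 1
      · have e : k + 1 - m = (k + 1 - (m + 1)) + 1 := by omega
        rw [e] at ih
        exact hstep _ ih
      · have e : k + 1 - (m + 1) = k + 1 - m := by omega
        rw [e]; exact ih
  have h0 := hall (k + 1)
  rw [Nat.sub_self] at h0
  exact h0

end Pool.Alm48
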