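import Pool.Agent.Alm48.A3a
import Pool.Agent.Alm48.A4a
import Pool.Agent.Alm48.A4b
import Pool.Agent.Alm48.Defs
import Pool.Agent.Alm48.G1a
import Pool.Agent.Alm48.G1b

/-! ALM48, task G1c: Stanley's theorem (Hall's condition below the middle) and unimodality -/

set_option autoImplicit false

namespace Pool.Alm48

open scoped BigOperators
open Finset



theorem g1c_mem_Gam {n : ℕ} (A : Finset (V n)) (y : V n) : y ∈ Gam A ↔ ∃ x ∈ A, Step x y := by
  classical
  unfold Gam
  simp

/-- extension by zero of a function on `A` -/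
noncomputable def g1c_ext {n : ℕ} (A : Finset (V n)) (g : {x // x ∈ A} → ℝ) : V n → ℝ := by
  classical exact fun x => if h : x ∈ A then g ⟨x, h⟩ else 0

theorem g1c_ext_mem {n : ℕ} (A : Finset (V n)) (g : {x // x ∈ A} → ℝ) (x : {x // x ∈ A}) :
    g1c_ext A g x.1 = g x := by
  unfold g1c_ext
  rw [dif_pos x.2]

theorem g1c_ext_not {n : ℕ} (A : Finset (V n)) (g : {x // x ∈ A} → ℝ) (x : V n) (hx : x ∉ A) :
    g1c_ext A g x = 0 := by
  unfold g1c_ext
  rw [dif_neg hx]

theorem g1c_ext_add {n : ℕ} (A : Finset (V n)) (g g' : {x // x ∈ A} → ℝ) (x : V n) :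
    g1c_ext A (g + g') x = g1c_ext A g x + g1c_ext A g' x := by
  by_cases hx : x ∈ A
  · have h1 := g1c_ext_mem A (g + g') ⟨x, hx⟩
    have h2 := g1c_ext_mem A g ⟨x, hx⟩
    have h3 := g1c_ext_mem A g' ⟨x, hx⟩
    simp only at h1 h2 h3
    rw [h1, h2, h3]; rfl
  · rw [g1c_ext_not A _ x hx, g1c_ext_not A _ x hx, g1c_ext_not A _ x hx]; ring

theorem g1c_ext_smul {n : ℕ} (A : Finset (V n)) (c : ℝ) (g : {x // x ∈ A} → ℝ) (x : V n) :
    g1c_ext A (c • g) x = c * g1c_ext A g x := by
  by_cases hx : x ∈ A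
  · have h1 := g1c_ext_mem A (c • g) ⟨x, hx⟩
    have h2 := g1c_ext_mem A g ⟨x, hx⟩
    simp only at h1 h2
    rw [h1, h2]; rfl
  · rw [g1c_ext_not A _ x hx, g1c_ext_not A _ x hx]; ring

/-- the up operator from functions on `A` to functions on `Gam A` -/
noncomputable def g1c_L {n : ℕ} (A : Finset (V n)) :
    ({x // x ∈ A} → ℝ) →ₗ[ℝ] ({y // y ∈ Gam A} → ℝ) where
  toFun g := fun y => XX (g1c_ext A g) y.1
  map_add' g g' := by
    funext y
    show XX (g1c_ext A (g + g')) y.1 = XX (g1c_ext A g) y.1 + XX (g1c_ext A g') y.1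
    unfold XX
    rw [← Finset.sum_add_distrib]
    apply Finset.sum_congr rfl
    intro x _
    rw [g1c_ext_add]
    split_ifs <;> ring
  map_smul' c g := by
    funext y
    show XX (g1c_ext A (c • g)) y.1 = c * XX (g1c_ext A g) y.1
    unfold XX
    rw [Finset.mul_sum]
    apply Finset.sum_congr rfl
    intro x _
    rw [g1c_ext_smul]
    split_ifs <;> ring

theorem g1c_XX_out {n : ℕ} (A : Finset (V n)) (g : {x // x ∈ A} → ℝ) (y : V n)
    (hy : y ∉ Gam A) : XX (g1c_ext A g) y = 0 := by
  unfold XX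
  apply Finset.sum_eq_zero
  intro x _
  split_ifs with h
  · by_cases hx : x ∈ A
    · exfalso
      apply hy
      rw [g1c_mem_Gam]
      exact ⟨x, hx, h⟩
    · exact g1c_ext_not A g x hx
  · rfl

theorem stanley {n k : ℕ} (hk : 2 * k < NN n) (A : Finset (V n)) (hA : A ⊆ lev n k) :
    A.card ≤ (Gam A).card := by
  have hinj : Function.Injective (g1c_L A) := by
    rw [injective_iff_map_eq_zero]
    intro g hg
    have h0 : XX (g1c_ext A g) = 0 := by
      funext y
      by_cases hy : y ∈ Gam A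
      · have := congrFun hg ⟨y, hy⟩
        exact this
      · exact g1c_XX_out A g y hy
    have h1 : g1c_ext A g = 0 := by
      apply XX_inj hk _ _ h0
      intro x hx
      apply g1c_ext_not
      intro hxA
      apply hx
      have := hA hxA
      unfold lev at this
      exact (Finset.mem_filter.1 this).2
    funext x
    rw [← g1c_ext_mem A g x, h1]
    rfl
  have h := LinearMap.finrank_le_finrank_of_injective hinj
  rw [Module.finrank_fintype_fun_eq_card, Module.finrank_fintype_fun_eq_card,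
    Fintype.card_coe, Fintype.card_coe] at h
  exact h

theorem lev_mono {n k : ℕ} (hk : 2 * k < NN n) : (lev n k).card ≤ (lev n (k + 1)).card := by
  refine le_trans (stanley hk (lev n k) (Finset.Subset.refl _)) (Finset.card_le_card ?_)
  intro y hy
  obtain ⟨x, hx, hxy⟩ := (g1c_mem_Gam _ y).1 hy
  unfold lev at hx ⊢
  rw [Finset.mem_filter] at hx ⊢
  refine ⟨Finset.mem_univ _, ?_⟩
  rw [rk_step hxy, hx.2]

theorem g1c_below {n : ℕ} (j : ℕ) : ∀ k : ℕ, k + j = NN n / 2 →
    (lev n k).card ≤ (lev n (NN n / 2)).card := by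
  induction j with
  | zero => intro k hk; rw [Nat.add_zero] at hk; rw [hk]
  | succ j ih =>
    intro k hk
    exact le_trans (lev_mono (by omega)) (ih (k + 1) (by omega))

theorem lev_le_mid {n : ℕ} (k : ℕ) : (lev n k).card ≤ (lev n (NN n / 2)).card := by
  rcases Nat.lt_or_ge (NN n) k with h | h
  · have h0 : lev n k = ∅ := by
      apply Finset.eq_empty_of_forall_notMem
      intro x hx
      unfold lev at hx
      have h1 := (Finset.mem_filter.1 hx).2
      have h2 := rk_le x
      omega
    rw [h0, Finset.card_empty]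
    exact Nat.zero_le _
  · rcases Nat.lt_or_ge (NN n / 2) k with h' | h'
    · rw [← card_lev_symm n k h]
      exact g1c_below (NN n / 2 - (NN n - k)) (NN n - k) (by omega)
    · exact g1c_below (NN n / 2 - k) k (by omega)

end Pool.Alm48
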