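import Pool.Agent.Alm48.Defs
set_option autoImplicit false
namespace Pool.Alm48
open scoped BigOperators
open Finset



/-- the elements which use `f` in the Cantor-Bernstein construction -/
inductive g2a_P {α β : Type*} (A : Finset α) (B : Finset β) (f : α → β) (g : β → α) : α → Prop
  | base (a : α) (ha : a ∈ A) (h : ∀ b ∈ B, g b ≠ a) : g2a_P A B f g a
  | step (s : α) (hs : g2a_P A B f g s) (h1 : f s ∈ B) (h2 : g (f s) ∈ A) : g2a_P A B f g (g (f s))

theorem g2a_mem {α β : Type*} {A : Finset α} {B : Finset β} {f : α → β} {g : β → α} {a : α}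
    (h : g2a_P A B f g a) : a ∈ A := by
  cases h with
  | base _ ha _ => exact ha
  | step _ _ _ h2 => exact h2

theorem g2a_back {α β : Type*} {A : Finset α} {B : Finset β} {f : α → β} {g : β → α}
    (hg : Set.InjOn g B) {a : α} (h : g2a_P A B f g a) :
    ∀ b ∈ B, g b = a → ∃ s, g2a_P A B f g s ∧ f s = b := by
  cases h with
  | base _ _ h0 =>
    intro b hb hba
    exact absurd hba (h0 b hb)
  | step s hs h1 _ =>
    intro b hb hba
    exact ⟨s, hs, (hg (Finset.mem_coe.2 hb) (Finset.mem_coe.2 h1) hba).symm⟩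

/-- two matchings, one saturating `A`, one saturating `B`: a matching saturating both.
`M` is the resulting matching as a relation. -/
theorem mendelsohn_dulmage {α β : Type*} [Fintype α] [Fintype β] [DecidableEq α] [DecidableEq β]
    (r : α → β → Prop) (A : Finset α) (B : Finset β)
    (f : α → β) (hf : Set.InjOn f A) (hfr : ∀ a ∈ A, r a (f a))
    (g : β → α) (hg : Set.InjOn g B) (hgr : ∀ b ∈ B, r (g b) b) :
    ∃ M : Finset (α × β), (∀ p ∈ M, r p.1 p.2) ∧ (∀ p ∈ M, ∀ q ∈ M, p.1 = q.1 → p = q) ∧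
      (∀ p ∈ M, ∀ q ∈ M, p.2 = q.2 → p = q) ∧ (∀ a ∈ A, ∃ p ∈ M, p.1 = a) ∧
      (∀ b ∈ B, ∃ p ∈ M, p.2 = b) := by
  classical
  let S : α → Prop := g2a_P A B f g
  let M : Finset (α × β) := Finset.univ.filter (fun p => (S p.1 ∧ p.2 = f p.1) ∨
    (p.2 ∈ B ∧ p.1 = g p.2 ∧ ¬ ∃ s, S s ∧ f s = p.2))
  have hM : ∀ p : α × β, p ∈ M ↔ ((S p.1 ∧ p.2 = f p.1) ∨
      (p.2 ∈ B ∧ p.1 = g p.2 ∧ ¬ ∃ s, S s ∧ f s = p.2)) := fun p => by
    simp only [M, Finset.mem_filter, Finset.mem_univ, true_and]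
  refine ⟨M, ?_, ?_, ?_, ?_, ?_⟩
  · intro p hp
    rcases (hM p).1 hp with ⟨h1, h2⟩ | ⟨h1, h2, _⟩
    · rw [h2]
      exact hfr _ (g2a_mem h1)
    · rw [h2]
      exact hgr _ h1
  · intro p hp q hq hpq
    rcases (hM p).1 hp with ⟨h1, h2⟩ | ⟨h1, h2, h3⟩
    · rcases (hM q).1 hq with ⟨k1, k2⟩ | ⟨k1, k2, k3⟩
      · exact Prod.ext hpq (by rw [h2, k2, hpq])
      · exfalso
        rw [hpq, k2] at h1
        exact k3 (g2a_back hg h1 q.2 k1 rfl)
    · rcases (hM q).1 hq with ⟨k1, k2⟩ | ⟨k1, k2, k3⟩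
      · exfalso
        rw [← hpq, h2] at k1
        exact h3 (g2a_back hg k1 p.2 h1 rfl)
      · refine Prod.ext hpq ?_
        rw [h2, k2] at hpq
        exact hg (Finset.mem_coe.2 h1) (Finset.mem_coe.2 k1) hpq
  · intro p hp q hq hpq
    rcases (hM p).1 hp with ⟨h1, h2⟩ | ⟨h1, h2, h3⟩
    · rcases (hM q).1 hq with ⟨k1, k2⟩ | ⟨k1, k2, k3⟩
      · refine Prod.ext ?_ hpq
        rw [h2, k2] at hpq
        exact hf (Finset.mem_coe.2 (g2a_mem h1)) (Finset.mem_coe.2 (g2a_mem k1)) hpq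
      · exfalso
        exact k3 ⟨p.1, h1, by rw [← h2, hpq]⟩
    · rcases (hM q).1 hq with ⟨k1, k2⟩ | ⟨k1, k2, k3⟩
      · exfalso
        exact h3 ⟨q.1, k1, by rw [← k2, hpq]⟩
      · exact Prod.ext (by rw [h2, k2, hpq]) hpq
  · intro a ha
    by_cases hS : S a
    · exact ⟨(a, f a), (hM _).2 (Or.inl ⟨hS, rfl⟩), rfl⟩
    · by_cases hb : ∃ b ∈ B, g b = a
      · obtain ⟨b, hb, hba⟩ := hb
        refine ⟨(a, b), (hM _).2 (Or.inr ⟨hb, hba.symm, ?_⟩), rfl⟩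
        rintro ⟨s, hs, hsb⟩
        have hsb' : f s = b := hsb
        apply hS
        have h1 : f s ∈ B := by rw [hsb']; exact hb
        have h2 : g (f s) = a := by rw [hsb', hba]
        have h3 : g2a_P A B f g (g (f s)) := g2a_P.step s hs h1 (by rw [h2]; exact ha)
        rw [h2] at h3
        exact h3
      · exfalso
        exact hS (g2a_P.base a ha (fun b hb1 hb2 => hb ⟨b, hb1, hb2⟩))
  · intro b hb
    by_cases hs : ∃ s, S s ∧ f s = b
    · obtain ⟨s, hs, hsb⟩ := hs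
      exact ⟨(s, b), (hM _).2 (Or.inl ⟨hs, hsb.symm⟩), rfl⟩
    · exact ⟨(g b, b), (hM _).2 (Or.inr ⟨hb, rfl, hs⟩), rfl⟩

end Pool.Alm48
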