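import Pool.Agent.Alm48.Defs
import Pool.Agent.Alm48.G2a
set_option autoImplicit false
namespace Pool.Alm48
open scoped BigOperators
open Finset



/-- extension form -/
theorem extend_matching {α κ : Type*} [Fintype α] [Fintype κ] [DecidableEq α] [DecidableEq κ]
    [Nonempty α]
    (r : α → κ → Prop) (F : α → κ) (hF : Function.Injective F) (hFr : ∀ a, r a (F a))
    (C : Finset κ) (f : κ → α) (hf : Set.InjOn f C) (hfr : ∀ c ∈ C, r (f c) c) :
    ∃ (C' : Finset κ) (f' : κ → α), C ⊆ C' ∧ Set.InjOn f' C' ∧ (∀ c ∈ C', r (f' c) c) ∧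
      C'.card = Fintype.card α := by
  classical
  obtain ⟨M, hr, h1, h2, hA, hB⟩ := mendelsohn_dulmage r (univ : Finset α) C F
    (fun a _ b _ h => hF h) (fun a _ => hFr a) f hf hfr
  have key : ∀ c ∈ M.image Prod.snd, ∃ p ∈ M, p.2 = c := by
    intro c hc
    obtain ⟨p, hp, hpc⟩ := Finset.mem_image.1 hc
    exact ⟨p, hp, hpc⟩
  let f' : κ → α := fun c =>
    if h : c ∈ M.image Prod.snd then (Classical.choose (key c h)).1 else Classical.arbitrary α
  have hf' : ∀ c ∈ M.image Prod.snd, ∃ p ∈ M, p.2 = c ∧ f' c = p.1 := by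
    intro c hc
    have hs := Classical.choose_spec (key c hc)
    refine ⟨Classical.choose (key c hc), hs.1, hs.2, ?_⟩
    show (if h : c ∈ M.image Prod.snd then (Classical.choose (key c h)).1
      else Classical.arbitrary α) = _
    rw [dif_pos hc]
  refine ⟨M.image Prod.snd, f', ?_, ?_, ?_, ?_⟩
  · intro c hc
    obtain ⟨p, hp, hpc⟩ := hB c hc
    exact Finset.mem_image.2 ⟨p, hp, hpc⟩
  · intro c hc c' hc' h
    obtain ⟨p, hp, hpc, hfp⟩ := hf' c (Finset.mem_coe.1 hc)
    obtain ⟨q, hq, hqc, hfq⟩ := hf' c' (Finset.mem_coe.1 hc')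
    have : p = q := h1 p hp q hq (by rw [← hfp, ← hfq]; exact h)
    rw [← hpc, ← hqc, this]
  · intro c hc
    obtain ⟨p, hp, hpc, hfp⟩ := hf' c hc
    rw [hfp, ← hpc]
    exact hr p hp
  · have e1 : (M.image Prod.snd).card = M.card :=
      Finset.card_image_of_injOn (fun p hp q hq h =>
        h2 p (Finset.mem_coe.1 hp) q (Finset.mem_coe.1 hq) h)
    have e2 : (M.image Prod.fst).card = M.card :=
      Finset.card_image_of_injOn (fun p hp q hq h =>
        h1 p (Finset.mem_coe.1 hp) q (Finset.mem_coe.1 hq) h)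
    have e3 : M.image Prod.fst = (univ : Finset α) := by
      rw [Finset.eq_univ_iff_forall]
      intro a
      obtain ⟨p, hp, hpa⟩ := hA a (Finset.mem_univ a)
      exact Finset.mem_image.2 ⟨p, hp, hpa⟩
    rw [e1, ← e2, e3, Finset.card_univ]

end Pool.Alm48
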