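import Pool.Agent.Alm48.Defs
import Pool.Agent.Alm48.G2a

set_option autoImplicit false
namespace Pool.Alm48
open scoped BigOperators
open Finset



/-- Hall's theorem for a finset of left vertices. -/
theorem g3_hall {L R : Type*} [Fintype R] [DecidableEq L] [DecidableEq R] [Nonempty R]
    (ρ : L → R → Prop) [∀ a b, Decidable (ρ a b)] (A : Finset L)
    (h : ∀ S ⊆ A, S.card ≤ (univ.filter (fun b => ∃ a ∈ S, ρ a b)).card) :
    ∃ f : L → R, Set.InjOn f A ∧ ∀ a ∈ A, ρ a (f a) := by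
  classical
  have h1 := (Finset.all_card_le_biUnion_card_iff_exists_injective
    (fun a : {x : L // x ∈ A} => univ.filter (fun b : R => ρ a b))).mp (by
      intro s
      have h2 : (s.map (Function.Embedding.subtype _)) ⊆ A := by
        intro x hx
        simp only [Finset.mem_map, Function.Embedding.coe_subtype] at hx
        obtain ⟨y, -, rfl⟩ := hx
        exact y.2
      have h3 := h _ h2
      rw [Finset.card_map] at h3
      refine h3.trans (Finset.card_le_card ?_)
      intro b hb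
      simp only [Finset.mem_filter, Finset.mem_univ, true_and, Finset.mem_map,
        Function.Embedding.coe_subtype] at hb
      obtain ⟨a, ⟨y, hy, rfl⟩, hb⟩ := hb
      simp only [Finset.mem_biUnion, Finset.mem_filter, Finset.mem_univ, true_and]
      exact ⟨y, hy, hb⟩)
  obtain ⟨f, hf, hft⟩ := h1
  refine ⟨fun a => if ha : a ∈ A then f ⟨a, ha⟩ else Classical.arbitrary R, ?_, ?_⟩
  · intro a ha b hb hab
    have ha' : a ∈ A := ha
    have hb' : b ∈ A := hb
    simp only [dif_pos ha', dif_pos hb'] at hab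
    exact congrArg Subtype.val (hf hab)
  · intro a ha
    simp only [dif_pos ha]
    have := hft ⟨a, ha⟩
    simpa using this

/-- the auxiliary bipartite graph -/
def g3_rel {α β κ : Type*} (r : α → κ → Prop) (s : β → κ → Prop) (Q : Finset κ) (d : ℕ) :
    α ⊕ (κ ⊕ Fin d) → β ⊕ (κ ⊕ Fin d) → Prop
  | Sum.inl _, Sum.inl _ => False
  | Sum.inl a, Sum.inr (Sum.inl c) => r a c
  | Sum.inl _, Sum.inr (Sum.inr _) => True
  | Sum.inr (Sum.inl c), Sum.inl b => s b c
  | Sum.inr (Sum.inl c), Sum.inr (Sum.inl c') => c = c' ∧ c ∈ Q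
  | Sum.inr (Sum.inl _), Sum.inr (Sum.inr _) => False
  | Sum.inr (Sum.inr _), Sum.inl _ => True
  | Sum.inr (Sum.inr _), Sum.inr _ => False

theorem g3_symm {α β κ : Type*} (r : α → κ → Prop) (s : β → κ → Prop) (Q : Finset κ) (d : ℕ)
    (x : α ⊕ (κ ⊕ Fin d)) (y : β ⊕ (κ ⊕ Fin d)) : g3_rel r s Q d x y ↔ g3_rel s r Q d y x := by
  rcases x with a | c | i <;> rcases y with b | c' | j <;> simp only [g3_rel]
  constructor
  · rintro ⟨rfl, h⟩
    exact ⟨rfl, h⟩
  · rintro ⟨rfl, h⟩
    exact ⟨rfl, h⟩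

/-- the set which has to be saturated -/
noncomputable def g3_set {α κ : Type*} [Fintype α] (Q : Finset κ) (d : ℕ) :
    Finset (α ⊕ (κ ⊕ Fin d)) := (univ : Finset α).disjSum (Q.disjSum ∅)

theorem g3_side {α β κ : Type*} [Fintype α] [Fintype β] [Fintype κ]
    [DecidableEq α] [DecidableEq β] [DecidableEq κ] [Nonempty β]
    (r : α → κ → Prop) (s : β → κ → Prop) [∀ a b, Decidable (r a b)] [∀ a b, Decidable (s a b)]
    (Q : Finset κ) (d : ℕ)
    (h1 : ∀ (A : Finset α) (C : Finset κ), C ⊆ Q → A.card ≤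
      ((univ.filter (fun c : κ => ∃ a ∈ A, r a c)) \ C).card +
      (univ.filter (fun b : β => ∃ c ∈ C, s b c)).card + d) :
    ∃ f : α ⊕ (κ ⊕ Fin d) → β ⊕ (κ ⊕ Fin d), Set.InjOn f (g3_set (α := α) Q d) ∧
      ∀ x ∈ g3_set (α := α) Q d, g3_rel r s Q d x (f x) := by
  classical
  apply g3_hall (g3_rel r s Q d)
  intro S hS
  set A := S.toLeft with hA
  set C := S.toRight.toLeft with hC
  set N : Finset (β ⊕ (κ ⊕ Fin d)) := univ.filter (fun y => ∃ x ∈ S, g3_rel r s Q d x y) with hN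
  have hCQ : C ⊆ Q := by
    intro c hc
    rw [hC, Finset.mem_toLeft, Finset.mem_toRight] at hc
    have := hS hc
    simpa [g3_set] using this
  have hD : S.toRight.toRight = ∅ := by
    apply Finset.eq_empty_of_forall_notMem
    intro i hi
    rw [Finset.mem_toRight, Finset.mem_toRight] at hi
    have := hS hi
    simp [g3_set] at this
  have hScard : S.card = A.card + C.card := by
    rw [← Finset.card_toLeft_add_card_toRight (u := S),
      ← Finset.card_toLeft_add_card_toRight (u := S.toRight), hD, Finset.card_empty]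
    rfl
  have hNcard : N.card = N.toLeft.card + (N.toRight.toLeft.card + N.toRight.toRight.card) := by
    rw [← Finset.card_toLeft_add_card_toRight (u := N),
      ← Finset.card_toLeft_add_card_toRight (u := N.toRight)]
  have e1 : (univ.filter (fun b : β => ∃ c ∈ C, s b c)) ⊆ N.toLeft := by
    intro b hb
    rw [Finset.mem_filter] at hb
    obtain ⟨-, c, hc, hbc⟩ := hb
    rw [hC, Finset.mem_toLeft, Finset.mem_toRight] at hc
    rw [Finset.mem_toLeft, hN, Finset.mem_filter]
    exact ⟨Finset.mem_univ _, _, hc, hbc⟩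
  have e2 : C ∪ ((univ.filter (fun c : κ => ∃ a ∈ A, r a c)) \ C) ⊆ N.toRight.toLeft := by
    intro c hc
    rw [Finset.mem_toLeft, Finset.mem_toRight, hN, Finset.mem_filter]
    refine ⟨Finset.mem_univ _, ?_⟩
    rw [Finset.mem_union] at hc
    rcases hc with hc | hc
    · have h2 := hCQ hc
      rw [hC, Finset.mem_toLeft, Finset.mem_toRight] at hc
      exact ⟨_, hc, rfl, h2⟩
    · rw [Finset.mem_sdiff, Finset.mem_filter] at hc
      obtain ⟨⟨-, a, ha, hac⟩, -⟩ := hc
      rw [hA, Finset.mem_toLeft] at ha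
      exact ⟨_, ha, hac⟩
  have e3 : A.Nonempty → (univ : Finset (Fin d)) ⊆ N.toRight.toRight := by
    rintro ⟨a, ha⟩ i -
    rw [hA, Finset.mem_toLeft] at ha
    rw [Finset.mem_toRight, Finset.mem_toRight, hN, Finset.mem_filter]
    exact ⟨Finset.mem_univ _, _, ha, trivial⟩
  have c1 := Finset.card_le_card e1
  have c2 := Finset.card_le_card e2
  rw [Finset.card_union_of_disjoint Finset.disjoint_sdiff] at c2
  rw [hScard, hNcard]
  rcases A.eq_empty_or_nonempty with h0 | h0
  · rw [h0, Finset.card_empty]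
    omega
  · have c3 := Finset.card_le_card (e3 h0)
    rw [Finset.card_univ, Fintype.card_fin] at c3
    have c4 := h1 A C hCQ
    omega

theorem g3_card {α κ : Type*} [Fintype α] [DecidableEq α] [DecidableEq κ] (d : ℕ)
    (C : Finset κ) (φ : α → κ ⊕ Fin d) (hφ : Function.Injective φ)
    (h : ∀ a c, φ a = Sum.inl c → c ∈ C) : Fintype.card α ≤ C.card + d := by
  classical
  have h1 : (univ : Finset α).image φ ⊆ C.disjSum (univ : Finset (Fin d)) := by
    intro x hx
    rw [Finset.mem_image] at hx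
    obtain ⟨a, -, rfl⟩ := hx
    rcases h2 : φ a with c | i
    · rw [Finset.inl_mem_disjSum]
      exact h a c h2
    · rw [Finset.inr_mem_disjSum]
      exact Finset.mem_univ _
  have h2 := Finset.card_le_card h1
  rw [Finset.card_image_of_injective _ hφ, Finset.card_disjSum, Finset.card_univ,
    Finset.card_univ, Fintype.card_fin] at h2
  exact h2

theorem five {α β κ : Type*} [Fintype α] [Fintype β] [Fintype κ]
    [DecidableEq α] [DecidableEq β] [DecidableEq κ] [Nonempty α] [Nonempty β]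
    (r : α → κ → Prop) (s : β → κ → Prop) [∀ a b, Decidable (r a b)] [∀ a b, Decidable (s a b)]
    (Q : Finset κ) (d : ℕ)
    (h1 : ∀ (A : Finset α) (C : Finset κ), C ⊆ Q → A.card ≤
      ((univ.filter (fun c : κ => ∃ a ∈ A, r a c)) \ C).card +
      (univ.filter (fun b : β => ∃ c ∈ C, s b c)).card + d)
    (h2 : ∀ (B : Finset β) (C : Finset κ), C ⊆ Q → B.card ≤
      ((univ.filter (fun c : κ => ∃ b ∈ B, s b c)) \ C).card +
      (univ.filter (fun a : α => ∃ c ∈ C, r a c)).card + d) :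
    ∃ (C₁ C₂ : Finset κ) (f : κ → α) (g : κ → β), Set.InjOn f C₁ ∧ Set.InjOn g C₂ ∧
      (∀ c ∈ C₁, r (f c) c) ∧ (∀ c ∈ C₂, s (g c) c) ∧
      Fintype.card α ≤ C₁.card + d ∧ Fintype.card β ≤ C₂.card + d ∧ C₁ ∩ Q = C₂ ∩ Q := by
  classical
  obtain ⟨f, hf, hfr⟩ := g3_side r s Q d h1
  obtain ⟨g, hg, hgr⟩ := g3_side s r Q d h2
  obtain ⟨M, hM, hM1, hM2, hMA, hMB⟩ := mendelsohn_dulmage (g3_rel r s Q d)
    (g3_set (α := α) Q d) (g3_set (α := β) Q d) f hf hfr g hg
    (fun b hb => (g3_symm r s Q d _ _).mpr (hgr b hb))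
  -- membership in the sets
  have mα : ∀ (a : α), (Sum.inl a : α ⊕ (κ ⊕ Fin d)) ∈ g3_set (α := α) Q d := by
    intro a; simp [g3_set]
  have mβ : ∀ (b : β), (Sum.inl b : β ⊕ (κ ⊕ Fin d)) ∈ g3_set (α := β) Q d := by
    intro a; simp [g3_set]
  have mQα : ∀ c ∈ Q, (Sum.inr (Sum.inl c) : α ⊕ (κ ⊕ Fin d)) ∈ g3_set (α := α) Q d := by
    intro c hc; simpa [g3_set] using hc
  have mQβ : ∀ c ∈ Q, (Sum.inr (Sum.inl c) : β ⊕ (κ ⊕ Fin d)) ∈ g3_set (α := β) Q d := by
    intro c hc; simpa [g3_set] using hc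
  have uniq1 : ∀ x y y', (x, y) ∈ M → (x, y') ∈ M → y = y' := by
    intro x y y' h h'
    exact congrArg Prod.snd (hM1 _ h _ h' rfl)
  have uniq2 : ∀ x x' y, (x, y) ∈ M → (x', y) ∈ M → x = x' := by
    intro x x' y h h'
    exact congrArg Prod.fst (hM2 _ h _ h' rfl)
  let C₁ : Finset κ := univ.filter (fun c => ∃ a : α, (Sum.inl a, Sum.inr (Sum.inl c)) ∈ M)
  let C₂ : Finset κ := univ.filter (fun c => ∃ b : β, (Sum.inr (Sum.inl c), Sum.inl b) ∈ M)
  have m1 : ∀ c, c ∈ C₁ ↔ ∃ a : α, (Sum.inl a, Sum.inr (Sum.inl c)) ∈ M := by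
    intro c; simp [C₁]
  have m2 : ∀ c, c ∈ C₂ ↔ ∃ b : β, (Sum.inr (Sum.inl c), Sum.inl b) ∈ M := by
    intro c; simp [C₂]
  let F : κ → α := fun c => if h : ∃ a : α, (Sum.inl a, Sum.inr (Sum.inl c)) ∈ M then h.choose
    else Classical.arbitrary α
  let G : κ → β := fun c => if h : ∃ b : β, (Sum.inr (Sum.inl c), Sum.inl b) ∈ M then h.choose
    else Classical.arbitrary β
  have hF : ∀ c ∈ C₁, (Sum.inl (F c), Sum.inr (Sum.inl c)) ∈ M := by
    intro c hc
    have h := (m1 c).mp hc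
    simp only [F, dif_pos h]
    exact h.choose_spec
  have hG : ∀ c ∈ C₂, (Sum.inr (Sum.inl c), Sum.inl (G c)) ∈ M := by
    intro c hc
    have h := (m2 c).mp hc
    simp only [G, dif_pos h]
    exact h.choose_spec
  refine ⟨C₁, C₂, F, G, ?_, ?_, ?_, ?_, ?_, ?_, ?_⟩
  · intro c hc c' hc' hcc
    have h3 := hF c hc
    have h4 := hF c' hc'
    rw [hcc] at h3
    have h5 := uniq1 _ _ _ h3 h4
    simpa using h5
  · intro c hc c' hc' hcc
    have h3 := hG c hc
    have h4 := hG c' hc'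
    rw [hcc] at h3
    have h5 := uniq2 _ _ _ h3 h4
    simpa using h5
  · intro c hc
    exact hM _ (hF c hc)
  · intro c hc
    exact hM _ (hG c hc)
  · -- partners of the elements of `α`
    have hex : ∀ a : α, ∃ y : κ ⊕ Fin d, ((Sum.inl a : α ⊕ (κ ⊕ Fin d)), (Sum.inr y : β ⊕ (κ ⊕ Fin d))) ∈ M := by
      intro a
      obtain ⟨⟨x, y⟩, hp, hx⟩ := hMA _ (mα a)
      simp only at hx
      subst hx
      rcases y with b | y
      · exact (hM _ hp).elim
      · exact ⟨y, hp⟩
    choose φ hφ using hex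
    refine g3_card d C₁ φ ?_ ?_
    · intro a a' haa
      have h3 := hφ a
      rw [haa] at h3
      have h5 := uniq2 _ _ _ h3 (hφ a')
      simpa using h5
    · intro a c hac
      have h3 := hφ a
      rw [hac] at h3
      exact (m1 c).mpr ⟨a, h3⟩
  · have hex : ∀ b : β, ∃ y : κ ⊕ Fin d, ((Sum.inr y : α ⊕ (κ ⊕ Fin d)), (Sum.inl b : β ⊕ (κ ⊕ Fin d))) ∈ M := by
      intro b
      obtain ⟨⟨y, x⟩, hp, hx⟩ := hMB _ (mβ b)
      simp only at hx
      subst hx
      rcases y with a | y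
      · exact (hM _ hp).elim
      · exact ⟨y, hp⟩
    choose φ hφ using hex
    refine g3_card d C₂ φ ?_ ?_
    · intro a a' haa
      have h3 := hφ a
      rw [haa] at h3
      have h5 := uniq1 _ _ _ h3 (hφ a')
      simpa using h5
    · intro a c hac
      have h3 := hφ a
      rw [hac] at h3
      exact (m2 c).mpr ⟨a, h3⟩
  · ext c
    simp only [Finset.mem_inter]
    constructor
    · rintro ⟨hc, hQ⟩
      refine ⟨?_, hQ⟩
      obtain ⟨⟨x, y⟩, hp, hx⟩ := hMA _ (mQα c hQ)
      simp only at hx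
      subst hx
      rcases y with b | c' | i
      · exact (m2 c).mpr ⟨b, hp⟩
      · exfalso
        have h3 : c = c' ∧ c ∈ Q := hM _ hp
        obtain ⟨rfl, -⟩ := h3
        have h4 := uniq2 _ _ _ hp (hF c hc)
        simp at h4
      · exact (hM _ hp).elim
    · rintro ⟨hc, hQ⟩
      refine ⟨?_, hQ⟩
      obtain ⟨⟨y, x⟩, hp, hx⟩ := hMB _ (mQβ c hQ)
      simp only at hx
      subst hx
      rcases y with b | c' | i
      · exact (m1 c).mpr ⟨b, hp⟩
      · exfalso
        have h3 : c' = c ∧ c' ∈ Q := hM _ hp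
        obtain ⟨rfl, -⟩ := h3
        have h4 := uniq1 _ _ _ hp (hG c' hc)
        simp at h4
      · exact (hM _ hp).elim

end Pool.Alm48
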