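import Pool.Agent.Alm48.A3a
import Pool.Agent.Alm48.A4a
import Pool.Agent.Alm48.A4b
import Pool.Agent.Alm48.Defs
import Pool.Agent.Alm48.G1c
import Pool.Agent.Alm48.G2b
import Pool.Agent.Alm48.G3

set_option autoImplicit false
namespace Pool.Alm48
open scoped BigOperators
open Finset



/-- `S` is a partition of the ranks `[k, N-k]` into saturated chains, each meeting the middle rank -/
def IsPart {n : ℕ} (k : ℕ) (S : Finset (List (V n))) : Prop :=
  (∀ l ∈ S, l.IsChain Step) ∧
  (∀ l ∈ S, ∀ l' ∈ S, ∀ v : V n, v ∈ l → v ∈ l' → l = l') ∧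
  (∀ v : V n, (∃ l ∈ S, v ∈ l) ↔ (k ≤ rk v ∧ rk v + k ≤ NN n)) ∧
  (∀ l ∈ S, ∃ v ∈ l, rk v = NN n / 2)
/-- a symmetric chain -/
def Sym {n : ℕ} (l : List (V n)) : Prop :=
  ∃ a b : V n, l.head? = some a ∧ l.getLast? = some b ∧ rk a + rk b = NN n
/-- the number of non-symmetric chains of `S` -/
noncomputable def nons {n : ℕ} (S : Finset (List (V n))) : ℕ :=
  by classical exact (S.filter (fun l => ¬ Sym l)).card
/-- the matching part: sets `C₁`, `C₂` of chains to be extended below/above -/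
def ExtData {n : ℕ} (k : ℕ) (S C₁ C₂ : Finset (List (V n))) (f g : List (V n) → V n) (d : ℕ) : Prop :=
  C₁ ⊆ S ∧ C₂ ⊆ S ∧ Set.InjOn f C₁ ∧ Set.InjOn g C₂ ∧
  C₁.card = (lev n (k - 1)).card ∧ C₂.card = (lev n (k - 1)).card ∧
  (∀ l ∈ C₁, rk (f l) = k - 1 ∧ ∃ a, l.head? = some a ∧ Step (f l) a) ∧
  (∀ l ∈ C₂, rk (g l) = NN n - k + 1 ∧ ∃ b, l.getLast? = some b ∧ Step b (g l)) ∧
  ∃ E : Finset (List (V n)), E.card ≤ 2 * d ∧ ∀ l ∈ S, Sym l → l ∉ E → (l ∈ C₁ ↔ l ∈ C₂)

theorem g4a_head {n : ℕ} : ∀ (l : List (V n)), l.IsChain Step → ∀ a, l.head? = some a →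
    ∀ v ∈ l, v = a ∨ rk a < rk v := by
  intro l
  induction l with
  | nil => intro _ a h; simp at h
  | cons b l ih =>
    intro hc a ha v hv
    simp only [List.head?_cons, Option.some.injEq] at ha
    subst ha
    rcases List.mem_cons.1 hv with h | h
    · exact Or.inl h
    · right
      cases l with
      | nil => simp at h
      | cons c l =>
        rw [List.isChain_cons_cons] at hc
        have h1 := rk_step hc.1
        rcases ih hc.2 c (by simp) v h with h2 | h2
        · rw [h2]; omega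
        · omega

theorem g4a_last {n : ℕ} : ∀ (l : List (V n)), l.IsChain Step → ∀ b, l.getLast? = some b →
    ∀ v ∈ l, v = b ∨ rk v < rk b := by
  intro l
  induction l with
  | nil => intro _ a h; simp at h
  | cons a l ih =>
    intro hc b hb v hv
    cases l with
    | nil =>
      simp only [List.getLast?_singleton, Option.some.injEq] at hb
      subst hb
      simp only [List.mem_singleton] at hv
      exact Or.inl hv
    | cons c l =>
      rw [List.getLast?_cons_cons] at hb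
      rw [List.isChain_cons_cons] at hc
      rcases List.mem_cons.1 hv with h | h
      · right
        have h1 := rk_step hc.1
        rcases ih hc.2 b hb c (by simp) with h2 | h2
        · rw [h, ← h2]; omega
        · rw [h]; omega
      · exact ih hc.2 b hb v h

/-- bottom element of a list -/
def g4a_bot {n : ℕ} (l : List (V n)) : V n := (l.head?).getD (fun _ => false)
/-- top element of a list -/
def g4a_top {n : ℕ} (l : List (V n)) : V n := (l.getLast?).getD (fun _ => false)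

theorem g4a_mem_Gam {n : ℕ} (A : Finset (V n)) (y : V n) : y ∈ Gam A ↔ ∃ x ∈ A, Step x y := by
  unfold Gam
  simp only [Finset.mem_filter, Finset.mem_univ, true_and]

theorem g4a_mem_lev {n k : ℕ} (x : V n) : x ∈ lev n k ↔ rk x = k := by
  unfold lev
  simp only [Finset.mem_filter, Finset.mem_univ, true_and]

theorem full_match {n k d : ℕ} (hk : 1 ≤ k) (hkN : 2 * k ≤ NN n) (S : Finset (List (V n)))
    (hS : IsPart k S)
    (hd : ∀ A ⊆ lev n (k - 1), ∀ C ⊆ lev n k, ∀ E ⊆ lev n (NN n - k), E.card = C.card →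
      A.card ≤ (Gam A \ C).card + (Gam E).card + d) :
    ∃ (C₁ C₂ : Finset (List (V n))) (f g : List (V n) → V n), ExtData k S C₁ C₂ f g d := by
  classical
  have hlevp : (lev n (NN n - k + 1)).card = (lev n (k - 1)).card := by
    rw [← card_lev_symm n (k - 1) (by omega)]
    congr 2
    omega
  rcases (lev n (k - 1)).eq_empty_or_nonempty with h0 | h0
  · refine ⟨∅, ∅, fun _ _ => false, fun _ _ => false, Finset.empty_subset _,
      Finset.empty_subset _, by simp, by simp, by simp [h0], by simp [h0], by simp, by simp,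
      ∅, by simp, by simp⟩
  have h0' : (lev n (NN n - k + 1)).Nonempty := by
    rw [← Finset.card_pos, hlevp, Finset.card_pos]
    exact h0
  obtain ⟨hSc, hSd, hSm, hSmid⟩ := hS
  -- data of a chain
  have hdata : ∀ l ∈ S, l.head? = some (g4a_bot l) ∧ l.getLast? = some (g4a_top l) ∧
      g4a_bot l ∈ l ∧ g4a_top l ∈ l := by
    intro l hl
    obtain ⟨v, hv, -⟩ := hSmid l hl
    have hne : l ≠ [] := List.ne_nil_of_mem hv
    have h1 : l.head? = some (l.head hne) := List.head?_eq_some_head hne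
    have h2 : l.getLast? = some (l.getLast hne) := List.getLast?_eq_some_getLast hne
    have e1 : g4a_bot l = l.head hne := by simp [g4a_bot, h1]
    have e2 : g4a_top l = l.getLast hne := by simp [g4a_top, h2]
    rw [e1, e2]
    exact ⟨h1, h2, List.head_mem hne, List.getLast_mem hne⟩
  have hrk : ∀ l ∈ S, ∀ v ∈ l, k ≤ rk v ∧ rk v + k ≤ NN n := fun l hl v hv =>
    (hSm v).mp ⟨l, hl, hv⟩
  have hbot_of : ∀ v : V n, rk v = k → ∃ l ∈ S, g4a_bot l = v := by
    intro v hv
    obtain ⟨l, hl, hvl⟩ := (hSm v).mpr ⟨by omega, by omega⟩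
    refine ⟨l, hl, ?_⟩
    obtain ⟨e1, -, e3, -⟩ := hdata l hl
    rcases g4a_head l (hSc l hl) _ e1 v hvl with h | h
    · exact h.symm
    · have := (hrk l hl _ e3).1
      omega
  have htop_of : ∀ v : V n, rk v = NN n - k → ∃ l ∈ S, g4a_top l = v := by
    intro v hv
    obtain ⟨l, hl, hvl⟩ := (hSm v).mpr ⟨by omega, by omega⟩
    refine ⟨l, hl, ?_⟩
    obtain ⟨-, e2, -, e4⟩ := hdata l hl
    rcases g4a_last l (hSc l hl) _ e2 v hvl with h | h
    · exact h.symm
    · have := (hrk l hl _ e4).2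
      omega
  have hbinj : ∀ l ∈ S, ∀ l' ∈ S, g4a_bot l = g4a_bot l' → l = l' := fun l hl l' hl' h =>
    hSd l hl l' hl' _ (hdata l hl).2.2.1 (h ▸ (hdata l' hl').2.2.1)
  have htinj : ∀ l ∈ S, ∀ l' ∈ S, g4a_top l = g4a_top l' → l = l' := fun l hl l' hl' h =>
    hSd l hl l' hl' _ (hdata l hl).2.2.2 (h ▸ (hdata l' hl').2.2.2)
  have hcompinj : Function.Injective (comp (n := n)) := by
    intro x y h
    rw [← comp_comp x, h, comp_comp]
  let r : {x // x ∈ lev n (k - 1)} → {l // l ∈ S} → Prop := fun a c => Step a.1 (g4a_bot c.1)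
  let s : {x // x ∈ lev n (NN n - k + 1)} → {l // l ∈ S} → Prop :=
    fun b c => Step (g4a_top c.1) b.1
  let Q : Finset {l // l ∈ S} :=
    univ.filter (fun c => rk (g4a_bot c.1) = k ∧ rk (g4a_top c.1) = NN n - k)
  have mQ : ∀ c, c ∈ Q ↔ rk (g4a_bot c.1) = k ∧ rk (g4a_top c.1) = NN n - k := by
    intro c
    simp only [Q, Finset.mem_filter, Finset.mem_univ, true_and]
  let N1 : Finset {x // x ∈ lev n (k - 1)} → Finset {l // l ∈ S} := fun A =>
    univ.filter (fun c => ∃ a ∈ A, r a c)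
  let N2 : Finset {x // x ∈ lev n (NN n - k + 1)} → Finset {l // l ∈ S} := fun B =>
    univ.filter (fun c => ∃ b ∈ B, s b c)
  have mN1 : ∀ A c, c ∈ N1 A ↔ ∃ a ∈ A, r a c := by
    intro A c
    simp only [N1, Finset.mem_filter, Finset.mem_univ, true_and]
  have mN2 : ∀ B c, c ∈ N2 B ↔ ∃ b ∈ B, s b c := by
    intro A c
    simp only [N2, Finset.mem_filter, Finset.mem_univ, true_and]
  -- the images in the levels
  let A' : Finset {x // x ∈ lev n (k - 1)} → Finset (V n) := fun A => A.image (fun a => a.1)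
  let B' : Finset {x // x ∈ lev n (NN n - k + 1)} → Finset (V n) := fun B =>
    B.image (fun b => comp b.1)
  have cA' : ∀ A, (A' A).card = A.card := fun A =>
    Finset.card_image_of_injective _ Subtype.val_injective
  have cB' : ∀ B, (B' B).card = B.card := fun B =>
    Finset.card_image_of_injective _ (hcompinj.comp Subtype.val_injective)
  have sA' : ∀ A, A' A ⊆ lev n (k - 1) := by
    intro A x hx
    simp only [A', Finset.mem_image] at hx
    obtain ⟨a, -, rfl⟩ := hx
    exact a.2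
  have sB' : ∀ B, B' B ⊆ lev n (k - 1) := by
    intro B x hx
    simp only [B', Finset.mem_image] at hx
    obtain ⟨b, -, rfl⟩ := hx
    have h1 := (g4a_mem_lev _).mp b.2
    have h2 := rk_comp b.1
    rw [g4a_mem_lev]
    omega
  have gA : ∀ A, ∀ y ∈ Gam (A' A), ∃ c ∈ N1 A, g4a_bot c.1 = y := by
    intro A y hy
    rw [g4a_mem_Gam] at hy
    obtain ⟨x, hx, hxy⟩ := hy
    simp only [A', Finset.mem_image] at hx
    obtain ⟨a, ha, rfl⟩ := hx
    have h1 := (g4a_mem_lev _).mp a.2
    have h2 := rk_step hxy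
    obtain ⟨l, hl, hly⟩ := hbot_of y (by omega)
    refine ⟨⟨l, hl⟩, (mN1 _ _).mpr ⟨a, ha, ?_⟩, hly⟩
    show Step a.1 (g4a_bot l)
    rw [hly]
    exact hxy
  have gB : ∀ B, ∀ y ∈ Gam (B' B), ∃ c ∈ N2 B, comp (g4a_top c.1) = y := by
    intro B y hy
    rw [g4a_mem_Gam] at hy
    obtain ⟨x, hx, hxy⟩ := hy
    simp only [B', Finset.mem_image] at hx
    obtain ⟨b, hb, rfl⟩ := hx
    have h3 : Step (comp y) b.1 := by
      have := (step_comp (comp b.1) y).mpr hxy
      rwa [comp_comp] at this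
    have h1 := (g4a_mem_lev _).mp b.2
    have h2 := rk_step h3
    obtain ⟨l, hl, hly⟩ := htop_of (comp y) (by omega)
    refine ⟨⟨l, hl⟩, (mN2 _ _).mpr ⟨b, hb, ?_⟩, ?_⟩
    · show Step (g4a_top l) b.1
      rw [hly]
      exact h3
    · show comp (g4a_top l) = y
      rw [hly, comp_comp]
  -- the two Hall conditions
  have h1 : ∀ (A : Finset {x // x ∈ lev n (k - 1)}) (C : Finset {l // l ∈ S}), C ⊆ Q →
      A.card ≤ ((univ.filter (fun c : {l // l ∈ S} => ∃ a ∈ A, r a c)) \ C).card +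
      (univ.filter (fun b : {x // x ∈ lev n (NN n - k + 1)} => ∃ c ∈ C, s b c)).card + d := by
    intro A C hC
    have hb : (C.image (fun c => g4a_bot c.1)).card = C.card :=
      Finset.card_image_of_injective _ (fun c c' h => Subtype.ext (hbinj _ c.2 _ c'.2 h))
    have ht : (C.image (fun c => g4a_top c.1)).card = C.card :=
      Finset.card_image_of_injective _ (fun c c' h => Subtype.ext (htinj _ c.2 _ c'.2 h))
    have h2 := hd (A' A) (sA' A) (C.image (fun c => g4a_bot c.1)) (by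
      intro x hx
      rw [Finset.mem_image] at hx
      obtain ⟨c, hc, rfl⟩ := hx
      exact (g4a_mem_lev _).mpr ((mQ c).mp (hC hc)).1) (C.image (fun c => g4a_top c.1)) (by
      intro x hx
      rw [Finset.mem_image] at hx
      obtain ⟨c, hc, rfl⟩ := hx
      exact (g4a_mem_lev _).mpr ((mQ c).mp (hC hc)).2) (by rw [hb, ht])
    rw [cA'] at h2
    have h3 : (Gam (A' A) \ C.image (fun c => g4a_bot c.1)) ⊆
        ((univ.filter (fun c : {l // l ∈ S} => ∃ a ∈ A, r a c)) \ C).image
          (fun c => g4a_bot c.1) := by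
      intro y hy
      rw [Finset.mem_sdiff] at hy
      obtain ⟨c, hc, hcy⟩ := gA A y hy.1
      rw [Finset.mem_image]
      refine ⟨c, Finset.mem_sdiff.mpr ⟨hc, fun hcC => hy.2 ?_⟩, hcy⟩
      rw [Finset.mem_image]
      exact ⟨c, hcC, hcy⟩
    have h4 : Gam (C.image (fun c => g4a_top c.1)) ⊆
        (univ.filter (fun b : {x // x ∈ lev n (NN n - k + 1)} => ∃ c ∈ C, s b c)).image
          (fun b => b.1) := by
      intro y hy
      rw [g4a_mem_Gam] at hy
      obtain ⟨x, hx, hxy⟩ := hy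
      rw [Finset.mem_image] at hx
      obtain ⟨c, hc, rfl⟩ := hx
      have h5 := ((mQ c).mp (hC hc)).2
      have h6 := rk_step hxy
      rw [Finset.mem_image]
      refine ⟨⟨y, (g4a_mem_lev _).mpr (by omega)⟩, ?_, rfl⟩
      rw [Finset.mem_filter]
      exact ⟨Finset.mem_univ _, c, hc, hxy⟩
    have h5 := (Finset.card_le_card h3).trans Finset.card_image_le
    have h6 := (Finset.card_le_card h4).trans Finset.card_image_le
    omega
  have h2 : ∀ (B : Finset {x // x ∈ lev n (NN n - k + 1)}) (C : Finset {l // l ∈ S}), C ⊆ Q →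
      B.card ≤ ((univ.filter (fun c : {l // l ∈ S} => ∃ b ∈ B, s b c)) \ C).card +
      (univ.filter (fun a : {x // x ∈ lev n (k - 1)} => ∃ c ∈ C, r a c)).card + d := by
    intro B C hC
    have hb : (C.image (fun c => comp (g4a_bot c.1))).card = C.card :=
      Finset.card_image_of_injective _
        (fun c c' h => Subtype.ext (hbinj _ c.2 _ c'.2 (hcompinj h)))
    have ht : (C.image (fun c => comp (g4a_top c.1))).card = C.card :=
      Finset.card_image_of_injective _
        (fun c c' h => Subtype.ext (htinj _ c.2 _ c'.2 (hcompinj h)))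
    have h2 := hd (B' B) (sB' B) (C.image (fun c => comp (g4a_top c.1))) (by
      intro x hx
      rw [Finset.mem_image] at hx
      obtain ⟨c, hc, rfl⟩ := hx
      have h3 := ((mQ c).mp (hC hc)).2
      have h4 := rk_comp (g4a_top c.1)
      exact (g4a_mem_lev _).mpr (by omega)) (C.image (fun c => comp (g4a_bot c.1))) (by
      intro x hx
      rw [Finset.mem_image] at hx
      obtain ⟨c, hc, rfl⟩ := hx
      have h3 := ((mQ c).mp (hC hc)).1
      have h4 := rk_comp (g4a_bot c.1)
      exact (g4a_mem_lev _).mpr (by omega)) (by rw [hb, ht])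
    rw [cB'] at h2
    have h3 : (Gam (B' B) \ C.image (fun c => comp (g4a_top c.1))) ⊆
        ((univ.filter (fun c : {l // l ∈ S} => ∃ b ∈ B, s b c)) \ C).image
          (fun c => comp (g4a_top c.1)) := by
      intro y hy
      rw [Finset.mem_sdiff] at hy
      obtain ⟨c, hc, hcy⟩ := gB B y hy.1
      rw [Finset.mem_image]
      refine ⟨c, Finset.mem_sdiff.mpr ⟨hc, fun hcC => hy.2 ?_⟩, hcy⟩
      rw [Finset.mem_image]
      exact ⟨c, hcC, hcy⟩
    have h4 : Gam (C.image (fun c => comp (g4a_bot c.1))) ⊆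
        (univ.filter (fun a : {x // x ∈ lev n (k - 1)} => ∃ c ∈ C, r a c)).image
          (fun b => comp b.1) := by
      intro y hy
      rw [g4a_mem_Gam] at hy
      obtain ⟨x, hx, hxy⟩ := hy
      rw [Finset.mem_image] at hx
      obtain ⟨c, hc, rfl⟩ := hx
      have h5 := ((mQ c).mp (hC hc)).1
      have h7 : Step (comp y) (g4a_bot c.1) := by
        have := (step_comp (comp (g4a_bot c.1)) y).mpr hxy
        rwa [comp_comp] at this
      have h6 := rk_step h7
      rw [Finset.mem_image]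
      refine ⟨⟨comp y, (g4a_mem_lev _).mpr (by omega)⟩, ?_, comp_comp y⟩
      rw [Finset.mem_filter]
      exact ⟨Finset.mem_univ _, c, hc, h7⟩
    have h5 := (Finset.card_le_card h3).trans Finset.card_image_le
    have h6 := (Finset.card_le_card h4).trans Finset.card_image_le
    omega
  have : Nonempty {x // x ∈ lev n (k - 1)} := ⟨⟨h0.choose, h0.choose_spec⟩⟩
  have : Nonempty {x // x ∈ lev n (NN n - k + 1)} := ⟨⟨h0'.choose, h0'.choose_spec⟩⟩
  obtain ⟨C₁, C₂, f, g, hf, hg, hfr, hgs, hc1, hc2, hCC⟩ := five r s Q d h1 h2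
  -- Stanley's matchings
  have hk1 : 2 * (k - 1) < NN n := by omega
  obtain ⟨F1, hF1, hF1r⟩ := (Finset.all_card_le_biUnion_card_iff_exists_injective
    (fun a : {x // x ∈ lev n (k - 1)} => univ.filter (fun c : {l // l ∈ S} => r a c))).mp (by
      intro A
      have h3 := stanley hk1 (A' A) (sA' A)
      rw [cA'] at h3
      refine h3.trans ?_
      have h4 : Gam (A' A) ⊆ (A.biUnion (fun a => univ.filter (fun c : {l // l ∈ S} => r a c))).image
          (fun c => g4a_bot c.1) := by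
        intro y hy
        obtain ⟨c, hc, hcy⟩ := gA A y hy
        rw [Finset.mem_image]
        refine ⟨c, ?_, hcy⟩
        obtain ⟨a, ha, hac⟩ := (mN1 _ _).mp hc
        rw [Finset.mem_biUnion]
        exact ⟨a, ha, Finset.mem_filter.mpr ⟨Finset.mem_univ _, hac⟩⟩
      exact (Finset.card_le_card h4).trans Finset.card_image_le)
  obtain ⟨F2, hF2, hF2s⟩ := (Finset.all_card_le_biUnion_card_iff_exists_injective
    (fun b : {x // x ∈ lev n (NN n - k + 1)} =>
      univ.filter (fun c : {l // l ∈ S} => s b c))).mp (by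
      intro B
      have h3 := stanley hk1 (B' B) (sB' B)
      rw [cB'] at h3
      refine h3.trans ?_
      have h4 : Gam (B' B) ⊆ (B.biUnion (fun b => univ.filter (fun c : {l // l ∈ S} => s b c))).image
          (fun c => comp (g4a_top c.1)) := by
        intro y hy
        obtain ⟨c, hc, hcy⟩ := gB B y hy
        rw [Finset.mem_image]
        refine ⟨c, ?_, hcy⟩
        obtain ⟨a, ha, hac⟩ := (mN2 _ _).mp hc
        rw [Finset.mem_biUnion]
        exact ⟨a, ha, Finset.mem_filter.mpr ⟨Finset.mem_univ _, hac⟩⟩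
      exact (Finset.card_le_card h4).trans Finset.card_image_le)
  obtain ⟨D₁, f', hD1, hf', hfr', hcD1⟩ := extend_matching r F1 hF1
    (fun a => (Finset.mem_filter.mp (hF1r a)).2) C₁ f hf hfr
  obtain ⟨D₂, g', hD2, hg', hgs', hcD2⟩ := extend_matching s F2 hF2
    (fun a => (Finset.mem_filter.mp (hF2s a)).2) C₂ g hg hgs
  have e1 : (D₁ \ C₁).card ≤ d := by
    have := Finset.card_sdiff_add_card_eq_card hD1
    omega
  have e2 : (D₂ \ C₂).card ≤ d := by
    have := Finset.card_sdiff_add_card_eq_card hD2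
    omega
  let ι : {l // l ∈ S} ↪ List (V n) := Function.Embedding.subtype _
  let ff : List (V n) → V n := fun l => if h : l ∈ S then (f' ⟨l, h⟩).1 else fun _ => false
  let gg : List (V n) → V n := fun l => if h : l ∈ S then (g' ⟨l, h⟩).1 else fun _ => false
  have hff : ∀ c : {l // l ∈ S}, ff c.1 = (f' c).1 := by
    intro c
    simp only [ff, dif_pos c.2]
  have hgg : ∀ c : {l // l ∈ S}, gg c.1 = (g' c).1 := by
    intro c
    simp only [gg, dif_pos c.2]
  have mι : ∀ (D : Finset {l // l ∈ S}) (l : List (V n)), l ∈ D.map ι → ∃ c ∈ D, c.1 = l := by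
    intro D l hl
    rw [Finset.mem_map] at hl
    exact hl
  have mι' : ∀ (D : Finset {l // l ∈ S}) (c : {l // l ∈ S}), c.1 ∈ D.map ι ↔ c ∈ D := by
    intro D c
    constructor
    · intro h
      obtain ⟨c', hc', hcc⟩ := mι D _ h
      rwa [← Subtype.ext hcc]
    · intro h
      rw [Finset.mem_map]
      exact ⟨c, h, rfl⟩
  refine ⟨D₁.map ι, D₂.map ι, ff, gg, ?_, ?_, ?_, ?_, ?_, ?_, ?_, ?_,
    ((D₁ \ C₁) ∪ (D₂ \ C₂)).map ι, ?_, ?_⟩
  · intro l hl
    obtain ⟨c, -, rfl⟩ := mι _ _ hl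
    exact c.2
  · intro l hl
    obtain ⟨c, -, rfl⟩ := mι _ _ hl
    exact c.2
  · intro l hl l' hl' h
    obtain ⟨c, hc, rfl⟩ := mι _ _ hl
    obtain ⟨c', hc', rfl⟩ := mι _ _ hl'
    rw [hff, hff] at h
    exact congrArg Subtype.val (hf' hc hc' (Subtype.ext h))
  · intro l hl l' hl' h
    obtain ⟨c, hc, rfl⟩ := mι _ _ hl
    obtain ⟨c', hc', rfl⟩ := mι _ _ hl'
    rw [hgg, hgg] at h
    exact congrArg Subtype.val (hg' hc hc' (Subtype.ext h))
  · rw [Finset.card_map, hcD1]
    simp
  · rw [Finset.card_map, hcD2, ← hlevp]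
    simp
  · intro l hl
    obtain ⟨c, hc, rfl⟩ := mι _ _ hl
    rw [hff]
    exact ⟨(g4a_mem_lev _).mp (f' c).2, g4a_bot c.1, (hdata _ c.2).1, hfr' c hc⟩
  · intro l hl
    obtain ⟨c, hc, rfl⟩ := mι _ _ hl
    rw [hgg]
    exact ⟨(g4a_mem_lev _).mp (g' c).2, g4a_top c.1, (hdata _ c.2).2.1, hgs' c hc⟩
  · rw [Finset.card_map]
    have := Finset.card_union_le (D₁ \ C₁) (D₂ \ C₂)
    omega
  · intro l hl hsym hlE
    have hc1' : (⟨l, hl⟩ : {l // l ∈ S}) ∉ D₁ \ C₁ := fun h =>
      hlE ((mι' _ ⟨l, hl⟩).mpr (Finset.mem_union_left _ h))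
    have hc2' : (⟨l, hl⟩ : {l // l ∈ S}) ∉ D₂ \ C₂ := fun h =>
      hlE ((mι' _ ⟨l, hl⟩).mpr (Finset.mem_union_right _ h))
    rw [Finset.mem_sdiff, not_and_not_right] at hc1' hc2'
    have hs1 : rk (g4a_bot l) + rk (g4a_top l) = NN n := by
      obtain ⟨a, b, ha, hb, hab⟩ := hsym
      have h3 := (hdata l hl).1
      have h4 := (hdata l hl).2.1
      rw [ha] at h3
      rw [hb] at h4
      rw [← Option.some.inj h3, ← Option.some.inj h4]
      exact hab
    have hiff1 := mι' D₁ ⟨l, hl⟩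
    have hiff2 := mι' D₂ ⟨l, hl⟩
    show l ∈ D₁.map ι ↔ l ∈ D₂.map ι
    rw [hiff1, hiff2]
    constructor
    · intro h
      have h3 : Step (f' ⟨l, hl⟩).1 (g4a_bot l) := hfr' _ h
      have h4 := (g4a_mem_lev _).mp (f' ⟨l, hl⟩).2
      have h5 := rk_step h3
      have h6 : (⟨l, hl⟩ : {l // l ∈ S}) ∈ Q := (mQ _).mpr ⟨by show rk (g4a_bot l) = k; omega,
        by show rk (g4a_top l) = NN n - k; omega⟩
      have h7 : (⟨l, hl⟩ : {l // l ∈ S}) ∈ C₂ ∩ Q := by
        rw [← hCC]
        exact Finset.mem_inter.mpr ⟨hc1' h, h6⟩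
      exact hD2 (Finset.mem_inter.mp h7).1
    · intro h
      have h3 : Step (g4a_top l) (g' ⟨l, hl⟩).1 := hgs' _ h
      have h4 := (g4a_mem_lev _).mp (g' ⟨l, hl⟩).2
      have h5 := rk_step h3
      have h6 : (⟨l, hl⟩ : {l // l ∈ S}) ∈ Q := (mQ _).mpr ⟨by show rk (g4a_bot l) = k; omega,
        by show rk (g4a_top l) = NN n - k; omega⟩
      have h7 : (⟨l, hl⟩ : {l // l ∈ S}) ∈ C₁ ∩ Q := by
        rw [hCC]
        exact Finset.mem_inter.mpr ⟨hc2' h, h6⟩
      exact hD1 (Finset.mem_inter.mp h7).1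

end Pool.Alm48
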