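import Pool.Agent.Alm48.A4b
import Pool.Agent.Alm48.Defs
import Pool.Agent.Alm48.G4a

/-! ALM48, task G4b: extension of a full partition by one rank below and above -/

set_option autoImplicit false
namespace Pool.Alm48
open scoped BigOperators
open Finset



theorem g4b_mem_lev {n : ℕ} (k : ℕ) (v : V n) : v ∈ lev n k ↔ rk v = k := by
  unfold lev; simp

/-- the extended chain -/
def g4b_ext {n : ℕ} (C₁ C₂ : Finset (List (V n))) (f g : List (V n) → V n)
    (l : List (V n)) : List (V n) :=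
  (if l ∈ C₁ then [f l] else []) ++ (l ++ (if l ∈ C₂ then [g l] else []))

theorem g4b_mem_ext {n : ℕ} (C₁ C₂ : Finset (List (V n))) (f g : List (V n) → V n)
    (l : List (V n)) (v : V n) :
    v ∈ g4b_ext C₁ C₂ f g l ↔ (l ∈ C₁ ∧ v = f l) ∨ v ∈ l ∨ (l ∈ C₂ ∧ v = g l) := by
  unfold g4b_ext
  by_cases h1 : l ∈ C₁ <;> by_cases h2 : l ∈ C₂ <;> simp [h1, h2]

theorem g4b_chain {n : ℕ} (C₁ C₂ : Finset (List (V n))) (f g : List (V n) → V n)
    (l : List (V n)) (hl : l.IsChain Step) (hne : l ≠ [])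
    (h1 : l ∈ C₁ → ∃ a, l.head? = some a ∧ Step (f l) a)
    (h2 : l ∈ C₂ → ∃ b, l.getLast? = some b ∧ Step b (g l)) :
    (g4b_ext C₁ C₂ f g l).IsChain Step := by
  have hB : (l ++ (if l ∈ C₂ then [g l] else [])).IsChain Step := by
    by_cases hC : l ∈ C₂
    · obtain ⟨b, hb, hs⟩ := h2 hC
      rw [if_pos hC, List.isChain_append]
      refine ⟨hl, by simp, ?_⟩
      intro x hx y hy
      rw [hb] at hx
      simp only [Option.mem_def, Option.some.injEq, List.head?_cons] at hx hy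
      rw [← hx, ← hy]; exact hs
    · rw [if_neg hC, List.append_nil]
      exact hl
  unfold g4b_ext
  by_cases hC : l ∈ C₁
  · obtain ⟨a, ha, hs⟩ := h1 hC
    rw [if_pos hC, List.singleton_append, List.isChain_cons]
    refine ⟨?_, hB⟩
    intro y hy
    rw [List.head?_append_of_ne_nil _ hne, ha] at hy
    simp only [Option.mem_def, Option.some.injEq] at hy
    rw [← hy]; exact hs
  · rw [if_neg hC, List.nil_append]
    exact hB

theorem g4b_sym {n : ℕ} (C₁ C₂ : Finset (List (V n))) (f g : List (V n) → V n)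
    (l : List (V n)) (hS : Sym l) (hiff : l ∈ C₁ ↔ l ∈ C₂)
    (hr : l ∈ C₁ → rk (f l) + rk (g l) = NN n) : Sym (g4b_ext C₁ C₂ f g l) := by
  by_cases hC : l ∈ C₁
  · have hC2 : l ∈ C₂ := hiff.1 hC
    refine ⟨f l, g l, ?_, ?_, hr hC⟩
    · unfold g4b_ext
      rw [if_pos hC]; simp
    · unfold g4b_ext
      rw [if_pos hC2, ← List.append_assoc, List.getLast?_append]
      simp
  · have hC2 : l ∉ C₂ := fun h => hC (hiff.2 h)
    unfold g4b_ext
    rw [if_neg hC, if_neg hC2, List.nil_append, List.append_nil]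
    exact hS

/-- an injection between sets of equal size hits everything -/
theorem g4b_hit {n : ℕ} (j : ℕ) (C : Finset (List (V n))) (f : List (V n) → V n)
    (hf : Set.InjOn f C) (hr : ∀ l ∈ C, rk (f l) = j) (hc : C.card = (lev n j).card)
    (v : V n) (hv : rk v = j) : ∃ l ∈ C, f l = v := by
  have hsub : C.image f ⊆ lev n j := by
    intro w hw
    obtain ⟨l, hl, rfl⟩ := mem_image.1 hw
    exact (g4b_mem_lev j _).2 (hr l hl)
  have heq : C.image f = lev n j := by
    apply Finset.eq_of_subset_of_card_le hsub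
    rw [Finset.card_image_of_injOn hf, hc]
  have h1 : v ∈ C.image f := by
    rw [heq]; exact (g4b_mem_lev j v).2 hv
  exact mem_image.1 h1

theorem full_extend {n k d : ℕ} (hk : 1 ≤ k) (hkN : 2 * k ≤ NN n) (S : Finset (List (V n)))
    (hS : IsPart k S) (C₁ C₂ : Finset (List (V n))) (f g : List (V n) → V n)
    (hE : ExtData k S C₁ C₂ f g d) :
    ∃ S' : Finset (List (V n)), IsPart (k - 1) S' ∧ nons S' ≤ nons S + 2 * d := by
  classical
  obtain ⟨hC1, hC2, hfi, hgi, hc1, hc2, hf, hg, E, hEc, hEE⟩ := hE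
  obtain ⟨hch, hdj, hcov, hmid⟩ := hS
  have hr : ∀ l ∈ S, ∀ v ∈ l, k ≤ rk v ∧ rk v + k ≤ NN n := fun l hl v hv =>
    (hcov v).1 ⟨l, hl, hv⟩
  have hrf : ∀ l ∈ C₁, rk (f l) = k - 1 := fun l hl => (hf l hl).1
  have hrg : ∀ l ∈ C₂, rk (g l) = NN n - k + 1 := fun l hl => (hg l hl).1
  have hne : ∀ l ∈ S, l ≠ [] := by
    intro l hl h
    obtain ⟨v, hv, -⟩ := hmid l hl
    rw [h] at hv
    simp at hv
  have hcg : C₂.card = (lev n (NN n - k + 1)).card := by
    have h1 := card_lev_symm n (k - 1) (by omega)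
    have h2 : NN n - (k - 1) = NN n - k + 1 := by omega
    rw [h2] at h1
    rw [hc2, h1]
  refine ⟨S.image (g4b_ext C₁ C₂ f g), ⟨?_, ?_, ?_, ?_⟩, ?_⟩
  · intro L hL
    obtain ⟨l, hl, rfl⟩ := mem_image.1 hL
    exact g4b_chain C₁ C₂ f g l (hch l hl) (hne l hl) (fun h => (hf l h).2) (fun h => (hg l h).2)
  · intro L hL L' hL' v hv hv'
    obtain ⟨l, hl, rfl⟩ := mem_image.1 hL
    obtain ⟨l', hl', rfl⟩ := mem_image.1 hL'
    suffices hll : l = l' by rw [hll]
    rcases (g4b_mem_ext C₁ C₂ f g l v).1 hv with ⟨h1, h⟩ | h | ⟨h1, h⟩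
    · have e1 := hrf l h1
      rw [← h] at e1
      rcases (g4b_mem_ext C₁ C₂ f g l' v).1 hv' with ⟨h1', h'⟩ | h' | ⟨h1', h'⟩
      · exact hfi h1 h1' (by rw [← h, ← h'])
      · have := hr l' hl' v h'
        omega
      · have := hrg l' h1'
        rw [← h'] at this
        omega
    · have e1 := hr l hl v h
      rcases (g4b_mem_ext C₁ C₂ f g l' v).1 hv' with ⟨h1', h'⟩ | h' | ⟨h1', h'⟩
      · have := hrf l' h1'
        rw [← h'] at this
        omega
      · exact hdj l hl l' hl' v h h'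
      · have := hrg l' h1'
        rw [← h'] at this
        omega
    · have e1 := hrg l h1
      rw [← h] at e1
      rcases (g4b_mem_ext C₁ C₂ f g l' v).1 hv' with ⟨h1', h'⟩ | h' | ⟨h1', h'⟩
      · have := hrf l' h1'
        rw [← h'] at this
        omega
      · have := hr l' hl' v h'
        omega
      · exact hgi h1 h1' (by rw [← h, ← h'])
  · intro v
    constructor
    · rintro ⟨L, hL, hv⟩
      obtain ⟨l, hl, rfl⟩ := mem_image.1 hL
      rcases (g4b_mem_ext C₁ C₂ f g l v).1 hv with ⟨h1, h⟩ | h | ⟨h1, h⟩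
      · have e1 := hrf l h1
        rw [← h] at e1
        omega
      · have := hr l hl v h
        omega
      · have e1 := hrg l h1
        rw [← h] at e1
        omega
    · rintro ⟨h1, h2⟩
      by_cases hlo : rk v = k - 1
      · obtain ⟨l, hl, hv⟩ := g4b_hit (k - 1) C₁ f hfi hrf hc1 v hlo
        exact ⟨g4b_ext C₁ C₂ f g l, mem_image.2 ⟨l, hC1 hl, rfl⟩,
          (g4b_mem_ext C₁ C₂ f g l v).2 (Or.inl ⟨hl, hv.symm⟩)⟩
      · by_cases hhi : rk v = NN n - k + 1
        · obtain ⟨l, hl, hv⟩ := g4b_hit (NN n - k + 1) C₂ g hgi hrg hcg v hhi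
          exact ⟨g4b_ext C₁ C₂ f g l, mem_image.2 ⟨l, hC2 hl, rfl⟩,
            (g4b_mem_ext C₁ C₂ f g l v).2 (Or.inr (Or.inr ⟨hl, hv.symm⟩))⟩
        · obtain ⟨l, hl, hv⟩ := (hcov v).2 ⟨by omega, by omega⟩
          exact ⟨g4b_ext C₁ C₂ f g l, mem_image.2 ⟨l, hl, rfl⟩,
            (g4b_mem_ext C₁ C₂ f g l v).2 (Or.inr (Or.inl hv))⟩
  · intro L hL
    obtain ⟨l, hl, rfl⟩ := mem_image.1 hL
    obtain ⟨v, hv, hrv⟩ := hmid l hl
    exact ⟨v, (g4b_mem_ext C₁ C₂ f g l v).2 (Or.inr (Or.inl hv)), hrv⟩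
  · have hsub : (S.image (g4b_ext C₁ C₂ f g)).filter (fun l => ¬ Sym l) ⊆
        ((S.filter (fun l => ¬ Sym l)) ∪ E).image (g4b_ext C₁ C₂ f g) := by
      intro L hL
      obtain ⟨hL1, hL2⟩ := mem_filter.1 hL
      obtain ⟨l, hl, rfl⟩ := mem_image.1 hL1
      refine mem_image.2 ⟨l, ?_, rfl⟩
      by_contra hcon
      rw [mem_union, mem_filter] at hcon
      push Not at hcon
      obtain ⟨h1, h2⟩ := hcon
      have hs : Sym l := h1 hl
      refine hL2 (g4b_sym C₁ C₂ f g l hs (hEE l hl hs h2) ?_)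
      intro h3
      have e1 := hrf l h3
      have e2 := hrg l ((hEE l hl hs h2).1 h3)
      omega
    have h1 := Finset.card_le_card hsub
    have h2 := Finset.card_image_le (s := (S.filter (fun l => ¬ Sym l)) ∪ E)
      (f := g4b_ext C₁ C₂ f g)
    have h3 := Finset.card_union_le (S.filter (fun l => ¬ Sym l)) E
    have h4 : nons (S.image (g4b_ext C₁ C₂ f g)) =
        ((S.image (g4b_ext C₁ C₂ f g)).filter (fun l => ¬ Sym l)).card := by
      unfold nons
      congr
    have h5 : nons S = (S.filter (fun l => ¬ Sym l)).card := by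
      unfold nons
      congr
    omega

end Pool.Alm48
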