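import Pool.Agent.Alm48.A3a
import Pool.Agent.Alm48.A4a
import Pool.Agent.Alm48.Defs
import Pool.Agent.Alm48.G4a
import Pool.Agent.Alm48.G4b

/-! G4c : one step of the full partition, the two choices of `d`. -/

set_option autoImplicit false
namespace Pool.Alm48
open scoped BigOperators
open Finset



theorem full_step {n k d : ℕ} (hk : 1 ≤ k) (hkN : 2 * k ≤ NN n) (S : Finset (List (V n)))
    (hS : IsPart k S)
    (hd : ∀ A ⊆ lev n (k - 1), ∀ C ⊆ lev n k, ∀ E ⊆ lev n (NN n - k), E.card = C.card →
      A.card ≤ (Gam A \ C).card + (Gam E).card + d) :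
    ∃ S' : Finset (List (V n)), IsPart (k - 1) S' ∧ nons S' ≤ nons S + 2 * d := by
  obtain ⟨C₁, C₂, f, g, hE⟩ := full_match hk hkN S hS hd
  exact full_extend hk hkN S hS C₁ C₂ f g hE

/-- the trivial `d` -/
theorem hd_trivial {n k : ℕ} : ∀ A ⊆ lev n (k - 1), ∀ C ⊆ lev n k, ∀ E ⊆ lev n (NN n - k),
    E.card = C.card → A.card ≤ (Gam A \ C).card + (Gam E).card + (lev n (k - 1)).card := by
  intro A hA C _ E _ _
  have := Finset.card_le_card hA
  omega

/-- the lower neighbours of the complements of `E` are at most as many as the upper neighbours of `E` -/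
theorem g4c_delta {n k : ℕ} (E : Finset (V n)) [DecidableEq (V n)]
    [DecidablePred (fun x : V n => ∃ z ∈ E, Step x (comp z))] :
    ((lev n (k - 1)).filter (fun x => ∃ z ∈ E, Step x (comp z))).card ≤ (Gam E).card := by
  apply Finset.card_le_card_of_injOn comp
  · intro x hx
    have hx' := Finset.mem_coe.mp hx
    rw [Finset.mem_filter] at hx'
    obtain ⟨_, z, hz, hs⟩ := hx'
    rw [Finset.mem_coe]
    have h := (step_comp x (comp z)).mpr hs
    rw [comp_comp] at h
    classical
    unfold Gam
    exact Finset.mem_filter.mpr ⟨Finset.mem_univ _, z, hz, h⟩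
  · intro x _ y _ hxy
    have := congrArg comp hxy
    rwa [comp_comp, comp_comp] at this

/-- `d` from near normalized matching -/
theorem hd_near {n k : ℕ} {g e e' : ℝ} (hk : 1 ≤ k) (hkN : 2 * k ≤ NN n) (hg : 1 ≤ g)
    (he : 0 ≤ e) (he' : 0 ≤ e')
    (hA : ∀ A ⊆ lev n (k - 1), g * (A.card : ℝ) ≤ ((Gam A).card : ℝ) + e)
    (ha : ((lev n k).card : ℝ) ≤ g * ((lev n (k - 1)).card : ℝ) + e') :
    ∃ d : ℕ, (d : ℝ) ≤ 2 * e + e' ∧
      ∀ A ⊆ lev n (k - 1), ∀ C ⊆ lev n k, ∀ E ⊆ lev n (NN n - k), E.card = C.card →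
      A.card ≤ (Gam A \ C).card + (Gam E).card + d := by
  classical
  refine ⟨⌊2 * e + e'⌋₊, Nat.floor_le (by positivity), ?_⟩
  intro A hAs C hC E hEs hEC
  -- lower neighbours of the complements of `E`
  set Δ := (lev n (k - 1)).filter (fun x => ∃ z ∈ E, Step x (comp z)) with hΔ
  set A' := (lev n (k - 1)).filter (fun x => ¬ ∃ z ∈ E, Step x (comp z)) with hA'
  have hΔc : (Δ.card : ℝ) ≤ (Gam E).card := by
    exact_mod_cast g4c_delta (k := k) E
  have hsum : (Δ.card : ℝ) + A'.card = (lev n (k - 1)).card := by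
    have h := Finset.card_filter_add_card_filter_not (s := lev n (k - 1))
      (fun x => ∃ z ∈ E, Step x (comp z))
    rw [← hΔ, ← hA'] at h
    exact_mod_cast h
  -- `Gam A'` is disjoint from the complements of `E`
  have hGA' : ((Gam A').card : ℝ) + E.card ≤ (lev n k).card := by
    have hdis : Disjoint (Gam A') (E.image comp) := by
      rw [Finset.disjoint_left]
      intro y hy hy'
      unfold Gam at hy
      obtain ⟨x, hx, hs⟩ := (Finset.mem_filter.mp hy).2
      obtain ⟨z, hz, rfl⟩ := Finset.mem_image.mp hy'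
      exact (Finset.mem_filter.mp hx).2 ⟨z, hz, hs⟩
    have hcard : (E.image comp).card = E.card := by
      apply Finset.card_image_of_injective
      intro x y hxy
      have := congrArg comp hxy
      rwa [comp_comp, comp_comp] at this
    have hsub : Gam A' ∪ E.image comp ⊆ lev n k := by
      intro y hy
      unfold lev
      rw [Finset.mem_filter]
      refine ⟨Finset.mem_univ _, ?_⟩
      rcases Finset.mem_union.mp hy with hy | hy
      · unfold Gam at hy
        obtain ⟨x, hx, hs⟩ := (Finset.mem_filter.mp hy).2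
        have h1 := (Finset.mem_filter.mp hx).1
        unfold lev at h1
        have h2 := (Finset.mem_filter.mp h1).2
        rw [rk_step hs, h2]; omega
      · obtain ⟨z, hz, rfl⟩ := Finset.mem_image.mp hy
        have h1 := hEs hz
        unfold lev at h1
        have h2 := (Finset.mem_filter.mp h1).2
        have h3 := rk_comp z
        omega
    have h := Finset.card_le_card hsub
    rw [Finset.card_union_of_disjoint hdis, hcard] at h
    exact_mod_cast h
  have h1 := hA A' (Finset.filter_subset _ _)
  have h2 := hA A hAs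
  have hg0 : 0 < g := by linarith
  -- |C| ≤ g |Δ| + e + e'
  have hEC' : (E.card : ℝ) = C.card := by exact_mod_cast hEC
  have h3 : (C.card : ℝ) ≤ g * Δ.card + e + e' := by
    have : g * (Δ.card : ℝ) + g * A'.card = g * (lev n (k - 1)).card := by
      rw [← hsum]; ring
    linarith
  have h4 : (C.card : ℝ) ≤ g * (Gam E).card + e + e' := by
    have := mul_le_mul_of_nonneg_left hΔc hg0.le
    linarith
  have h5 : ((Gam A).card : ℝ) ≤ (Gam A \ C).card + C.card := by
    have h := Finset.card_le_card_sdiff_add_card (s := Gam A) (t := C)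
    exact_mod_cast h
  -- g |A| ≤ |Gam A| + e ≤ |Gam A \ C| + g |Gam E| + 2 e + e'
  have h6 : g * (A.card : ℝ) ≤ g * ((Gam A \ C).card + (Gam E).card) + g * (2 * e + e') := by
    have h7 : ((Gam A \ C).card : ℝ) ≤ g * (Gam A \ C).card := by
      have : (0 : ℝ) ≤ (Gam A \ C).card := by positivity
      nlinarith
    have h8 : 2 * e + e' ≤ g * (2 * e + e') := by
      have : 0 ≤ 2 * e + e' := by positivity
      nlinarith
    linarith
  have h7 : (A.card : ℝ) ≤ ((Gam A \ C).card + (Gam E).card) + (2 * e + e') := by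
    have : g * (A.card : ℝ) ≤ g * (((Gam A \ C).card + (Gam E).card) + (2 * e + e')) := by linarith
    exact le_of_mul_le_mul_left this hg0
  by_cases hc : A.card ≤ (Gam A \ C).card + (Gam E).card
  · omega
  · have h8 : ((A.card - ((Gam A \ C).card + (Gam E).card) : ℕ) : ℝ) ≤ 2 * e + e' := by
      rw [Nat.cast_sub (by omega)]
      push_cast
      linarith
    have h9 := Nat.le_floor h8
    omega

end Pool.Alm48
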