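import Pool.Agent.Alm48.A3a
import Pool.Agent.Alm48.A4b
import Pool.Agent.Alm48.Defs
import Pool.Agent.Alm48.G1c
import Pool.Agent.Alm48.G4a

/-! ALM48, task G5: the start of the full partition -/

set_option autoImplicit false

namespace Pool.Alm48

open scoped BigOperators
open Finset



theorem g5_nons {n : ℕ} (S : Finset (List (V n))) (h : ∀ l ∈ S, Sym l) : nons S = 0 := by
  classical
  unfold nons
  rw [Finset.card_eq_zero]
  apply Finset.filter_eq_empty_iff.2
  intro l hl hn
  exact hn (h l hl)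

theorem g5_mem_lev {n k : ℕ} (x : V n) : x ∈ lev n k ↔ rk x = k := by
  unfold lev
  simp

theorem g5_mem_Gam {n : ℕ} (A : Finset (V n)) (y : V n) : y ∈ Gam A ↔ ∃ x ∈ A, Step x y := by
  unfold Gam
  simp

/-- the even case -/
theorem g5_even {n m : ℕ} (h : NN n = 2 * m) :
    ∃ S : Finset (List (V n)), IsPart (NN n / 2) S ∧ nons S = 0 := by
  classical
  have hm : NN n / 2 = m := by omega
  rw [hm]
  refine ⟨(lev n m).image (fun x => [x]), ⟨?_, ?_, ?_, ?_⟩, ?_⟩
  · intro l hl
    obtain ⟨x, _, rfl⟩ := mem_image.1 hl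
    exact List.isChain_singleton _
  · intro l hl l' hl' v hv hv'
    obtain ⟨x, _, rfl⟩ := mem_image.1 hl
    obtain ⟨y, _, rfl⟩ := mem_image.1 hl'
    have h1 : v = x := by simpa using hv
    have h2 : v = y := by simpa using hv'
    rw [← h1, ← h2]
  · intro v
    constructor
    · rintro ⟨l, hl, hv⟩
      obtain ⟨x, hx, rfl⟩ := mem_image.1 hl
      have h1 : v = x := by simpa using hv
      rw [g5_mem_lev] at hx
      rw [h1, hx]
      omega
    · rintro ⟨h1, h2⟩
      refine ⟨[v], mem_image.2 ⟨v, ?_, rfl⟩, by simp⟩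
      rw [g5_mem_lev]
      omega
  · intro l hl
    obtain ⟨x, hx, rfl⟩ := mem_image.1 hl
    rw [g5_mem_lev] at hx
    exact ⟨x, by simp, by rw [hx, hm]⟩
  · apply g5_nons
    intro l hl
    obtain ⟨x, hx, rfl⟩ := mem_image.1 hl
    rw [g5_mem_lev] at hx
    exact ⟨x, x, rfl, rfl, by omega⟩

/-- a perfect matching of the two middle levels -/
theorem g5_match {n m : ℕ} (h : NN n = 2 * m + 1) :
    ∃ F : V n → V n, (∀ x, rk x = m → Step x (F x)) ∧
      (∀ x y, rk x = m → rk y = m → F x = F y → x = y) ∧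
      (∀ y, rk y = m + 1 → ∃ x, rk x = m ∧ F x = y) := by
  classical
  have hall : ∀ s : Finset {x : V n // rk x = m},
      s.card ≤ (s.biUnion (fun x => Gam {x.1})).card := by
    intro s
    have h1 : (s.image (fun x => x.1)).card = s.card :=
      Finset.card_image_of_injective _ Subtype.val_injective
    have h2 : s.biUnion (fun x => Gam {x.1}) = Gam (s.image (fun x => x.1)) := by
      ext y
      rw [mem_biUnion, g5_mem_Gam]
      constructor
      · rintro ⟨x, hx, hy⟩
        rw [g5_mem_Gam] at hy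
        obtain ⟨x', hx', hs⟩ := hy
        rw [mem_singleton] at hx'
        exact ⟨x.1, mem_image.2 ⟨x, hx, rfl⟩, hx' ▸ hs⟩
      · rintro ⟨x', hx', hs⟩
        obtain ⟨x, hx, rfl⟩ := mem_image.1 hx'
        refine ⟨x, hx, ?_⟩
        rw [g5_mem_Gam]
        exact ⟨x.1, mem_singleton_self _, hs⟩
    rw [h2, ← h1]
    apply stanley (k := m) (by omega)
    intro x hx
    obtain ⟨x', _, rfl⟩ := mem_image.1 hx
    rw [g5_mem_lev]
    exact x'.2
  obtain ⟨f, hf, hft⟩ := (Finset.all_card_le_biUnion_card_iff_exists_injective _).1 hall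
  have hstep : ∀ x : {x : V n // rk x = m}, Step x.1 (f x) := by
    intro x
    have h1 := hft x
    rw [g5_mem_Gam] at h1
    obtain ⟨x', hx', hs⟩ := h1
    rw [mem_singleton] at hx'
    exact hx' ▸ hs
  refine ⟨fun x => if hx : rk x = m then f ⟨x, hx⟩ else x, ?_, ?_, ?_⟩
  · intro x hx
    simp only [hx, dif_pos]
    exact hstep ⟨x, hx⟩
  · intro x y hx hy hxy
    simp only [hx, hy, dif_pos] at hxy
    have h1 := hf hxy
    exact congrArg Subtype.val h1
  · intro y hy
    have hc : (univ.image f).card = (lev n m).card := by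
      rw [Finset.card_image_of_injective _ hf, Finset.card_univ, Fintype.card_subtype]
      rfl
    have hsub : univ.image f ⊆ lev n (m + 1) := by
      intro z hz
      obtain ⟨x, _, rfl⟩ := mem_image.1 hz
      rw [g5_mem_lev, rk_step (hstep x), x.2]
    have hs := card_lev_symm n m (by omega)
    have h2 : NN n - m = m + 1 := by omega
    rw [h2] at hs
    have heq : univ.image f = lev n (m + 1) := by
      apply Finset.eq_of_subset_of_card_le hsub
      rw [hc, hs]
    have hy' : y ∈ univ.image f := by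
      rw [heq, g5_mem_lev]; exact hy
    obtain ⟨x, _, hx⟩ := mem_image.1 hy'
    refine ⟨x.1, x.2, ?_⟩
    simp only [x.2, dif_pos]
    exact hx

/-- the odd case -/
theorem g5_odd {n m : ℕ} (h : NN n = 2 * m + 1) :
    ∃ S : Finset (List (V n)), IsPart (NN n / 2) S ∧ nons S = 0 := by
  classical
  have hm : NN n / 2 = m := by omega
  rw [hm]
  obtain ⟨F, hF1, hF2, hF3⟩ := g5_match h
  have hrk : ∀ x : V n, rk x = m → rk (F x) = m + 1 := by
    intro x hx
    rw [rk_step (hF1 x hx), hx]
  refine ⟨(lev n m).image (fun x => [x, F x]), ⟨?_, ?_, ?_, ?_⟩, ?_⟩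
  · intro l hl
    obtain ⟨x, hx, rfl⟩ := mem_image.1 hl
    rw [g5_mem_lev] at hx
    rw [List.isChain_cons_cons]
    exact ⟨hF1 x hx, List.isChain_singleton _⟩
  · intro l hl l' hl' v hv hv'
    obtain ⟨x, hx, rfl⟩ := mem_image.1 hl
    obtain ⟨y, hy, rfl⟩ := mem_image.1 hl'
    rw [g5_mem_lev] at hx hy
    have h1 : v = x ∨ v = F x := by simpa using hv
    have h2 : v = y ∨ v = F y := by simpa using hv'
    have hxF := hrk x hx
    have hyF := hrk y hy
    have hxy : x = y := by
      rcases h1 with h1 | h1 <;> rcases h2 with h2 | h2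
      · exact h1.symm.trans h2
      · exfalso
        have h3 : x = F y := h1.symm.trans h2
        rw [h3] at hx
        omega
      · exfalso
        have h3 : F x = y := h1.symm.trans h2
        rw [h3] at hxF
        omega
      · exact hF2 x y hx hy (h1.symm.trans h2)
    rw [hxy]
  · intro v
    constructor
    · rintro ⟨l, hl, hv⟩
      obtain ⟨x, hx, rfl⟩ := mem_image.1 hl
      rw [g5_mem_lev] at hx
      have h1 : v = x ∨ v = F x := by simpa using hv
      rcases h1 with h1 | h1
      · rw [h1, hx]; omega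
      · rw [h1, hrk x hx]; omega
    · rintro ⟨h1, h2⟩
      rcases (by omega : rk v = m ∨ rk v = m + 1) with h3 | h3
      · refine ⟨[v, F v], mem_image.2 ⟨v, ?_, rfl⟩, by simp⟩
        rw [g5_mem_lev]; exact h3
      · obtain ⟨x, hx, hxv⟩ := hF3 v h3
        refine ⟨[x, F x], mem_image.2 ⟨x, ?_, rfl⟩, by simp [hxv]⟩
        rw [g5_mem_lev]; exact hx
  · intro l hl
    obtain ⟨x, hx, rfl⟩ := mem_image.1 hl
    rw [g5_mem_lev] at hx
    exact ⟨x, by simp, by rw [hx, hm]⟩
  · apply g5_nons
    intro l hl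
    obtain ⟨x, hx, rfl⟩ := mem_image.1 hl
    rw [g5_mem_lev] at hx
    exact ⟨x, F x, rfl, rfl, by rw [hx, hrk x hx]; omega⟩

theorem full_start (n : ℕ) : ∃ S : Finset (List (V n)), IsPart (NN n / 2) S ∧ nons S = 0 := by
  rcases Nat.even_or_odd' (NN n) with ⟨m, hm | hm⟩
  · exact g5_even hm
  · exact g5_odd hm

end Pool.Alm48
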