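import Pool.Agent.Alm48.D1a
import Pool.Agent.Alm48.D1b
import Pool.Agent.Alm48.D1c
import Pool.Agent.Alm48.Defs
import Pool.Agent.Alm48.G4a
import Pool.Agent.Alm48.G4c
import Pool.Agent.Alm48.G5

set_option autoImplicit false
namespace Pool.Alm48
open scoped BigOperators
open Finset



/-- sizes of different levels add up to at most `2^n` -/
theorem g6a_sum_lev {n : ℕ} (s : ℕ) (φ : ℕ → ℕ) (hφ : Set.InjOn φ (range s : Finset ℕ)) :
    ∑ i ∈ range s, ((lev n (φ i)).card : ℝ) ≤ 2 ^ n := by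
  have hdisj : Set.PairwiseDisjoint ((range s : Finset ℕ) : Set ℕ) (fun i => lev n (φ i)) := by
    intro i hi j hj hij
    simp only [Function.onFun]
    rw [Finset.disjoint_left]
    intro v hv hv'
    simp only [lev, mem_filter, mem_univ, true_and] at hv hv'
    exact hij (hφ hi hj (by rw [← hv, ← hv']))
  have h1 := Finset.card_biUnion hdisj
  have h2 : ((range s).biUnion (fun i => lev n (φ i))).card ≤ 2 ^ n := by
    refine (Finset.card_le_univ _).trans ?_
    simp [V]
  rw [h1] at h2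
  exact_mod_cast h2

/-- bad elements of different levels -/
theorem g6a_sum_bad {n : ℕ} (t : ℝ) (s : ℕ) (φ : ℕ → ℕ)
    (hφ : Set.InjOn φ (range s : Finset ℕ)) :
    ∑ i ∈ range s, (badk n t (φ i) : ℝ) ≤ badAll n t := by
  classical
  have hbk : ∀ k, badk n t k = (univ.filter (fun x : V n => rk x = k ∧ Bad t x)).card := by
    intro k
    unfold badk lev
    rw [Finset.filter_filter]
  have hba : badAll n t = (univ.filter (fun x : V n => Bad t x)).card := by
    unfold badAll
    congr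
  have hdisj : Set.PairwiseDisjoint ((range s : Finset ℕ) : Set ℕ)
      (fun i => univ.filter (fun x : V n => rk x = φ i ∧ Bad t x)) := by
    intro i hi j hj hij
    simp only [Function.onFun]
    rw [Finset.disjoint_left]
    intro v hv hv'
    simp only [mem_filter, mem_univ, true_and] at hv hv'
    exact hij (hφ hi hj (by rw [← hv.1, ← hv'.1]))
  have h1 := Finset.card_biUnion hdisj
  have h2 : ((range s).biUnion
      (fun i => univ.filter (fun x : V n => rk x = φ i ∧ Bad t x))).card ≤ badAll n t := by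
    rw [hba]
    refine Finset.card_le_card ?_
    intro v hv
    simp only [mem_biUnion, mem_filter, mem_univ, true_and] at hv ⊢
    obtain ⟨i, -, -, hb⟩ := hv
    exact hb
  rw [h1] at h2
  have h3 : ∑ i ∈ range s, badk n t (φ i) ≤ badAll n t := by
    calc ∑ i ∈ range s, badk n t (φ i)
        = ∑ i ∈ range s, (univ.filter (fun x : V n => rk x = φ i ∧ Bad t x)).card :=
          Finset.sum_congr rfl (fun i _ => hbk (φ i))
      _ ≤ badAll n t := h2
  exact_mod_cast h3

theorem g6a_lev_le {n : ℕ} (k : ℕ) : ((lev n k).card : ℝ) ≤ 2 ^ n := by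
  have := g6a_sum_lev (n := n) 1 (fun _ => k) (by intro i hi j hj _; simp at hi hj; omega)
  simpa using this

theorem g6a_bad_le {n : ℕ} (t : ℝ) (k : ℕ) : (badk n t k : ℝ) ≤ badAll n t := by
  have := g6a_sum_bad (n := n) t 1 (fun _ => k) (by intro i hi j hj _; simp at hi hj; omega)
  simpa using this

theorem g6a_eta_nonneg {n : ℕ} {R t : ℝ} (hR : 0 ≤ R) (ht : 0 ≤ t) : 0 ≤ eta n R t := by
  unfold eta; positivity

theorem g6a_Dbar_pos {n : ℕ} (hn : 1000 ≤ n) : 0 < Dbar n := by
  have : (0 : ℝ) < n := by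
    have : 0 < n := by omega
    exact_mod_cast this
  unfold Dbar; positivity

/-- one step -/
theorem g6a_step {n : ℕ} (hn : 1000 ≤ n) {R t : ℝ} (ht : 8 * (n : ℝ) ^ 2 ≤ t)
    (ht' : t ≤ (n : ℝ) ^ 3 / 100) (hR : 1 ≤ R) (hη : eta n R t ≤ 1 / 100)
    {k : ℕ} (hk : 1 ≤ k) (hkN : 2 * k ≤ NN n) (hδ : (NN n : ℝ) - 2 * k ≤ R)
    (S : Finset (List (V n))) (hS : IsPart k S) :
    ∃ S' : Finset (List (V n)), IsPart (k - 1) S' ∧
      (nons S' : ℝ) ≤ nons S + (20 * eta n R t * (lev n (k - 1)).card + 8 * badk n t (k - 1)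
      + 2 * badk n t k) := by
  have ht0 : 0 ≤ t := le_trans (by positivity) ht
  have he0 : 0 ≤ eta n R t := g6a_eta_nonneg (by linarith) ht0
  have hδ0 : 0 ≤ (NN n : ℝ) - 2 * k := by
    have : (2 * k : ℝ) ≤ NN n := by exact_mod_cast hkN
    linarith
  have habs : |(NN n : ℝ) - 2 * k| ≤ R := by rw [abs_of_nonneg hδ0]; exact hδ
  have hD := g6a_Dbar_pos hn
  have hg : 1 ≤ 1 + ((NN n : ℝ) - 2 * k) / Dbar n := by
    have : 0 ≤ ((NN n : ℝ) - 2 * k) / Dbar n := by positivity
    linarith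
  obtain ⟨d, hd, hd'⟩ := hd_near hk hkN hg
    (e := 2 * eta n R t * (lev n (k - 1)).card + 2 * badk n t (k - 1))
    (e' := 6 * eta n R t * (lev n (k - 1)).card + badk n t k)
    (by positivity) (by positivity)
    (fun A hA => nearNM1 hn ht ht' hR hη hk (by omega) habs A hA)
    (nearNM2 hn ht ht' hR hη hk (by omega) habs)
  obtain ⟨S', hS', hn'⟩ := full_step hk hkN S hS hd'
  refine ⟨S', hS', ?_⟩
  have h1 : (nons S' : ℝ) ≤ nons S + 2 * d := by exact_mod_cast hn'
  linarith

theorem full_core {n : ℕ} (hn : 1000 ≤ n) {t : ℝ} (ht : 8 * (n : ℝ) ^ 2 ≤ t)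
    (ht' : t ≤ (n : ℝ) ^ 3 / 100) (s : ℕ) (hs : 2 * s ≤ NN n)
    (hη : eta n (2 * s + 1) t ≤ 1 / 100) :
    ∃ S : Finset (List (V n)), IsPart (NN n / 2 - s) S ∧
      (nons S : ℝ) ≤ 20 * eta n (2 * s + 1) t * 2 ^ n + 10 * badAll n t := by
  have ht0 : 0 ≤ t := le_trans (by positivity) ht
  have hR : (1 : ℝ) ≤ 2 * s + 1 := by
    have : (0 : ℝ) ≤ s := Nat.cast_nonneg s
    linarith
  set η := eta n (2 * s + 1) t with hηd
  have he0 : 0 ≤ η := g6a_eta_nonneg (by linarith) ht0
  set m := NN n / 2 with hm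
  have hsm : s ≤ m := by omega
  obtain ⟨S₀, hS0, hn0⟩ := full_start n
  have key : ∀ j : ℕ, j ≤ s → ∃ S : Finset (List (V n)), IsPart (m - j) S ∧
      (nons S : ℝ) ≤ 20 * η * ∑ i ∈ range j, ((lev n (m - 1 - i)).card : ℝ) +
        8 * ∑ i ∈ range j, (badk n t (m - 1 - i) : ℝ) +
        2 * ∑ i ∈ range j, (badk n t (m - i) : ℝ) := by
    intro j
    induction j with
    | zero =>
      intro _
      exact ⟨S₀, by simpa using hS0, by simp [hn0]⟩
    | succ j ih =>
      intro hj
      obtain ⟨S, hSt, hLb⟩ := ih (by omega)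
      have hk : 1 ≤ m - j := by omega
      have hkN : 2 * (m - j) ≤ NN n := by omega
      have hδ : (NN n : ℝ) - 2 * ((m - j : ℕ) : ℝ) ≤ 2 * s + 1 := by
        have : NN n ≤ 2 * s + 1 + 2 * (m - j) := by omega
        have h' : (NN n : ℝ) ≤ 2 * s + 1 + 2 * ((m - j : ℕ) : ℝ) := by exact_mod_cast this
        linarith
      obtain ⟨S', hS', hn'⟩ := g6a_step hn ht ht' hR hη hk hkN hδ S hSt
      refine ⟨S', ?_, ?_⟩
      · have e1 : m - (j + 1) = m - j - 1 := by omega
        rw [e1]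
        exact hS'
      · rw [Finset.sum_range_succ, Finset.sum_range_succ, Finset.sum_range_succ]
        have e1 : m - 1 - j = m - j - 1 := by omega
        rw [e1]
        linarith
  obtain ⟨S, hSt, hLb⟩ := key s (le_refl _)
  refine ⟨S, hSt, ?_⟩
  have s1 := g6a_sum_lev (n := n) s (fun i => m - 1 - i) (by
    intro i hi j hj hij
    simp only [coe_range, Set.mem_Iio] at hi hj
    simp only at hij
    omega)
  have s2 := g6a_sum_bad (n := n) t s (fun i => m - 1 - i) (by
    intro i hi j hj hij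
    simp only [coe_range, Set.mem_Iio] at hi hj
    simp only at hij
    omega)
  have s3 := g6a_sum_bad (n := n) t s (fun i => m - i) (by
    intro i hi j hj hij
    simp only [coe_range, Set.mem_Iio] at hi hj
    simp only at hij
    omega)
  have s1' : 20 * η * ∑ i ∈ range s, ((lev n (m - 1 - i)).card : ℝ) ≤ 20 * η * 2 ^ n :=
    mul_le_mul_of_nonneg_left s1 (by positivity)
  linarith

end Pool.Alm48
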