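import Pool.Agent.Alm48.C4
import Pool.Agent.Alm48.D1a
import Pool.Agent.Alm48.Defs
import Pool.Agent.Alm48.G4a
import Pool.Agent.Alm48.G4c
import Pool.Agent.Alm48.G5
import Pool.Agent.Alm48.G6a

/-!
Full partitions down to rank zero.
-/

set_option autoImplicit false

namespace Pool.Alm48

open scoped BigOperators
open Finset



theorem g6b_down {n : ℕ} (k : ℕ) : ∀ S : Finset (List (V n)), IsPart k S → 2 * k ≤ NN n →
    ∃ S' : Finset (List (V n)), IsPart 0 S' ∧
      nons S' ≤ nons S + 2 * ∑ i ∈ range k, (lev n i).card := by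
  induction k with
  | zero =>
    intro S hS _
    exact ⟨S, hS, by simp⟩
  | succ k ih =>
    intro S hS hk
    obtain ⟨S₁, h1, h2⟩ := full_step (n := n) (k := k + 1) (d := (lev n k).card) (by omega) hk S hS
      (by simpa using (hd_trivial (n := n) (k := k + 1)))
    obtain ⟨S', h3, h4⟩ := ih S₁ h1 (by omega)
    refine ⟨S', h3, ?_⟩
    rw [sum_range_succ]
    omega

theorem g6b_low {n : ℕ} (k : ℕ) :
    ∑ i ∈ range k, (lev n i).card = ((univ : Finset (V n)).filter (fun x => rk x < k)).card := by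
  classical
  have h1 : (univ : Finset (V n)).filter (fun x => rk x < k)
      = (range k).biUnion (fun i => lev n i) := by
    ext x
    simp only [lev, mem_filter, mem_univ, true_and, mem_biUnion, mem_range]
    constructor
    · intro h; exact ⟨rk x, h, rfl⟩
    · rintro ⟨i, hi, rfl⟩; exact hi
  rw [h1, card_biUnion]
  intro a _ b _ hab
  rw [Function.onFun, Finset.disjoint_left]
  intro x hx hx'
  simp only [lev, mem_filter] at hx hx'
  exact hab (hx.2.symm.trans hx'.2)

theorem full_all {n : ℕ} (hn : 1000 ≤ n) {t : ℝ} (ht : 8 * (n : ℝ) ^ 2 ≤ t)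
    (ht' : t ≤ (n : ℝ) ^ 3 / 100) (s : ℕ) (hs : 2 * s ≤ NN n)
    (hη : eta n (2 * s + 1) t ≤ 1 / 100) :
    ∃ S : Finset (List (V n)), IsPart 0 S ∧
      (nons S : ℝ) ≤ 20 * eta n (2 * s + 1) t * 2 ^ n +
        10 * (4 * 2 ^ n * Real.exp (-(t ^ 2 / (8 * (n : ℝ) ^ 5)))) +
        4 * 2 ^ n * Real.exp (-(2 * (s : ℝ) ^ 2 / (n : ℝ) ^ 3)) := by
  obtain ⟨S, hS, h1⟩ := full_core hn ht ht' s hs hη
  obtain ⟨S', hS', h2⟩ := g6b_down (NN n / 2 - s) S hS (by omega)
  refine ⟨S', hS', ?_⟩
  rw [g6b_low] at h2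
  have ht0 : 0 ≤ t := le_trans (by positivity) ht
  have h3 := badAll_le (n := n) (by omega) t ht0
  have h4 := rank_tail (n := n) (by omega) (s : ℝ) (Nat.cast_nonneg s)
  have h5 : ((univ : Finset (V n)).filter (fun x => rk x < NN n / 2 - s)).card
      ≤ ((univ : Finset (V n)).filter (fun x => (s : ℝ) < |(rk x : ℝ) - (NN n : ℝ) / 2|)).card := by
    apply card_le_card
    intro x hx
    rw [mem_filter] at hx ⊢
    refine ⟨mem_univ _, ?_⟩
    have h6 : 2 * rk x + 2 * s < NN n := by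
      have := hx.2
      omega
    have h7 : 2 * (rk x : ℝ) + 2 * s < NN n := by exact_mod_cast h6
    rw [abs_sub_comm]
    refine lt_of_lt_of_le ?_ (le_abs_self _)
    linarith
  have h6 : (nons S' : ℝ) ≤ nons S
      + 2 * ((univ : Finset (V n)).filter (fun x => rk x < NN n / 2 - s)).card := by
    exact_mod_cast h2
  have h7 : (((univ : Finset (V n)).filter (fun x => rk x < NN n / 2 - s)).card : ℝ)
      ≤ ((univ : Finset (V n)).filter (fun x => (s : ℝ) < |(rk x : ℝ) - (NN n : ℝ) / 2|)).card := by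
    exact_mod_cast h5
  linarith

theorem full_any (n : ℕ) : ∃ S : Finset (List (V n)), IsPart 0 S := by
  obtain ⟨S, hS, _⟩ := full_start n
  obtain ⟨S', hS', _⟩ := g6b_down (NN n / 2) S hS (by omega)
  exact ⟨S', hS'⟩

end Pool.Alm48
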