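import Pool.Agent.Alm48.C4
import Pool.Agent.Alm48.Defs
import Pool.Agent.Alm48.G1c

/-! G7 : the middle level is large. -/

set_option autoImplicit false
namespace Pool.Alm48
open scoped BigOperators
open Finset



/-- the number of natural numbers in a real interval of length `2 s` -/
theorem g7_card (a s : ℝ) (hs : 0 ≤ s) (ha : 0 ≤ a) :
    ((Finset.Icc ⌈a - s⌉₊ ⌊a + s⌋₊).card : ℝ) ≤ 2 * s + 1 := by
  rw [Nat.card_Icc]
  by_cases h : ⌈a - s⌉₊ ≤ ⌊a + s⌋₊ + 1
  · rw [Nat.cast_sub h]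
    have h1 := Nat.le_ceil (a - s)
    have h2 := Nat.floor_le (by positivity : 0 ≤ a + s)
    push_cast
    linarith
  · have : ⌊a + s⌋₊ + 1 - ⌈a - s⌉₊ = 0 := by omega
    rw [this]
    push_cast
    linarith

theorem mid_large {n : ℕ} (hn : 1 ≤ n) :
    (2 : ℝ) ^ n / (10 * (n : ℝ) ^ (3 / 2 : ℝ)) ≤ (lev n (NN n / 2)).card := by
  classical
  have hnR : (1 : ℝ) ≤ n := by exact_mod_cast hn
  have hn0 : (0 : ℝ) < n := by linarith
  set s : ℝ := (n : ℝ) ^ (3 / 2 : ℝ) with hs
  have hs1 : 1 ≤ s := Real.one_le_rpow hnR (by norm_num)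
  have hs2 : s ^ 2 = (n : ℝ) ^ 3 := by
    rw [hs, ← Real.rpow_natCast, ← Real.rpow_mul hn0.le, ← Real.rpow_natCast]
    norm_num
  have hp : (0 : ℝ) < 2 ^ n := by positivity
  -- the exponential
  have hexp : Real.exp (-(2 * s ^ 2 / (n : ℝ) ^ 3)) ≤ 14 / 100 := by
    rw [hs2]
    have e : -(2 * (n : ℝ) ^ 3 / (n : ℝ) ^ 3) = -(1 + 1) := by
      field_simp
      norm_num
    rw [e, Real.exp_neg, Real.exp_add]
    have h1 := Real.exp_one_gt_d9
    rw [inv_le_comm₀ (by positivity) (by norm_num)]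
    nlinarith
  have htail := rank_tail hn s (by linarith)
  set Tl := (univ : Finset (V n)).filter (fun x => s < |(rk x : ℝ) - (NN n : ℝ) / 2|) with hTl
  set Nr := (univ : Finset (V n)).filter (fun x => ¬ s < |(rk x : ℝ) - (NN n : ℝ) / 2|) with hNr
  have hsum : (Tl.card : ℝ) + Nr.card = 2 ^ n := by
    have h := Finset.card_filter_add_card_filter_not (s := (univ : Finset (V n)))
      (fun x => s < |(rk x : ℝ) - (NN n : ℝ) / 2|)
    rw [← hTl, ← hNr] at h
    have h2 : (univ : Finset (V n)).card = 2 ^ n := by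
      simp [Finset.card_univ]
    rw [h2] at h
    exact_mod_cast h
  have hTl1 : (Tl.card : ℝ) ≤ 28 / 100 * 2 ^ n := by
    refine le_trans htail ?_
    nlinarith
  set K := Finset.Icc ⌈(NN n : ℝ) / 2 - s⌉₊ ⌊(NN n : ℝ) / 2 + s⌋₊ with hK
  have hKc : (K.card : ℝ) ≤ 2 * s + 1 := g7_card _ s (by linarith) (by positivity)
  have hsub : Nr ⊆ K.biUnion (fun k => lev n k) := by
    intro x hx
    have hx' := (Finset.mem_filter.mp hx).2
    push Not at hx'
    rw [abs_le] at hx'
    rw [Finset.mem_biUnion]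
    refine ⟨rk x, ?_, ?_⟩
    · rw [hK, Finset.mem_Icc]
      constructor
      · apply Nat.ceil_le.mpr
        linarith [hx'.1]
      · apply Nat.le_floor
        linarith [hx'.2]
    · unfold lev
      exact Finset.mem_filter.mpr ⟨Finset.mem_univ _, rfl⟩
  have hNr1 : Nr.card ≤ K.card * (lev n (NN n / 2)).card := by
    refine le_trans (Finset.card_le_card hsub) (le_trans Finset.card_biUnion_le ?_)
    rw [← smul_eq_mul]
    apply Finset.sum_le_card_nsmul
    intro k _
    exact lev_le_mid k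
  have hNr2 : (Nr.card : ℝ) ≤ K.card * (lev n (NN n / 2)).card := by exact_mod_cast hNr1
  have hM : (0 : ℝ) ≤ (lev n (NN n / 2)).card := by positivity
  have h3 : (72 / 100 : ℝ) * 2 ^ n ≤ 3 * s * (lev n (NN n / 2)).card := by
    have h4 : (K.card : ℝ) * (lev n (NN n / 2)).card ≤ (3 * s) * (lev n (NN n / 2)).card :=
      mul_le_mul_of_nonneg_right (by linarith) hM
    linarith
  rw [div_le_iff₀ (by positivity)]
  nlinarith

end Pool.Alm48
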