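import Pool.Agent.Alm48.D1a
import Pool.Agent.Alm48.Defs

set_option autoImplicit false

namespace Pool.Alm48

open scoped BigOperators
open Finset



/-- eventual inequalities in a real variable -/
theorem g8_ev (θ ε : ℝ) (h0 : 0 < ε) (h1 : ε ≤ 1 / 20) :
    ∀ᶠ x : ℝ in Filter.atTop, 8 ≤ x ^ (1 / 2 + ε : ℝ) ∧ 100 ≤ x ^ (1 / 2 - ε : ℝ) ∧
      4 * 10 ^ 9 ≤ x ^ (2 - 2 * ε : ℝ) ∧
      x ^ (θ + 2 : ℝ) * Real.exp (-(x ^ (2 * ε : ℝ) / 8)) ≤ 1 := by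
  have hx : Filter.Tendsto (fun x : ℝ => x ^ (2 * ε : ℝ)) Filter.atTop Filter.atTop :=
    tendsto_rpow_atTop (by linarith)
  have ex : ∀ a b : ℝ, 0 < b → ∀ᶠ x : ℝ in Filter.atTop,
      x ^ (a : ℝ) * Real.exp (-(b * x ^ (2 * ε : ℝ))) ≤ 1 := by
    intro a b hb
    have h2 := (tendsto_rpow_mul_exp_neg_mul_atTop_nhds_zero (a / (2 * ε)) b hb).comp hx
    have h3 : ∀ᶠ x : ℝ in Filter.atTop,
        (x ^ (2 * ε : ℝ)) ^ (a / (2 * ε) : ℝ) * Real.exp (-b * x ^ (2 * ε : ℝ)) < 1 :=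
      h2.eventually (gt_mem_nhds one_pos)
    filter_upwards [h3, Filter.eventually_ge_atTop (0 : ℝ)] with x hx3 hx0
    have h4 : (x ^ (2 * ε : ℝ)) ^ (a / (2 * ε) : ℝ) = x ^ a := by
      rw [← Real.rpow_mul hx0]
      congr 1
      field_simp
    rw [h4] at hx3
    have h5 : -b * x ^ (2 * ε : ℝ) = -(b * x ^ (2 * ε : ℝ)) := by ring
    rw [h5] at hx3
    exact hx3.le
  have e1 : ∀ᶠ x : ℝ in Filter.atTop, 8 ≤ x ^ (1 / 2 + ε : ℝ) :=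
    (tendsto_rpow_atTop (by linarith)).eventually_ge_atTop 8
  have e2 : ∀ᶠ x : ℝ in Filter.atTop, 100 ≤ x ^ (1 / 2 - ε : ℝ) :=
    (tendsto_rpow_atTop (by linarith)).eventually_ge_atTop 100
  have e3 : ∀ᶠ x : ℝ in Filter.atTop, 4 * 10 ^ 9 ≤ x ^ (2 - 2 * ε : ℝ) :=
    (tendsto_rpow_atTop (by linarith)).eventually_ge_atTop _
  filter_upwards [e1, e2, e3, ex (θ + 2) (1 / 8) (by norm_num)] with x h1 h2 h3 h4
  refine ⟨h1, h2, h3, ?_⟩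
  have : x ^ (2 * ε : ℝ) / 8 = 1 / 8 * x ^ (2 * ε : ℝ) := by ring
  rw [this]; exact h4

theorem g8_key (θ ε : ℝ) (hε0 : 0 < ε) (hε1 : ε ≤ 1 / 20) (hε2 : 3 * ε ≤ 1 / 2 - θ) (n : ℕ)
    (hn : 1000 ≤ n) (h1 : 8 ≤ (n : ℝ) ^ (1 / 2 + ε : ℝ)) (h2 : 100 ≤ (n : ℝ) ^ (1 / 2 - ε : ℝ))
    (h3 : 4 * 10 ^ 9 ≤ (n : ℝ) ^ (2 - 2 * ε : ℝ))
    (h4 : (n : ℝ) ^ (θ + 2 : ℝ) * Real.exp (-((n : ℝ) ^ (2 * ε : ℝ) / 8)) ≤ 1) :
    ∃ (t : ℝ) (s : ℕ), 8 * (n : ℝ) ^ 2 ≤ t ∧ t ≤ (n : ℝ) ^ 3 / 100 ∧ 2 * s ≤ NN n ∧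
      eta n (2 * s + 1) t ≤ 1 / 100 ∧
      (20 * eta n (2 * s + 1) t * 2 ^ n +
        10 * (4 * 2 ^ n * Real.exp (-(t ^ 2 / (8 * (n : ℝ) ^ 5)))) +
        4 * 2 ^ n * Real.exp (-(2 * (s : ℝ) ^ 2 / (n : ℝ) ^ 3))) ≤
          (8 * 10 ^ 9 + 440) * (2 ^ n / (10 * (n : ℝ) ^ (3 / 2 : ℝ))) / (n : ℝ) ^ θ ∧
      (2 * s + 2) * (20 * eta n (2 * s + 1) t * 2 ^ n +
        10 * (4 * 2 ^ n * Real.exp (-(t ^ 2 / (8 * (n : ℝ) ^ 5)))) +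
        4 * 2 ^ n * Real.exp (-(2 * (s : ℝ) ^ 2 / (n : ℝ) ^ 3))) +
      2 * 2 ^ n * Real.exp (-(2 * (s : ℝ) ^ 2 / (n : ℝ) ^ 3)) ≤
        (8 * 10 ^ 9 + 440) * 2 ^ n / (n : ℝ) ^ θ := by
  set x : ℝ := (n : ℝ) with hxdef
  have hx1000 : (1000 : ℝ) ≤ x := by
    rw [hxdef]; exact_mod_cast hn
  have hx0 : 0 < x := by linarith
  have hx1 : 1 ≤ x := by linarith
  have p2 : x ^ (2 : ℕ) = x ^ (2 : ℝ) := by
    rw [← Real.rpow_natCast]; norm_num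
  have p3 : x ^ (3 : ℕ) = x ^ (3 : ℝ) := by
    rw [← Real.rpow_natCast]; norm_num
  have p5 : x ^ (5 : ℕ) = x ^ (5 : ℝ) := by
    rw [← Real.rpow_natCast]; norm_num
  have p6 : x ^ (6 : ℕ) = x ^ (6 : ℝ) := by
    rw [← Real.rpow_natCast]; norm_num
  set A : ℝ := x ^ (3 / 2 + ε : ℝ) with hA
  set B : ℝ := x ^ (5 / 2 + ε : ℝ) with hB
  have hAx : x ≤ A := by
    rw [hA]
    calc x = x ^ (1 : ℝ) := (Real.rpow_one x).symm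
      _ ≤ _ := Real.rpow_le_rpow_of_exponent_le hx1 (by linarith)
  have hA0 : 0 < A := by linarith
  have hB0 : 0 < B := Real.rpow_pos_of_pos hx0 _
  set s : ℕ := ⌊A⌋₊ with hs
  have hsA : (s : ℝ) ≤ A := Nat.floor_le hA0.le
  have hsA' : A - 1 ≤ (s : ℝ) := by
    have := Nat.lt_floor_add_one A
    linarith
  have hs0 : (0 : ℝ) ≤ s := Nat.cast_nonneg _
  have hB1 : 8 * x ^ 2 ≤ B := by
    have e : B = x ^ (1 / 2 + ε : ℝ) * x ^ 2 := by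
      rw [p2, ← Real.rpow_add hx0, hB]; congr 1; ring
    rw [e]
    exact mul_le_mul_of_nonneg_right h1 (by positivity)
  have hB2 : B ≤ x ^ 3 / 100 := by
    have e : B * x ^ (1 / 2 - ε : ℝ) = x ^ 3 := by
      rw [p3, hB, ← Real.rpow_add hx0]; congr 1; ring
    have : B * 100 ≤ B * x ^ (1 / 2 - ε : ℝ) := mul_le_mul_of_nonneg_left h2 hB0.le
    rw [e] at this
    linarith
  have hsN : 2 * s ≤ NN n := by
    have e : A * x ^ (1 / 2 - ε : ℝ) = x ^ 2 := by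
      rw [p2, hA, ← Real.rpow_add hx0]; congr 1; ring
    have h6 : A * 100 ≤ x ^ 2 := by
      rw [← e]; exact mul_le_mul_of_nonneg_left h2 hA0.le
    have h7 : (4 * s : ℝ) ≤ x ^ 2 := by linarith
    have h8 : 4 * s ≤ n ^ 2 := by
      rw [hxdef] at h7
      exact_mod_cast h7
    unfold NN
    have h9 : n ^ 2 ≤ n * (n + 1) := by nlinarith
    omega
  have hq : x ^ (2 * ε - 2 : ℝ) * x ^ (2 - 2 * ε : ℝ) = 1 := by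
    rw [← Real.rpow_add hx0]
    have : (2 * ε - 2 + (2 - 2 * ε) : ℝ) = 0 := by ring
    rw [this, Real.rpow_zero]
  set q : ℝ := x ^ (2 * ε - 2 : ℝ) with hqdef
  have hq0 : 0 < q := Real.rpow_pos_of_pos hx0 _
  have hq1 : q * (4 * 10 ^ 9) ≤ 1 := by
    rw [← hq]
    exact mul_le_mul_of_nonneg_left h3 hq0.le
  have hinv2 : 1 / x ^ 2 ≤ q := by
    have e : q * x ^ 2 = x ^ (2 * ε : ℝ) := by
      rw [p2, hqdef, ← Real.rpow_add hx0]; congr 1; ring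
    rw [div_le_iff₀ (by positivity), e]
    exact Real.one_le_rpow hx1 (by linarith)
  have hAB : A * B = q * x ^ 6 := by
    rw [hA, hB, hqdef, p6, ← Real.rpow_add hx0, ← Real.rpow_add hx0]; congr 1; ring
  have h21 : (2 * (s : ℝ) + 1) ≤ 3 * A := by linarith
  have heta : eta n (2 * s + 1) B ≤ 4 * 10 ^ 7 * q := by
    unfold eta
    rw [← hxdef]
    have h6 : (2 * (s : ℝ) + 1) * B / x ^ 6 ≤ 3 * q := by
      rw [div_le_iff₀ (by positivity)]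
      calc (2 * (s : ℝ) + 1) * B ≤ 3 * A * B := mul_le_mul_of_nonneg_right h21 hB0.le
        _ = 3 * q * x ^ 6 := by rw [mul_assoc, hAB]; ring
    have h7 : 1 / x ^ 2 + (2 * (s : ℝ) + 1) * B / x ^ 6 ≤ 4 * q := by linarith
    calc 10 ^ 7 * (1 / x ^ 2 + (2 * (s : ℝ) + 1) * B / x ^ 6) ≤ 10 ^ 7 * (4 * q) :=
          mul_le_mul_of_nonneg_left h7 (by norm_num)
      _ = 4 * 10 ^ 7 * q := by ring
  have heta' : eta n (2 * s + 1) B ≤ 1 / 100 := by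
    refine heta.trans ?_
    linarith
  have hth : x ^ (-θ : ℝ) = 1 / x ^ θ := by
    rw [Real.rpow_neg hx0.le, one_div]
  have hthpos : 0 < x ^ (-θ : ℝ) := Real.rpow_pos_of_pos hx0 _
  have hAq : A * q ≤ x ^ (-θ : ℝ) := by
    have e : A * q = x ^ (3 * ε - 1 / 2 : ℝ) := by
      rw [hA, hqdef, ← Real.rpow_add hx0]; congr 1; ring
    rw [e]
    exact Real.rpow_le_rpow_of_exponent_le hx1 (by linarith)
  have hB2e : B ^ 2 / (8 * x ^ 5) = x ^ (2 * ε : ℝ) / 8 := by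
    have e : B ^ 2 = x ^ (2 * ε : ℝ) * x ^ 5 := by
      rw [p5, ← Real.rpow_add hx0, hB, ← Real.rpow_natCast, ← Real.rpow_mul hx0.le]
      congr 1; push_cast; ring
    rw [e]
    field_simp
  have hA2 : A ≤ x ^ (2 : ℝ) := by
    rw [hA]
    exact Real.rpow_le_rpow_of_exponent_le hx1 (by linarith)
  have hth2 : x ^ (-(θ + 2) : ℝ) * x ^ (θ + 2 : ℝ) = 1 := by
    rw [← Real.rpow_add hx0]; simp
  have hth2pos : 0 < x ^ (-(θ + 2) : ℝ) := Real.rpow_pos_of_pos hx0 _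
  have hE8 : Real.exp (-(x ^ (2 * ε : ℝ) / 8)) ≤ x ^ (-(θ + 2) : ℝ) := by
    have h6 : x ^ (-(θ + 2) : ℝ) * (x ^ (θ + 2 : ℝ) * Real.exp (-(x ^ (2 * ε : ℝ) / 8))) ≤
        x ^ (-(θ + 2) : ℝ) * 1 := mul_le_mul_of_nonneg_left h4 hth2pos.le
    rw [← mul_assoc, hth2, one_mul, mul_one] at h6
    exact h6
  have hE1 : Real.exp (-(B ^ 2 / (8 * x ^ 5))) ≤ x ^ (-(θ + 2) : ℝ) := by
    rw [hB2e]; exact hE8
  have hE2 : Real.exp (-(2 * (s : ℝ) ^ 2 / x ^ 3)) ≤ x ^ (-(θ + 2) : ℝ) := by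
    have h6 : x ^ (2 * ε : ℝ) / 2 ≤ 2 * (s : ℝ) ^ 2 / x ^ 3 := by
      rw [le_div_iff₀ (by positivity)]
      have e : A ^ 2 = x ^ (2 * ε : ℝ) * x ^ 3 := by
        rw [p3, ← Real.rpow_add hx0, hA, ← Real.rpow_natCast, ← Real.rpow_mul hx0.le]
        congr 1; push_cast; ring
      have h8 : A / 2 ≤ (s : ℝ) := by linarith
      have h9 : (A / 2) ^ 2 ≤ (s : ℝ) ^ 2 := by
        apply pow_le_pow_left₀ (by positivity) h8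
      calc x ^ (2 * ε : ℝ) / 2 * x ^ 3 = (x ^ (2 * ε : ℝ) * x ^ 3) / 2 := by ring
        _ = 2 * (A / 2) ^ 2 := by rw [← e]; ring
        _ ≤ 2 * (s : ℝ) ^ 2 := by linarith
    have h60 : 0 ≤ x ^ (2 * ε : ℝ) := (Real.rpow_pos_of_pos hx0 _).le
    have h7 : Real.exp (-(2 * (s : ℝ) ^ 2 / x ^ 3)) ≤ Real.exp (-(x ^ (2 * ε : ℝ) / 8)) :=
      Real.exp_le_exp.2 (by linarith)
    exact h7.trans hE8
  -- the two scales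
  have hAE : A * x ^ (-(θ + 2) : ℝ) ≤ x ^ (-θ : ℝ) := by
    calc A * x ^ (-(θ + 2) : ℝ) ≤ x ^ (2 : ℝ) * x ^ (-(θ + 2) : ℝ) :=
          mul_le_mul_of_nonneg_right hA2 hth2pos.le
      _ = x ^ (-θ : ℝ) := by
          rw [← Real.rpow_add hx0]; congr 1; ring
  have h2th : x ^ (-(θ + 2) : ℝ) ≤ x ^ (-θ : ℝ) :=
    Real.rpow_le_rpow_of_exponent_le hx1 (by linarith)
  have hq32 : q ≤ x ^ (-(3 / 2 + θ) : ℝ) := by
    rw [hqdef]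
    exact Real.rpow_le_rpow_of_exponent_le hx1 (by linarith)
  have h232 : x ^ (-(θ + 2) : ℝ) ≤ x ^ (-(3 / 2 + θ) : ℝ) :=
    Real.rpow_le_rpow_of_exponent_le hx1 (by linarith)
  have h2n : (0 : ℝ) < 2 ^ n := by positivity
  have h22 : (2 * (s : ℝ) + 2) ≤ 4 * A := by linarith
  set u : ℝ := x ^ (-(θ + 2) : ℝ) with hu
  set E₁ : ℝ := Real.exp (-(B ^ 2 / (8 * x ^ 5))) with hE₁
  set E₂ : ℝ := Real.exp (-(2 * (s : ℝ) ^ 2 / x ^ 3)) with hE₂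
  have hE10 : 0 < E₁ := Real.exp_pos _
  have hE20 : 0 < E₂ := Real.exp_pos _
  have hin : 20 * eta n (2 * s + 1) B * 2 ^ n + 10 * (4 * 2 ^ n * E₁) + 4 * 2 ^ n * E₂ ≤
      (80 * 10 ^ 7 * q + 44 * u) * 2 ^ n := by
    have h6 : 20 * eta n (2 * s + 1) B * 2 ^ n ≤ 20 * (4 * 10 ^ 7 * q) * 2 ^ n := by
      apply mul_le_mul_of_nonneg_right _ h2n.le
      linarith
    have h7 : 2 ^ n * E₁ ≤ 2 ^ n * u := mul_le_mul_of_nonneg_left hE1 h2n.le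
    have h8 : 2 ^ n * E₂ ≤ 2 ^ n * u := mul_le_mul_of_nonneg_left hE2 h2n.le
    linarith
  refine ⟨B, s, hB1, hB2, hsN, heta', ?_, ?_⟩
  · have h32 : x ^ (-(3 / 2 + θ) : ℝ) = 1 / (x ^ (3 / 2 : ℝ) * x ^ θ) := by
      rw [Real.rpow_neg hx0.le, Real.rpow_add hx0, one_div]
    have hgoal : (8 * 10 ^ 9 + 440) * (2 ^ n / (10 * x ^ (3 / 2 : ℝ))) / x ^ θ =
        (8 * 10 ^ 8 + 44) * 2 ^ n * x ^ (-(3 / 2 + θ) : ℝ) := by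
      rw [h32]
      have hp1 : x ^ (3 / 2 : ℝ) ≠ 0 := (Real.rpow_pos_of_pos hx0 _).ne'
      have hp2 : x ^ θ ≠ 0 := (Real.rpow_pos_of_pos hx0 _).ne'
      field_simp
      ring
    rw [hgoal]
    refine hin.trans ?_
    have h9 : (80 * 10 ^ 7 * q + 44 * u) ≤ (8 * 10 ^ 8 + 44) * x ^ (-(3 / 2 + θ) : ℝ) := by
      linarith
    calc (80 * 10 ^ 7 * q + 44 * u) * 2 ^ n
        ≤ ((8 * 10 ^ 8 + 44) * x ^ (-(3 / 2 + θ) : ℝ)) * 2 ^ n :=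
          mul_le_mul_of_nonneg_right h9 h2n.le
      _ = _ := by ring
  · have hgoal : (8 * 10 ^ 9 + 440) * 2 ^ n / x ^ θ =
        (8 * 10 ^ 9 + 440) * 2 ^ n * x ^ (-θ : ℝ) := by
      rw [hth]; ring
    rw [hgoal]
    have hu0 : 0 < u := hth2pos
    have hnn : 0 ≤ (80 * 10 ^ 7 * q + 44 * u) * 2 ^ n := by positivity
    have hs2 : 0 ≤ 2 * (s : ℝ) + 2 := by linarith
    have h10 : 2 ^ n * E₂ ≤ 2 ^ n * x ^ (-θ : ℝ) :=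
      mul_le_mul_of_nonneg_left (hE2.trans h2th) h2n.le
    have h11 : (2 * (s : ℝ) + 2) * (20 * eta n (2 * s + 1) B * 2 ^ n + 10 * (4 * 2 ^ n * E₁) +
        4 * 2 ^ n * E₂) ≤ 4 * A * ((80 * 10 ^ 7 * q + 44 * u) * 2 ^ n) :=
      (mul_le_mul_of_nonneg_left hin hs2).trans (mul_le_mul_of_nonneg_right h22 hnn)
    have h12 : 4 * A * ((80 * 10 ^ 7 * q + 44 * u) * 2 ^ n) =
        (320 * 10 ^ 7 * (A * q) + 176 * (A * u)) * 2 ^ n := by ring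
    have h13 : (320 * 10 ^ 7 * (A * q) + 176 * (A * u)) * 2 ^ n ≤
        (320 * 10 ^ 7 * x ^ (-θ : ℝ) + 176 * x ^ (-θ : ℝ)) * 2 ^ n := by
      apply mul_le_mul_of_nonneg_right _ h2n.le
      linarith
    have h14 : 0 < 2 ^ n * x ^ (-θ : ℝ) := by positivity
    nlinarith

theorem numerics2 (θ : ℝ) (hθ : θ < 1 / 2) : ∃ C : ℝ, ∃ n₀ : ℕ, 1000 ≤ n₀ ∧ ∀ n : ℕ, n₀ ≤ n →
    ∃ (t : ℝ) (s : ℕ), 8 * (n : ℝ) ^ 2 ≤ t ∧ t ≤ (n : ℝ) ^ 3 / 100 ∧ 2 * s ≤ NN n ∧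
      eta n (2 * s + 1) t ≤ 1 / 100 ∧
      (20 * eta n (2 * s + 1) t * 2 ^ n +
        10 * (4 * 2 ^ n * Real.exp (-(t ^ 2 / (8 * (n : ℝ) ^ 5)))) +
        4 * 2 ^ n * Real.exp (-(2 * (s : ℝ) ^ 2 / (n : ℝ) ^ 3))) ≤
          C * (2 ^ n / (10 * (n : ℝ) ^ (3 / 2 : ℝ))) / (n : ℝ) ^ θ ∧
      (2 * s + 2) * (20 * eta n (2 * s + 1) t * 2 ^ n +
        10 * (4 * 2 ^ n * Real.exp (-(t ^ 2 / (8 * (n : ℝ) ^ 5)))) +
        4 * 2 ^ n * Real.exp (-(2 * (s : ℝ) ^ 2 / (n : ℝ) ^ 3))) +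
      2 * 2 ^ n * Real.exp (-(2 * (s : ℝ) ^ 2 / (n : ℝ) ^ 3)) ≤ C * 2 ^ n / (n : ℝ) ^ θ := by
  obtain ⟨ε, hε0, hε1, hε2⟩ : ∃ ε : ℝ, 0 < ε ∧ ε ≤ 1 / 20 ∧ 3 * ε ≤ 1 / 2 - θ := by
    refine ⟨min (1 / 20) ((1 / 2 - θ) / 3), lt_min (by norm_num) (by linarith),
      min_le_left _ _, ?_⟩
    have := min_le_right (1 / 20 : ℝ) ((1 / 2 - θ) / 3)
    linarith
  have hev := tendsto_natCast_atTop_atTop.eventually (g8_ev θ ε hε0 hε1)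
  obtain ⟨n₁, hn₁⟩ := Filter.eventually_atTop.1 hev
  refine ⟨8 * 10 ^ 9 + 440, max n₁ 1000, le_max_right _ _, ?_⟩
  intro n hn
  obtain ⟨h1, h2, h3, h4⟩ := hn₁ n ((le_max_left _ _).trans hn)
  exact g8_key θ ε hε0 hε1 hε2 n ((le_max_right _ _).trans hn) h1 h2 h3 h4

end Pool.Alm48
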