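import Pool.Agent.Alm48.A3a
import Pool.Agent.Alm48.C4
import Pool.Agent.Alm48.Defs
import Pool.Agent.Alm48.G4a

set_option autoImplicit false

namespace Pool.Alm48

open scoped BigOperators
open Finset



/-- number of elements on the non-symmetric chains -/
noncomputable def nonsEl {n : ℕ} (S : Finset (List (V n))) : ℕ :=
  by classical exact ((univ : Finset (V n)).filter (fun v => ∃ l ∈ S, ¬ Sym l ∧ v ∈ l)).card

theorem g9a_inj {n : ℕ} {l : List (V n)} (h : l.IsChain Step) :
    ∀ v ∈ l, ∀ v' ∈ l, rk v = rk v' → v = v' := by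
  have h1 : l.IsChain (fun x y => rk x < rk y) :=
    h.imp (fun x y hxy => by have := rk_step hxy; omega)
  have : IsTrans (V n) (fun x y => rk x < rk y) := ⟨fun _ _ _ h h' => lt_trans h h'⟩
  have h2 : l.Pairwise (fun x y => rk x < rk y) := List.isChain_iff_pairwise.1 h1
  have h3 : l.Pairwise (fun x y => rk x = rk y → x = y) :=
    h2.imp (fun {x y} hxy he => absurd he (by omega))
  have : Std.Symm (fun x y : V n => rk x = rk y → x = y) :=
    ⟨fun _ _ hxy he => (hxy he.symm).symm⟩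
  intro v hv v' hv' he
  exact List.Pairwise.forall_of_forall (fun _ _ _ => rfl) h3 hv hv' he

theorem nonsEl_le {n : ℕ} (hn : 1 ≤ n) (S : Finset (List (V n))) (hS : IsPart 0 S) (s : ℕ) :
    (nonsEl S : ℝ) ≤ (2 * s + 2) * nons S +
      2 * 2 ^ n * Real.exp (-(2 * (s : ℝ) ^ 2 / (n : ℝ) ^ 3)) := by
  classical
  have ht := rank_tail (n := n) hn (s : ℝ) (Nat.cast_nonneg s)
  set T : Finset (V n) := (univ : Finset (V n)).filter
    (fun x => (s : ℝ) < |(rk x : ℝ) - (NN n : ℝ) / 2|) with hT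
  set W : List (V n) → Finset (V n) := fun l =>
    (univ : Finset (V n)).filter (fun v => v ∈ l ∧ ¬ ((s : ℝ) < |(rk v : ℝ) - (NN n : ℝ) / 2|))
    with hW
  have hWc : ∀ l ∈ S.filter (fun l => ¬ Sym l), (W l).card ≤ 2 * s + 1 := by
    intro l hl
    have hlS : l ∈ S := (Finset.mem_filter.1 hl).1
    have hinj := g9a_inj (hS.1 l hlS)
    have h1 : (W l).card ≤ (Finset.Icc (NN n / 2 - s) (NN n / 2 + s)).card := by
      refine Finset.card_le_card_of_injOn rk ?_ ?_
      · intro v hv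
        have hv' := (Finset.mem_filter.1 (Finset.mem_coe.1 hv)).2.2
        rw [not_lt, abs_le] at hv'
        obtain ⟨h2, h3⟩ := hv'
        have h4 : (NN n : ℝ) ≤ 2 * (rk v : ℝ) + 2 * (s : ℝ) := by linarith
        have h5 : 2 * (rk v : ℝ) ≤ (NN n : ℝ) + 2 * (s : ℝ) := by linarith
        have h4' : NN n ≤ 2 * rk v + 2 * s := by exact_mod_cast h4
        have h5' : 2 * rk v ≤ NN n + 2 * s := by exact_mod_cast h5
        rw [Finset.mem_coe, Finset.mem_Icc]
        constructor
        · omega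
        · omega
      · intro v hv v' hv' he
        have hv1 := (Finset.mem_filter.1 (Finset.mem_coe.1 hv)).2.1
        have hv2 := (Finset.mem_filter.1 (Finset.mem_coe.1 hv')).2.1
        exact hinj v hv1 v' hv2 he
    rw [Nat.card_Icc] at h1
    omega
  have hsub : ((univ : Finset (V n)).filter (fun v => ∃ l ∈ S, ¬ Sym l ∧ v ∈ l)) ⊆
      ((S.filter (fun l => ¬ Sym l)).biUnion W) ∪ T := by
    intro v hv
    obtain ⟨_, l, hl, hs, hvl⟩ := Finset.mem_filter.1 hv
    by_cases h : (s : ℝ) < |(rk v : ℝ) - (NN n : ℝ) / 2|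
    · exact Finset.mem_union_right _ (Finset.mem_filter.2 ⟨Finset.mem_univ _, h⟩)
    · refine Finset.mem_union_left _ (Finset.mem_biUnion.2 ⟨l, Finset.mem_filter.2 ⟨hl, hs⟩, ?_⟩)
      exact Finset.mem_filter.2 ⟨Finset.mem_univ _, hvl, h⟩
  have hc1 : nonsEl S ≤ (S.filter (fun l => ¬ Sym l)).card * (2 * s + 1) + T.card := by
    unfold nonsEl
    refine (Finset.card_le_card hsub).trans ((Finset.card_union_le _ _).trans ?_)
    refine Nat.add_le_add_right ?_ _
    exact Finset.card_biUnion_le_card_mul _ _ _ hWc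
  have hc2 : (nonsEl S : ℝ) ≤ (nons S : ℝ) * (2 * s + 1) + (T.card : ℝ) := by
    have : (nonsEl S : ℝ) ≤
        (((S.filter (fun l => ¬ Sym l)).card * (2 * s + 1) + T.card : ℕ) : ℝ) := by
      exact_mod_cast hc1
    refine this.trans (le_of_eq ?_)
    unfold nons
    push_cast
    rfl
  have hnn : (0 : ℝ) ≤ (nons S : ℝ) := Nat.cast_nonneg _
  nlinarith [hc2, ht, hnn]

end Pool.Alm48
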