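import Pool.Agent.Alm48.D1a
import Pool.Agent.Alm48.Defs
import Pool.Agent.Alm48.G4a
import Pool.Agent.Alm48.G6b
import Pool.Agent.Alm48.G7
import Pool.Agent.Alm48.G8
import Pool.Agent.Alm48.G9a

set_option autoImplicit false
namespace Pool.Alm48
open scoped BigOperators
open Finset



theorem g9b_nons_le {n : ℕ} (S : Finset (List (V n))) (hS : IsPart 0 S) :
    nons S ≤ (lev n (NN n / 2)).card := by
  classical
  have h1 : nons S ≤ S.card := by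
    unfold nons
    exact Finset.card_filter_le _ _
  refine h1.trans ?_
  obtain ⟨_, hdisj, _, hmid⟩ := hS
  choose! v hv hrk using hmid
  refine Finset.card_le_card_of_injOn v ?_ ?_
  · intro l hl
    have h2 := hrk l hl
    simp only [lev, Finset.coe_filter, Finset.mem_univ, true_and, Set.mem_setOf_eq]
    exact h2
  · intro l hl l' hl' he
    have h3 := hv l hl
    have h4 := hv l' hl'
    rw [← he] at h4
    exact hdisj l hl l' hl' _ h3 h4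

theorem g9b_nonsEl_le {n : ℕ} (S : Finset (List (V n))) : nonsEl S ≤ 2 ^ n := by
  classical
  unfold nonsEl
  refine (Finset.card_filter_le _ _).trans ?_
  simp

theorem almost2 (θ : ℝ) (hθ : θ < 1 / 2) : ∃ C : ℝ, ∀ n : ℕ, 1 ≤ n →
    ∃ S : Finset (List (V n)), IsPart 0 S ∧
      (nons S : ℝ) ≤ C * (lev n (NN n / 2)).card / (n : ℝ) ^ θ ∧
      (nonsEl S : ℝ) ≤ C * 2 ^ n / (n : ℝ) ^ θ := by
  obtain ⟨C₀, n₀, hn₀, hnum⟩ := numerics2 θ hθ
  refine ⟨max C₀ n₀, ?_⟩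
  intro n hn
  have hnR : (1 : ℝ) ≤ n := by exact_mod_cast hn
  have hnθ : 0 < (n : ℝ) ^ θ := Real.rpow_pos_of_pos (by linarith) _
  by_cases hnn : n₀ ≤ n
  · obtain ⟨t, s, h1, h2, h3, h4, h5, h6⟩ := hnum n hnn
    obtain ⟨S, hS, hSn⟩ := full_all (hn₀.trans hnn) h1 h2 s h3 h4
    refine ⟨S, hS, ?_, ?_⟩
    · have h7 : (0 : ℝ) ≤ 2 ^ n / (10 * (n : ℝ) ^ (3 / 2 : ℝ)) := by positivity
      calc (nons S : ℝ) ≤ C₀ * (2 ^ n / (10 * (n : ℝ) ^ (3 / 2 : ℝ))) / (n : ℝ) ^ θ := hSn.trans h5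
        _ ≤ max C₀ n₀ * (2 ^ n / (10 * (n : ℝ) ^ (3 / 2 : ℝ))) / (n : ℝ) ^ θ := by
            gcongr
            exact le_max_left _ _
        _ ≤ max C₀ n₀ * (lev n (NN n / 2)).card / (n : ℝ) ^ θ := by
            have h8 : (0 : ℝ) ≤ max C₀ n₀ := le_max_of_le_right (Nat.cast_nonneg _)
            gcongr
            exact mid_large hn
    · have h9 := nonsEl_le hn S hS s
      calc (nonsEl S : ℝ) ≤ (2 * s + 2) * nons S +
              2 * 2 ^ n * Real.exp (-(2 * (s : ℝ) ^ 2 / (n : ℝ) ^ 3)) := h9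
        _ ≤ (2 * s + 2) * (20 * eta n (2 * s + 1) t * 2 ^ n +
              10 * (4 * 2 ^ n * Real.exp (-(t ^ 2 / (8 * (n : ℝ) ^ 5)))) +
              4 * 2 ^ n * Real.exp (-(2 * (s : ℝ) ^ 2 / (n : ℝ) ^ 3))) +
              2 * 2 ^ n * Real.exp (-(2 * (s : ℝ) ^ 2 / (n : ℝ) ^ 3)) := by gcongr
        _ ≤ C₀ * 2 ^ n / (n : ℝ) ^ θ := h6
        _ ≤ max C₀ n₀ * 2 ^ n / (n : ℝ) ^ θ := by
            gcongr
            exact le_max_left _ _
  · obtain ⟨S, hS⟩ := full_any n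
    have hn1 : (n : ℝ) ^ θ ≤ n₀ := by
      have h1 : (n : ℝ) ^ θ ≤ (n : ℝ) ^ (1 : ℝ) :=
        Real.rpow_le_rpow_of_exponent_le hnR (by linarith)
      rw [Real.rpow_one] at h1
      have h2 : (n : ℝ) ≤ n₀ := by exact_mod_cast (not_le.1 hnn).le
      exact h1.trans h2
    have hC : (n : ℝ) ^ θ ≤ max C₀ n₀ := hn1.trans (le_max_right _ _)
    refine ⟨S, hS, ?_, ?_⟩
    · rw [le_div_iff₀ hnθ]
      have h2 : (nons S : ℝ) ≤ (lev n (NN n / 2)).card := by exact_mod_cast g9b_nons_le S hS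
      calc (nons S : ℝ) * (n : ℝ) ^ θ ≤ (lev n (NN n / 2)).card * max C₀ n₀ := by gcongr
        _ = max C₀ n₀ * (lev n (NN n / 2)).card := mul_comm _ _
    · rw [le_div_iff₀ hnθ]
      have h2 : (nonsEl S : ℝ) ≤ 2 ^ n := by exact_mod_cast g9b_nonsEl_le S
      calc (nonsEl S : ℝ) * (n : ℝ) ^ θ ≤ 2 ^ n * max C₀ n₀ := by gcongr
        _ = max C₀ n₀ * 2 ^ n := mul_comm _ _

end Pool.Alm48
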