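import Pool.Agent.Alm48.A3a
import Pool.Agent.Alm48.A4a
import Pool.Agent.Alm48.Defs
import Pool.Agent.Alm48.G4a
import Pool.Agent.Alm48.G9a

set_option autoImplicit false
namespace Pool.Alm48
open scoped BigOperators
open Finset



/-- entry `j` of a list -/
def g9_at {n : ℕ} (l : List (V n)) (j : ℕ) : V n := l.getD j (fun _ => false)

theorem g9_at_eq {n : ℕ} (l : List (V n)) {j : ℕ} (h : j < l.length) : g9_at l j = l[j] := by
  unfold g9_at
  exact List.getD_eq_getElem l _ h

theorem g9_mem {n : ℕ} (l : List (V n)) (v : V n) :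
    v ∈ l ↔ ∃ j, j < l.length ∧ g9_at l j = v := by
  rw [List.mem_iff_getElem]
  constructor
  · rintro ⟨j, h, rfl⟩
    exact ⟨j, h, g9_at_eq l h⟩
  · rintro ⟨j, h, rfl⟩
    exact ⟨j, h, (g9_at_eq l h).symm⟩

theorem g9_step {n : ℕ} {l : List (V n)} (hl : l.IsChain Step) {j : ℕ} (h : j + 1 < l.length) :
    Step (g9_at l j) (g9_at l (j + 1)) := by
  rw [g9_at_eq l (by omega), g9_at_eq l h]
  exact List.isChain_iff_getElem.1 hl j (by omega)

theorem g9_rk {n : ℕ} {l : List (V n)} (hl : l.IsChain Step) {j : ℕ} (h : j < l.length) :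
    rk (g9_at l j) = rk (g9_at l 0) + j := by
  induction j with
  | zero => rfl
  | succ j ih => rw [rk_step (g9_step hl h), ih (by omega)]; ring

theorem g9_inj {n : ℕ} {l : List (V n)} (hl : l.IsChain Step) {i j : ℕ} (hi : i < l.length)
    (hj : j < l.length) (h : rk (g9_at l i) = rk (g9_at l j)) : i = j := by
  have h1 := g9_rk hl hi
  have h2 := g9_rk hl hj
  omega

theorem g9_rk_inj {n : ℕ} {l : List (V n)} (hl : l.IsChain Step) {u v : V n} (hu : u ∈ l)
    (hv : v ∈ l) (h : rk u = rk v) : u = v := by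
  obtain ⟨i, hi, rfl⟩ := (g9_mem l u).1 hu
  obtain ⟨j, hj, rfl⟩ := (g9_mem l v).1 hv
  rw [g9_inj hl hi hj h]

theorem g9_card {n : ℕ} {l : List (V n)} (hl : l.IsChain Step) :
    l.toFinset.card = l.length := by
  rw [List.toFinset_card_of_nodup]
  rw [List.nodup_iff_injective_get]
  intro i j hij
  have h1 := g9_at_eq l i.2
  have h2 := g9_at_eq l j.2
  have : g9_at l i.1 = g9_at l j.1 := by
    rw [h1, h2]; exact hij
  exact Fin.ext (g9_inj hl i.2 j.2 (by rw [this]))

theorem g9_sym {n : ℕ} (l : List (V n)) (hl : 0 < l.length) :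
    Sym l ↔ rk (g9_at l 0) + rk (g9_at l (l.length - 1)) = NN n := by
  have h1 : l.head? = some (g9_at l 0) := by
    rw [List.head?_eq_getElem?, g9_at_eq l hl, List.getElem?_eq_getElem hl]
  have h2 : l.getLast? = some (g9_at l (l.length - 1)) := by
    rw [List.getLast?_eq_getElem?, g9_at_eq l (by omega), List.getElem?_eq_getElem (by omega)]
  unfold Sym
  rw [h1, h2]
  constructor
  · rintro ⟨a, b, ha, hb, h⟩
    simp only [Option.some.injEq] at ha hb
    rw [ha, hb]; exact h
  · intro h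
    exact ⟨_, _, rfl, rfl, h⟩

/-- the number of chains is the size of the middle level -/
theorem g9_card_part {n : ℕ} (S : Finset (List (V n))) (hS : IsPart 0 S) :
    S.card = (lev n (NN n / 2)).card := by
  obtain ⟨h1, h2, h3, h4⟩ := hS
  choose! φ hφ hφr using h4
  refine Finset.card_nbij φ ?_ ?_ ?_
  · intro l hl
    simp only [lev, coe_filter, mem_univ, true_and, Set.mem_ofPred_eq]
    exact hφr l hl
  · intro l hl l' hl' he
    exact h2 l hl l' hl' (φ l) (hφ l hl) (by rw [he]; exact hφ l' hl')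
  · intro v hv
    simp only [lev, coe_filter, mem_univ, true_and, Set.mem_ofPred_eq] at hv
    obtain ⟨l, hl, hvl⟩ := (h3 v).2 ⟨Nat.zero_le _, by simpa using rk_le v⟩
    exact ⟨l, hl, g9_rk_inj (h1 l hl) (hφ l hl) hvl (by rw [hφr l hl, hv])⟩

theorem g9_nonsEl {n : ℕ} (S : Finset (List (V n))) (hS : IsPart 0 S) (F : Finset (List (V n)))
    (hF : ∀ l, l ∈ F ↔ l ∈ S ∧ ¬ Sym l) : ∑ l ∈ F, l.length = nonsEl S := by
  classical
  obtain ⟨h1, h2, h3, h4⟩ := hS
  have hset : nonsEl S = (F.biUnion (fun l => l.toFinset)).card := by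
    unfold nonsEl
    congr 1
    ext v
    simp only [mem_filter, mem_univ, true_and, mem_biUnion, List.mem_toFinset, hF]
    constructor
    · rintro ⟨l, hl, hs, hv⟩
      exact ⟨l, ⟨hl, hs⟩, hv⟩
    · rintro ⟨l, ⟨hl, hs⟩, hv⟩
      exact ⟨l, hl, hs, hv⟩
  rw [hset, Finset.card_biUnion]
  · exact Finset.sum_congr rfl (fun l hl => (g9_card (h1 l ((hF l).1 hl).1)).symm)
  · intro l hl l' hl' hne
    show Disjoint l.toFinset l'.toFinset
    rw [Finset.disjoint_left]
    intro v hv hv'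
    rw [List.mem_toFinset] at hv hv'
    exact hne (h2 l ((hF l).1 hl).1 l' ((hF l').1 hl').1 v hv hv')

/-- conversion to the format of the frozen statement -/
theorem convert2 {n : ℕ} (S : Finset (List (V n))) (hS : IsPart 0 S) :
    ∃ m : ℕ, ∃ len : Fin m → ℕ, ∃ c : (k : Fin m) → Fin (len k + 1) → (Fin n → Bool),
      m = (lev n (NN n / 2)).card ∧
      Function.Bijective (fun p : (Σ k : Fin m, Fin (len k + 1)) => c p.1 p.2) ∧
      (∀ k : Fin m, ∀ j : Fin (len k + 1), ∀ h : j.val + 1 < len k + 1,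
        (∃ i : Fin n, i.val = 0 ∧ c k j i = false ∧
          c k ⟨j.val + 1, h⟩ = Function.update (c k j) i true) ∨
        (∃ i i' : Fin n, i'.val = i.val + 1 ∧ c k j i = true ∧ c k j i' = false ∧
          c k ⟨j.val + 1, h⟩ = Function.update (Function.update (c k j) i false) i' true)) ∧
      (univ.filter (fun k : Fin m => ¬
        ((∑ i : Fin n, if c k ⟨0, Nat.succ_pos _⟩ i = true then (i.val + 1) else 0) +
        (∑ i : Fin n, if c k (Fin.last (len k)) i = true then (i.val + 1) else 0)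
          = n * (n + 1) / 2))).card = nons S ∧
      (∑ k ∈ univ.filter (fun k : Fin m => ¬
        ((∑ i : Fin n, if c k ⟨0, Nat.succ_pos _⟩ i = true then (i.val + 1) else 0) +
        (∑ i : Fin n, if c k (Fin.last (len k)) i = true then (i.val + 1) else 0)
          = n * (n + 1) / 2)), (len k + 1)) = nonsEl S := by
  classical
  have hS' := hS
  obtain ⟨h1, h2, h3, h4⟩ := hS'
  obtain ⟨e⟩ : Nonempty (Fin S.card ≃ S) := ⟨S.equivFin.symm⟩
  obtain ⟨lst, hlst⟩ : ∃ lst : Fin S.card → List (V n), ∀ k, lst k = (e k).1 := ⟨_, fun _ => rfl⟩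
  have hlS : ∀ k, lst k ∈ S := fun k => by rw [hlst]; exact (e k).2
  have hlinj : ∀ k k', lst k = lst k' → k = k' := by
    intro k k' h
    rw [hlst, hlst] at h
    exact e.injective (Subtype.ext h)
  have hlsurj : ∀ l ∈ S, ∃ k, lst k = l := by
    intro l hl
    exact ⟨e.symm ⟨l, hl⟩, by rw [hlst, Equiv.apply_symm_apply]⟩
  have hpos : ∀ k, 0 < (lst k).length := by
    intro k
    obtain ⟨v, hv, -⟩ := h4 (lst k) (hlS k)
    exact List.length_pos_of_mem hv
  have hlen : ∀ k, (lst k).length - 1 + 1 = (lst k).length := fun k => by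
    have := hpos k
    omega
  have hsymm : ∀ k, Sym (lst k) ↔ rk (g9_at (lst k) 0) + rk (g9_at (lst k) ((lst k).length - 1))
      = NN n := fun k => g9_sym (lst k) (hpos k)
  refine ⟨S.card, fun k => (lst k).length - 1, fun k j => g9_at (lst k) j.val,
    g9_card_part S hS, ⟨?_, ?_⟩, ?_, ?_, ?_⟩
  · rintro ⟨k, j⟩ ⟨k', j'⟩ he
    simp only at he
    have hj : j.val < (lst k).length := lt_of_lt_of_eq j.2 (hlen k)
    have hj' : j'.val < (lst k').length := lt_of_lt_of_eq j'.2 (hlen k')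
    have hkk : k = k' := hlinj k k' (h2 _ (hlS k) _ (hlS k') (g9_at (lst k) j.val)
      ((g9_mem _ _).2 ⟨_, hj, rfl⟩) ((g9_mem _ _).2 ⟨_, hj', he.symm⟩))
    subst hkk
    have hjj : j.val = j'.val := g9_inj (h1 _ (hlS k)) hj hj' (by rw [he])
    have : j = j' := Fin.ext hjj
    rw [this]
  · intro v
    obtain ⟨l, hl, hvl⟩ := (h3 v).2 ⟨Nat.zero_le _, by simpa using rk_le v⟩
    obtain ⟨k, rfl⟩ := hlsurj l hl
    obtain ⟨j, hj, hjv⟩ := (g9_mem _ v).1 hvl
    exact ⟨⟨k, ⟨j, lt_of_lt_of_eq hj (hlen k).symm⟩⟩, hjv⟩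
  · intro k j h
    have hj : j.val + 1 < (lst k).length := lt_of_lt_of_eq h (hlen k)
    exact g9_step (h1 _ (hlS k)) hj
  · have hrhs : nons S = (S.filter (fun l => ¬ Sym l)).card := by
      unfold nons; congr
    rw [hrhs]
    refine Finset.card_nbij lst ?_ ?_ ?_
    · intro k hk
      simp only [coe_filter, mem_univ, true_and, Set.mem_ofPred_eq] at hk ⊢
      exact ⟨hlS k, fun hs => hk ((hsymm k).1 hs)⟩
    · intro k _ k' _ h
      exact hlinj k k' h
    · intro l hl
      simp only [coe_filter, Set.mem_ofPred_eq] at hl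
      obtain ⟨k, rfl⟩ := hlsurj l hl.1
      refine ⟨k, ?_, rfl⟩
      simp only [coe_filter, mem_univ, true_and, Set.mem_ofPred_eq]
      exact fun hs => hl.2 ((hsymm k).2 hs)
  · rw [← g9_nonsEl S hS (S.filter (fun l => ¬ Sym l)) (fun l => by simp)]
    refine Finset.sum_nbij lst ?_ ?_ ?_ ?_
    · intro k hk
      simp only [mem_filter, mem_univ, true_and] at hk ⊢
      exact ⟨hlS k, fun hs => hk ((hsymm k).1 hs)⟩
    · intro k _ k' _ h
      exact hlinj k k' h
    · intro l hl
      simp only [coe_filter, Set.mem_ofPred_eq] at hl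
      obtain ⟨k, rfl⟩ := hlsurj l hl.1
      refine ⟨k, ?_, rfl⟩
      simp only [coe_filter, mem_univ, true_and, Set.mem_ofPred_eq]
      exact fun hs => hl.2 ((hsymm k).2 hs)
    · intro k _
      exact hlen k

end Pool.Alm48
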