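import Pool.Agent.Alm48.D1a

set_option autoImplicit false
namespace Pool.Alm48
open scoped BigOperators
open Finset


theorem h1_log_le {x : ℝ} (hx : 0 < x) : Real.log x ≤ 2 * Real.sqrt x := by
  have h1 : Real.log x = 2 * Real.log (Real.sqrt x) := by
    rw [Real.log_sqrt hx.le]; ring
  rw [h1]
  have h2 : Real.log (Real.sqrt x) ≤ Real.sqrt x - 1 :=
    Real.log_le_sub_one_of_pos (Real.sqrt_pos.mpr hx)
  linarith

theorem numerics3 : ∃ C : ℝ, ∃ n₀ : ℕ, 1000 ≤ n₀ ∧ ∀ n : ℕ, n₀ ≤ n →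
    ∃ (t : ℝ) (s : ℕ), 8 * (n : ℝ) ^ 2 ≤ t ∧ t ≤ (n : ℝ) ^ 3 / 100 ∧ 2 * s ≤ NN n ∧
      eta n (2 * s + 1) t ≤ 1 / 100 ∧
      (20 * eta n (2 * s + 1) t * 2 ^ n +
        10 * (4 * 2 ^ n * Real.exp (-(t ^ 2 / (8 * (n : ℝ) ^ 5)))) +
        4 * 2 ^ n * Real.exp (-(2 * (s : ℝ) ^ 2 / (n : ℝ) ^ 3))) ≤
          C * (2 ^ n / (10 * (n : ℝ) ^ (3 / 2 : ℝ))) * (Real.log n / Real.sqrt n) ∧
      (2 * s + 2) * (20 * eta n (2 * s + 1) t * 2 ^ n +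
        10 * (4 * 2 ^ n * Real.exp (-(t ^ 2 / (8 * (n : ℝ) ^ 5)))) +
        4 * 2 ^ n * Real.exp (-(2 * (s : ℝ) ^ 2 / (n : ℝ) ^ 3))) +
      2 * 2 ^ n * Real.exp (-(2 * (s : ℝ) ^ 2 / (n : ℝ) ^ 3)) ≤
        C * 2 ^ n * (Real.log n * Real.sqrt (Real.log n) / Real.sqrt n) := by
  refine ⟨2 * 10 ^ 12, 2 * 10 ^ 12, by norm_num, ?_⟩
  intro n hn
  have hnR : (2 * 10 ^ 12 : ℝ) ≤ n := by exact_mod_cast hn
  have hn0 : (0 : ℝ) < n := by linarith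
  set L := Real.log n with hL
  set q := Real.sqrt L with hq
  set r := Real.sqrt (n : ℝ) with hr
  have hr0 : 0 < r := Real.sqrt_pos.mpr hn0
  have hr2 : r ^ 2 = n := Real.sq_sqrt hn0.le
  have hr1 : 1280000 ≤ r := by
    apply Real.le_sqrt_of_sq_le
    linarith
  have hL1 : 1 ≤ L := by
    rw [hL, Real.le_log_iff_exp_le hn0]
    have := Real.exp_one_lt_d9
    linarith
  have hLn : L ≤ 2 * r := h1_log_le hn0
  have hq1 : 1 ≤ q := by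
    rw [hq]; exact Real.one_le_sqrt.mpr hL1
  have hq0 : 0 ≤ q := by linarith
  have hq2 : q ^ 2 = L := Real.sq_sqrt (by linarith)
  -- q ≤ r / 800
  have hqr : q ≤ r / 800 := by
    have h1 : q ^ 2 ≤ (r / 800) ^ 2 := by
      rw [hq2]
      nlinarith
    exact abs_le_of_sq_le_sq' h1 (by positivity) |>.2
  set t : ℝ := 8 * r ^ 5 * q with ht
  set s : ℕ := ⌈2 * r ^ 3 * q⌉₊ with hs
  have hs1 : 2 * r ^ 3 * q ≤ (s : ℝ) := Nat.le_ceil _
  have hs2 : (s : ℝ) ≤ 2 * r ^ 3 * q + 1 := (Nat.ceil_lt_add_one (by positivity)).le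
  have hr3 : 1 ≤ r ^ 3 := one_le_pow₀ (by linarith)
  have hr3q : 1 ≤ r ^ 3 * q := by nlinarith
  have hs3 : (s : ℝ) ≤ 3 * r ^ 3 * q := by nlinarith
  have ht0 : 0 < t := by rw [ht]; positivity
  have hn' : (n : ℝ) = r ^ 2 := hr2.symm
  -- exponent identities
  have hexp1 : Real.exp (-(t ^ 2 / (8 * (n : ℝ) ^ 5))) ≤ 1 / r ^ 16 := by
    have h1 : t ^ 2 / (8 * (n : ℝ) ^ 5) = 8 * L := by
      rw [ht, hn', ← hq2]; field_simp
    rw [h1, hL]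
    have h2 : -(8 * Real.log n) = Real.log ((n : ℝ) ^ 8)⁻¹ := by
      rw [Real.log_inv, Real.log_pow]; push_cast; ring
    rw [h2, Real.exp_log (by positivity)]
    rw [hn', ← pow_mul, one_div]
  have hexp2 : Real.exp (-(2 * (s : ℝ) ^ 2 / (n : ℝ) ^ 3)) ≤ 1 / r ^ 16 := by
    have h1 : 8 * L ≤ 2 * (s : ℝ) ^ 2 / (n : ℝ) ^ 3 := by
      rw [le_div_iff₀ (by positivity), hn', ← hq2]
      have h3 : (2 * r ^ 3 * q) ^ 2 ≤ (s : ℝ) ^ 2 := by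
        apply pow_le_pow_left₀ (by positivity) hs1
      calc 8 * q ^ 2 * (r ^ 2) ^ 3 = 2 * (2 * r ^ 3 * q) ^ 2 := by ring
        _ ≤ 2 * (s : ℝ) ^ 2 := by linarith
    have h2 : -(8 * Real.log n) = Real.log ((n : ℝ) ^ 8)⁻¹ := by
      rw [Real.log_inv, Real.log_pow]; push_cast; ring
    calc Real.exp (-(2 * (s : ℝ) ^ 2 / (n : ℝ) ^ 3)) ≤ Real.exp (-(8 * Real.log n)) := by
          apply Real.exp_le_exp.mpr; linarith
      _ = 1 / r ^ 16 := by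
          rw [h2, Real.exp_log (by positivity), hn', ← pow_mul, one_div]
  -- eta bound
  have heta : eta n (2 * s + 1) t ≤ 57 * 10 ^ 7 * (L / r ^ 4) := by
    unfold eta
    have h1 : (2 * (s : ℝ) + 1) ≤ 7 * r ^ 3 * q := by nlinarith
    have h2 : (2 * (s : ℝ) + 1) * t ≤ 7 * r ^ 3 * q * t := by
      apply mul_le_mul_of_nonneg_right h1 ht0.le
    have h3 : 7 * r ^ 3 * q * t = 56 * r ^ 8 * L := by rw [ht, ← hq2]; ring
    have h4 : (2 * (s : ℝ) + 1) * t / (n : ℝ) ^ 6 ≤ 56 * (L / r ^ 4) := by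
      rw [div_le_iff₀ (by positivity), hn']
      calc (2 * (s : ℝ) + 1) * t ≤ 56 * r ^ 8 * L := by linarith
        _ = 56 * (L / r ^ 4) * (r ^ 2) ^ 6 := by field_simp
    have h5 : 1 / (n : ℝ) ^ 2 ≤ L / r ^ 4 := by
      rw [hn', ← pow_mul]
      apply div_le_div_of_nonneg_right hL1 (by positivity)
    calc (10 : ℝ) ^ 7 * (1 / (n : ℝ) ^ 2 + (2 * (s : ℝ) + 1) * t / (n : ℝ) ^ 6)
        ≤ 10 ^ 7 * (L / r ^ 4 + 56 * (L / r ^ 4)) := by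
          apply mul_le_mul_of_nonneg_left _ (by norm_num)
          linarith
      _ = 57 * 10 ^ 7 * (L / r ^ 4) := by ring
  have hLr4 : 0 ≤ L / r ^ 4 := by positivity
  have hr16 : 1 / r ^ 16 ≤ L / r ^ 4 := by
    have h1 : r ^ 4 ≤ r ^ 16 := pow_le_pow_right₀ (by linarith) (by norm_num)
    calc 1 / r ^ 16 ≤ 1 / r ^ 4 := one_div_le_one_div_of_le (by positivity) h1
      _ ≤ L / r ^ 4 := div_le_div_of_nonneg_right hL1 (by positivity)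
  have h2n : (0 : ℝ) < 2 ^ n := by positivity
  have htotal : (20 * eta n (2 * s + 1) t * 2 ^ n +
        10 * (4 * 2 ^ n * Real.exp (-(t ^ 2 / (8 * (n : ℝ) ^ 5)))) +
        4 * 2 ^ n * Real.exp (-(2 * (s : ℝ) ^ 2 / (n : ℝ) ^ 3))) ≤
        2 * 10 ^ 10 * (L / r ^ 4) * 2 ^ n := by
    have e1 := le_trans hexp1 hr16
    have e2 := le_trans hexp2 hr16
    have a1 : 20 * eta n (2 * s + 1) t * 2 ^ n ≤ 20 * (57 * 10 ^ 7 * (L / r ^ 4)) * 2 ^ n := by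
      apply mul_le_mul_of_nonneg_right _ h2n.le
      linarith
    have a2 : 10 * (4 * 2 ^ n * Real.exp (-(t ^ 2 / (8 * (n : ℝ) ^ 5)))) ≤
        10 * (4 * 2 ^ n * (L / r ^ 4)) := by
      have := mul_le_mul_of_nonneg_left e1 (by positivity : (0:ℝ) ≤ 4 * 2 ^ n)
      linarith
    have a3 : 4 * 2 ^ n * Real.exp (-(2 * (s : ℝ) ^ 2 / (n : ℝ) ^ 3)) ≤ 4 * 2 ^ n * (L / r ^ 4) := by
      exact mul_le_mul_of_nonneg_left e2 (by positivity : (0:ℝ) ≤ 4 * 2 ^ n)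
    have a4 : 0 ≤ 2 ^ n * (L / r ^ 4) := by positivity
    nlinarith
  refine ⟨t, s, ?_, ?_, ?_, ?_, ?_, ?_⟩
  · rw [ht, hn']
    have h1 : 1 ≤ r * q := by nlinarith
    have h2 : (0:ℝ) ≤ r ^ 4 := by positivity
    calc 8 * (r ^ 2) ^ 2 = 8 * r ^ 4 * 1 := by ring
      _ ≤ 8 * r ^ 4 * (r * q) := by
        apply mul_le_mul_of_nonneg_left h1 (by positivity)
      _ = 8 * r ^ 5 * q := by ring
  · rw [ht, hn']
    calc 8 * r ^ 5 * q ≤ 8 * r ^ 5 * (r / 800) := by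
          apply mul_le_mul_of_nonneg_left hqr (by positivity)
      _ = (r ^ 2) ^ 3 / 100 := by ring
  · -- 2 s ≤ n (n+1) / 2
    have h1 : (s : ℝ) ≤ 3 * r ^ 3 * (r / 800) := by
      apply le_trans hs3
      apply mul_le_mul_of_nonneg_left hqr (by positivity)
    have h2 : (s : ℝ) * 4 ≤ (n : ℝ) * (n + 1) := by
      rw [hn']; nlinarith [pow_pos hr0 4, pow_pos hr0 2]
    have h3 : s * 4 ≤ n * (n + 1) := by exact_mod_cast h2
    unfold NN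
    omega
  · apply le_trans heta
    have h1 : L / r ^ 4 ≤ 2 * r / r ^ 4 := div_le_div_of_nonneg_right hLn (by positivity)
    have h2 : 2 * r / r ^ 4 = 2 / r ^ 3 := by field_simp
    have h3 : (1280000 : ℝ) ^ 3 ≤ r ^ 3 := pow_le_pow_left₀ (by norm_num) hr1 3
    have h4 : 2 / r ^ 3 ≤ 2 / 1280000 ^ 3 := by
      apply div_le_div_of_nonneg_left (by norm_num) (by norm_num) h3
    have h5 : (57 * 10 ^ 7 : ℝ) * (2 / 1280000 ^ 3) ≤ 1 / 100 := by norm_num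
    nlinarith
  · apply le_trans htotal
    have h1 : (n : ℝ) ^ (3 / 2 : ℝ) = r ^ 3 := by
      rw [hr, Real.sqrt_eq_rpow, ← Real.rpow_natCast, ← Real.rpow_mul hn0.le]
      norm_num
    rw [h1]
    have h2 : 2 * 10 ^ 12 * (2 ^ n / (10 * r ^ 3)) * (L / r) = 2 * 10 ^ 11 * (L / r ^ 4) * 2 ^ n := by
      field_simp
    rw [h2]
    have : 0 ≤ (L / r ^ 4) * 2 ^ n := by positivity
    nlinarith
  · have h1 : (2 * (s : ℝ) + 2) ≤ 8 * r ^ 3 * q := by nlinarith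
    have h2 : (2 * (s : ℝ) + 2) * (20 * eta n (2 * s + 1) t * 2 ^ n +
        10 * (4 * 2 ^ n * Real.exp (-(t ^ 2 / (8 * (n : ℝ) ^ 5)))) +
        4 * 2 ^ n * Real.exp (-(2 * (s : ℝ) ^ 2 / (n : ℝ) ^ 3))) ≤
        (8 * r ^ 3 * q) * (2 * 10 ^ 10 * (L / r ^ 4) * 2 ^ n) := by
      have h3 : 0 ≤ 2 * (s : ℝ) + 2 := by positivity
      calc _ ≤ (2 * (s : ℝ) + 2) * (2 * 10 ^ 10 * (L / r ^ 4) * 2 ^ n) :=
            mul_le_mul_of_nonneg_left htotal h3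
        _ ≤ _ := mul_le_mul_of_nonneg_right h1 (by positivity)
    have h3 : (8 * r ^ 3 * q) * (2 * 10 ^ 10 * (L / r ^ 4) * 2 ^ n) =
        16 * 10 ^ 10 * 2 ^ n * (L * q / r) := by
      field_simp; ring
    have h4 : 2 * 2 ^ n * Real.exp (-(2 * (s : ℝ) ^ 2 / (n : ℝ) ^ 3)) ≤ 2 * 2 ^ n * (L * q / r) := by
      apply mul_le_mul_of_nonneg_left _ (by positivity)
      apply le_trans hexp2
      have h5 : r ^ 1 ≤ r ^ 16 := pow_le_pow_right₀ (by linarith) (by norm_num)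
      rw [pow_one] at h5
      calc 1 / r ^ 16 ≤ 1 / r := one_div_le_one_div_of_le hr0 h5
        _ ≤ L * q / r := by
          apply div_le_div_of_nonneg_right _ hr0.le
          nlinarith
    have h5 : 0 ≤ 2 ^ n * (L * q / r) := by positivity
    nlinarith

end Pool.Alm48
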