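import Pool.Agent.Alm48.G6b
import Pool.Agent.Alm48.G7
import Pool.Agent.Alm48.G9a
import Pool.Agent.Alm48.G9b
import Pool.Agent.Alm48.H1

set_option autoImplicit false
namespace Pool.Alm48
open scoped BigOperators
open Finset

theorem almost3 : ∃ C : ℝ, ∀ n : ℕ, 2 ≤ n →
    ∃ S : Finset (List (V n)), IsPart 0 S ∧
      (nons S : ℝ) ≤ C * (Real.log n / Real.sqrt n) * (lev n (NN n / 2)).card ∧
      (nonsEl S : ℝ) ≤ C * (Real.log n * Real.sqrt (Real.log n) / Real.sqrt n) * 2 ^ n := by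
  obtain ⟨C₀, n₀, hn₀, hnum⟩ := numerics3
  refine ⟨max C₀ (4 * n₀), ?_⟩
  intro n hn2
  have hn : 1 ≤ n := by omega
  have hnR : (2 : ℝ) ≤ n := by exact_mod_cast hn2
  have hsq : 0 < Real.sqrt n := Real.sqrt_pos.mpr (by linarith)
  have hlog : Real.log 2 ≤ Real.log n := Real.log_le_log (by norm_num) hnR
  have hl2 : (1 : ℝ) / 2 ≤ Real.log 2 := by
    have := Real.log_two_gt_d9; linarith
  have hlog0 : 0 ≤ Real.log n := by linarith
  have hn₀R : (1000 : ℝ) ≤ n₀ := by exact_mod_cast hn₀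
  have hC0 : (0 : ℝ) ≤ max C₀ (4 * n₀) := le_max_of_le_right (by positivity)
  by_cases hnn : n₀ ≤ n
  · obtain ⟨t, s, h1, h2, h3, h4, h5, h6⟩ := hnum n hnn
    obtain ⟨S, hS, hSn⟩ := full_all (hn₀.trans hnn) h1 h2 s h3 h4
    refine ⟨S, hS, ?_, ?_⟩
    · have h7 : (0 : ℝ) ≤ 2 ^ n / (10 * (n : ℝ) ^ (3 / 2 : ℝ)) := by positivity
      have h8 : 0 ≤ Real.log n / Real.sqrt n := by positivity
      calc (nons S : ℝ) ≤ C₀ * (2 ^ n / (10 * (n : ℝ) ^ (3 / 2 : ℝ))) * (Real.log n / Real.sqrt n) :=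
            hSn.trans h5
        _ ≤ max C₀ (4 * n₀) * (2 ^ n / (10 * (n : ℝ) ^ (3 / 2 : ℝ))) * (Real.log n / Real.sqrt n) := by
            gcongr
            exact le_max_left _ _
        _ ≤ max C₀ (4 * n₀) * (lev n (NN n / 2)).card * (Real.log n / Real.sqrt n) := by
            gcongr
            exact mid_large hn
        _ = _ := by ring
    · have h9 := nonsEl_le hn S hS s
      have h8 : 0 ≤ Real.log n * Real.sqrt (Real.log n) / Real.sqrt n := by positivity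
      calc (nonsEl S : ℝ) ≤ (2 * s + 2) * nons S +
              2 * 2 ^ n * Real.exp (-(2 * (s : ℝ) ^ 2 / (n : ℝ) ^ 3)) := h9
        _ ≤ (2 * s + 2) * (20 * eta n (2 * s + 1) t * 2 ^ n +
              10 * (4 * 2 ^ n * Real.exp (-(t ^ 2 / (8 * (n : ℝ) ^ 5)))) +
              4 * 2 ^ n * Real.exp (-(2 * (s : ℝ) ^ 2 / (n : ℝ) ^ 3))) +
              2 * 2 ^ n * Real.exp (-(2 * (s : ℝ) ^ 2 / (n : ℝ) ^ 3)) := by gcongr
        _ ≤ C₀ * 2 ^ n * (Real.log n * Real.sqrt (Real.log n) / Real.sqrt n) := h6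
        _ ≤ max C₀ (4 * n₀) * 2 ^ n * (Real.log n * Real.sqrt (Real.log n) / Real.sqrt n) := by
            gcongr
            exact le_max_left _ _
        _ = _ := by ring
  · obtain ⟨S, hS⟩ := full_any n
    have hnn' : (n : ℝ) ≤ n₀ := by exact_mod_cast (not_le.1 hnn).le
    have hsn : Real.sqrt n ≤ n := by
      rw [Real.sqrt_le_left (by linarith)]
      nlinarith
    have hsl : (1 : ℝ) / 2 ≤ Real.sqrt (Real.log n) := by
      apply Real.le_sqrt_of_sq_le
      norm_num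
      linarith
    have hC : (4 : ℝ) * n₀ ≤ max C₀ (4 * n₀) := le_max_right _ _
    have hA : 1 ≤ max C₀ (4 * n₀) * (Real.log n / Real.sqrt n) := by
      rw [← mul_div_assoc, le_div_iff₀ hsq]
      nlinarith
    have hB : 1 ≤ max C₀ (4 * n₀) * (Real.log n * Real.sqrt (Real.log n) / Real.sqrt n) := by
      rw [← mul_div_assoc, le_div_iff₀ hsq]
      have h1 : (1 : ℝ) / 4 ≤ Real.log n * Real.sqrt (Real.log n) := by nlinarith
      nlinarith
    refine ⟨S, hS, ?_, ?_⟩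
    · have h2 : (nons S : ℝ) ≤ (lev n (NN n / 2)).card := by exact_mod_cast g9b_nons_le S hS
      have h3 : (0 : ℝ) ≤ (lev n (NN n / 2)).card := by positivity
      nlinarith
    · have h2 : (nonsEl S : ℝ) ≤ 2 ^ n := by exact_mod_cast g9b_nonsEl_le S
      have h3 : (0 : ℝ) < 2 ^ n := by positivity
      nlinarith

end Pool.Alm48
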